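import Pool.Agent.K6.H47.TS.Defs2

/-!
# Gauge fixing along a spanning tree
-/

set_option autoImplicit false
namespace Pool.Agent.K6.H47.TS
open scoped TensorProduct
open Polynomial

/-- transport of an isomorphism -/
def trEquiv {k B : Type} [Field k] (N : B → Type) [∀ b, AddCommGroup (N b)] [∀ b, Module k (N b)]
    {b₀ b b' : B} (h : b = b') (f : N b₀ ≃ₗ[k] N b) : N b₀ ≃ₗ[k] N b' := by
  subst h
  exact f

theorem gauge_aux {k B E : Type} [Field k] [Fintype B] [Fintype E]
    (N : B → Type) [∀ b, AddCommGroup (N b)] [∀ b, Module k (N b)]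
    (src tgt : E → B) (ψ : ∀ e, N (src e) ≃ₗ[k] N (tgt e))
    (hconn : ∀ A : Set B, A.Nonempty → (∀ e, src e ∈ A ↔ tgt e ∈ A) → A = Set.univ) (b₀ : B)
    (j : ℕ) (hj : j < Fintype.card B) :
    ∃ (A : Finset B) (φ : ∀ b, b ∈ A → (N b₀ ≃ₗ[k] N b)) (Z : Finset E),
      A.card = j + 1 ∧ b₀ ∈ A ∧ Z.card = j ∧ ∀ e ∈ Z, ∃ (hs : src e ∈ A) (ht : tgt e ∈ A),
        ∀ v, ψ e (φ (src e) hs v) = φ (tgt e) ht v := by
  classical
  induction j with
  | zero =>
    refine ⟨{b₀}, fun b hb => trEquiv N (Finset.mem_singleton.mp hb).symm (LinearEquiv.refl k _), ∅,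
      Finset.card_singleton _, Finset.mem_singleton_self _, rfl, ?_⟩
    intro e he
    exact absurd he (Finset.notMem_empty e)
  | succ j ih =>
    obtain ⟨A, φ, Z, hA, hb, hZ, h⟩ := ih (by omega)
    have hne : (A : Set B) ≠ Set.univ := by
      intro h'
      have h1 : A = Finset.univ := by
        ext b
        simp only [Finset.mem_univ, iff_true]
        have : b ∈ (A : Set B) := by rw [h']; trivial
        exact this
      rw [h1, Finset.card_univ] at hA
      omega
    obtain ⟨e, he⟩ : ∃ e, ¬ (src e ∈ A ↔ tgt e ∈ A) := by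
      by_contra hcon
      push Not at hcon
      exact hne (hconn A ⟨b₀, hb⟩ hcon)
    have heZ : e ∉ Z := by
      intro h'
      obtain ⟨hs, ht, _⟩ := h e h'
      exact he ⟨fun _ => ht, fun _ => hs⟩
    by_cases hs : src e ∈ A
    · have ht : tgt e ∉ A := fun h' => he ⟨fun _ => h', fun _ => hs⟩
      let φ' : ∀ b, b ∈ insert (tgt e) A → (N b₀ ≃ₗ[k] N b) := fun b hb' =>
        if h1 : b ∈ A then φ b h1 else
          trEquiv N (((Finset.mem_insert.mp hb').resolve_right h1).symm)
            ((φ (src e) hs).trans (ψ e))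
      have hφ1 : ∀ b (hb' : b ∈ insert (tgt e) A) (h1 : b ∈ A), φ' b hb' = φ b h1 := by
        intro b hb' h1
        simp only [φ']
        rw [dif_pos h1]
      have hφ2 : ∀ hb', φ' (tgt e) hb' = (φ (src e) hs).trans (ψ e) := by
        intro hb'
        simp only [φ']
        rw [dif_neg ht]
        rfl
      refine ⟨insert (tgt e) A, φ', insert e Z, ?_, Finset.mem_insert_of_mem hb, ?_, ?_⟩
      · rw [Finset.card_insert_of_notMem ht, hA]
      · rw [Finset.card_insert_of_notMem heZ, hZ]
      · intro e' he'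
        rcases Finset.mem_insert.mp he' with rfl | he'
        · refine ⟨Finset.mem_insert_of_mem hs, Finset.mem_insert_self _ _, fun v => ?_⟩
          rw [hφ1 _ (Finset.mem_insert_of_mem hs) hs, hφ2 (Finset.mem_insert_self _ _)]
          rfl
        · obtain ⟨h1, h2, h3⟩ := h e' he'
          refine ⟨Finset.mem_insert_of_mem h1, Finset.mem_insert_of_mem h2, fun v => ?_⟩
          rw [hφ1 _ (Finset.mem_insert_of_mem h1) h1, hφ1 _ (Finset.mem_insert_of_mem h2) h2, h3]
    · have ht : tgt e ∈ A := by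
        by_contra h'
        exact he ⟨fun h'' => absurd h'' hs, fun h'' => absurd h'' h'⟩
      let φ' : ∀ b, b ∈ insert (src e) A → (N b₀ ≃ₗ[k] N b) := fun b hb' =>
        if h1 : b ∈ A then φ b h1 else
          trEquiv N (((Finset.mem_insert.mp hb').resolve_right h1).symm)
            ((φ (tgt e) ht).trans (ψ e).symm)
      have hφ1 : ∀ b (hb' : b ∈ insert (src e) A) (h1 : b ∈ A), φ' b hb' = φ b h1 := by
        intro b hb' h1
        simp only [φ']
        rw [dif_pos h1]
      have hφ2 : ∀ hb', φ' (src e) hb' = (φ (tgt e) ht).trans (ψ e).symm := by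
        intro hb'
        simp only [φ']
        rw [dif_neg hs]
        rfl
      refine ⟨insert (src e) A, φ', insert e Z, ?_, Finset.mem_insert_of_mem hb, ?_, ?_⟩
      · rw [Finset.card_insert_of_notMem hs, hA]
      · rw [Finset.card_insert_of_notMem heZ, hZ]
      · intro e' he'
        rcases Finset.mem_insert.mp he' with rfl | he'
        · refine ⟨Finset.mem_insert_self _ _, Finset.mem_insert_of_mem ht, fun v => ?_⟩
          rw [hφ1 _ (Finset.mem_insert_of_mem ht) ht, hφ2 (Finset.mem_insert_self _ _), LinearEquiv.trans_apply, LinearEquiv.apply_symm_apply]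
        · obtain ⟨h1, h2, h3⟩ := h e' he'
          refine ⟨Finset.mem_insert_of_mem h1, Finset.mem_insert_of_mem h2, fun v => ?_⟩
          rw [hφ1 _ (Finset.mem_insert_of_mem h1) h1, hφ1 _ (Finset.mem_insert_of_mem h2) h2, h3]

theorem gauge {k B E : Type} [Field k] [Fintype B] [Fintype E] [Nonempty B]
    (N : B → Type) [∀ b, AddCommGroup (N b)] [∀ b, Module k (N b)]
    (src tgt : E → B) (ψ : ∀ e, N (src e) ≃ₗ[k] N (tgt e))
    (hE : Fintype.card E ≤ Fintype.card B)
    (hconn : ∀ A : Set B, A.Nonempty → (∀ e, src e ∈ A ↔ tgt e ∈ A) → A = Set.univ) :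
    ∃ (b₀ : B) (φ : ∀ b, N b₀ ≃ₗ[k] N b) (sp : Set E), sp.Subsingleton ∧
      ∀ e ∉ sp, ∀ v, ψ e (φ (src e) v) = φ (tgt e) v := by
  classical
  obtain ⟨b₀⟩ := ‹Nonempty B›
  have hpos : 0 < Fintype.card B := Fintype.card_pos_iff.mpr ⟨b₀⟩
  obtain ⟨A, φ, Z, hA, hb, hZ, h⟩ := gauge_aux N src tgt ψ hconn b₀ (Fintype.card B - 1) (by omega)
  have hAu : A = Finset.univ := by
    rw [← Finset.card_eq_iff_eq_univ, hA]
    omega
  have hmem : ∀ b, b ∈ A := fun b => by rw [hAu]; exact Finset.mem_univ b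
  refine ⟨b₀, fun b => φ b (hmem b), {e | e ∉ Z}, ?_, ?_⟩
  · intro e he e' he'
    by_contra hne
    have h1 : ({e, e'} : Finset E) ⊆ Zᶜ := by
      intro x hx
      rw [Finset.mem_compl]
      rcases Finset.mem_insert.mp hx with rfl | hx
      · exact he
      · rw [Finset.mem_singleton.mp hx]
        exact he'
    have h2 := Finset.card_le_card h1
    rw [Finset.card_pair hne, Finset.card_compl, hZ] at h2
    omega
  · intro e he v
    have he' : e ∈ Z := by
      by_contra h'
      exact he h'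
    obtain ⟨_, _, h3⟩ := h e he'
    exact h3 v

end Pool.Agent.K6.H47.TS
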