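import Pool.Agent.K6.H47.TS.Defs2

/-!
# An indecomposable operator over an algebraically closed field is one Jordan block
-/

set_option autoImplicit false
namespace Pool.Agent.K6.H47.TS
open scoped TensorProduct
open Polynomial

theorem jordan_mulVec {k : Type} [Field k] (n : ℕ) (c : k) (w : Fin n → k) (i : Fin n) :
    (jordan n c).mulVec w i = c * w i +
      (if h : 0 < (i : ℕ) then w ⟨i - 1, by omega⟩ else 0) := by
  classical
  have h1 : (jordan n c).mulVec w i = ∑ j, ((if j = i then c * w j else 0) +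
      (if (i : ℕ) = j + 1 then w j else 0)) := by
    rw [Matrix.mulVec, dotProduct]
    refine Finset.sum_congr rfl fun j _ => ?_
    unfold jordan
    rcases eq_or_ne i j with rfl | hij
    · simp
    · rw [if_neg hij, if_neg (Ne.symm hij)]
      split_ifs <;> simp
  rw [h1, Finset.sum_add_distrib, Finset.sum_ite_eq' Finset.univ i, if_pos (Finset.mem_univ i)]
  congr 1
  split_ifs with h
  · rw [Finset.sum_eq_single (⟨(i : ℕ) - 1, by omega⟩ : Fin n)]
    · rw [if_pos (by simp; omega)]
    · intro b _ hb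
      rw [if_neg]
      intro hb'
      apply hb
      apply Fin.ext
      simp
      omega
    · intro h'
      exact absurd (Finset.mem_univ _) h'
  · apply Finset.sum_eq_zero
    intro j _
    rw [if_neg]
    omega

theorem jordan_basis {k N : Type} [Field k] [IsAlgClosed k] [AddCommGroup N] [Module k N]
    [Module.Finite k N] (T : N →ₗ[k] N)
    (h : ∀ U W : Submodule k N, IsCompl U W → (∀ v ∈ U, T v ∈ U) → (∀ v ∈ W, T v ∈ W) →
      U = ⊥ ∨ W = ⊥) :
    ∃ (n : ℕ) (c : k) (e : N ≃ₗ[k] (Fin n → k)), ∀ v, e (T v) = (jordan n c).mulVec (e v) := by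
  classical
  rcases subsingleton_or_nontrivial N with hN | hN
  · refine ⟨0, 0, LinearEquiv.ofSubsingleton _ _, fun v => Subsingleton.elim _ _⟩
  obtain ⟨c, hc⟩ := Module.End.exists_eigenvalue (K := k) T
  obtain ⟨v₀, hv₀⟩ := hc.exists_hasEigenvector
  set S : N →ₗ[k] N := T - c • LinearMap.id with hS
  have hSv : ∀ v, S v = T v - c • v := fun v => by simp [hS]
  have hTv : ∀ v, T v = c • v + S v := fun v => by rw [hSv]; abel
  -- `S` is nilpotent
  have hnil : ∃ m : ℕ, S ^ m = 0 := by
    obtain ⟨m, hm1, hm⟩ := (((Filter.eventually_ge_atTop 1).and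
      (LinearMap.eventually_isCompl_ker_pow_range_pow S)).exists)
    refine ⟨m, ?_⟩
    have hinvk : ∀ v ∈ LinearMap.ker (S ^ m), T v ∈ LinearMap.ker (S ^ m) := by
      intro v hv
      rw [hTv]
      apply Submodule.add_mem _ (Submodule.smul_mem _ _ hv)
      rw [LinearMap.mem_ker] at hv ⊢
      rw [← Module.End.mul_apply, ← pow_succ, pow_succ', Module.End.mul_apply, hv, map_zero]
    have hinvr : ∀ v ∈ LinearMap.range (S ^ m), T v ∈ LinearMap.range (S ^ m) := by
      rintro _ ⟨u, rfl⟩
      rw [hTv]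
      refine Submodule.add_mem _ (Submodule.smul_mem _ _ ⟨u, rfl⟩) ⟨S u, ?_⟩
      rw [← Module.End.mul_apply, ← Module.End.mul_apply, ← pow_succ, ← pow_succ']
    rcases h _ _ hm hinvk hinvr with h1 | h1
    · exfalso
      have : v₀ ∈ LinearMap.ker (S ^ m) := by
        rw [LinearMap.mem_ker]
        obtain ⟨m', rfl⟩ : ∃ m', m = m' + 1 := ⟨m - 1, by omega⟩
        rw [pow_succ, Module.End.mul_apply, hSv, hv₀.apply_eq_smul, sub_self, map_zero]
      rw [h1, Submodule.mem_bot] at this
      exact hv₀.2 this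
    · exact LinearMap.range_eq_bot.mp h1
  set n := Nat.find hnil with hn
  have hn0 : S ^ n = 0 := Nat.find_spec hnil
  have hnpos : 0 < n := by
    rcases Nat.eq_zero_or_pos n with h0 | h0
    · exfalso
      rw [h0, pow_zero] at hn0
      have : v₀ = 0 := by
        have := LinearMap.congr_fun hn0 v₀
        simpa using this
      exact hv₀.2 this
    · exact h0
  have hge : ∀ m, n ≤ m → ∀ v, (S ^ m) v = 0 := by
    intro m hm v
    obtain ⟨d, rfl⟩ := Nat.exists_eq_add_of_le hm
    rw [pow_add, hn0, zero_mul, LinearMap.zero_apply]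
  have hn1 : S ^ (n - 1) ≠ 0 := Nat.find_min hnil (by omega)
  obtain ⟨v, hv⟩ : ∃ v, (S ^ (n - 1)) v ≠ 0 := by
    by_contra hcon
    push Not at hcon
    exact hn1 (LinearMap.ext hcon)
  obtain ⟨φ, hφ⟩ : ∃ φ : Module.Dual k N, φ ((S ^ (n - 1)) v) ≠ 0 := by
    by_contra hcon
    push Not at hcon
    exact hv ((Module.forall_dual_apply_eq_zero_iff k _).mp hcon)
  -- the two maps
  set Φ : N →ₗ[k] (Fin n → k) := LinearMap.pi fun i => φ.comp (S ^ (n - 1 - (i : ℕ))) with hΦ
  have hΦv : ∀ w i, Φ w i = φ ((S ^ (n - 1 - (i : ℕ))) w) := fun w i => rfl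
  set Ψ : (Fin n → k) →ₗ[k] N := Fintype.linearCombination k (fun j : Fin n => (S ^ (j : ℕ)) v)
    with hΨ
  have hΨa : ∀ a, Ψ a = ∑ j, a j • (S ^ (j : ℕ)) v := fun a => by
    rw [hΨ, Fintype.linearCombination_apply]
  have hΦΨ : ∀ a i, Φ (Ψ a) i = ∑ j : Fin n, a j * φ ((S ^ (n - 1 - (i : ℕ) + j)) v) := by
    intro a i
    rw [hΦv, hΨa, map_sum, map_sum]
    refine Finset.sum_congr rfl fun j _ => ?_
    rw [map_smul, map_smul, smul_eq_mul, ← Module.End.mul_apply, ← pow_add]
  have hinj : ∀ a, Φ (Ψ a) = 0 → a = 0 := by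
    intro a ha
    have key : ∀ m : ℕ, ∀ j : Fin n, (j : ℕ) = m → a j = 0 := by
      intro m
      induction m using Nat.strong_induction_on with
      | _ m ih =>
        intro j hj
        have h1 := congrFun ha j
        rw [hΦΨ, Pi.zero_apply, Finset.sum_eq_single j] at h1
        · have e1 : n - 1 - (j : ℕ) + j = n - 1 := by omega
          rw [e1] at h1
          exact (mul_eq_zero.mp h1).resolve_right hφ
        · intro l _ hl
          rcases lt_or_gt_of_ne (fun h' => hl (Fin.ext h') : (l : ℕ) ≠ j) with h' | h'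
          · rw [ih l (by omega) l rfl, zero_mul]
          · rw [hge _ (by omega), map_zero, mul_zero]
        · intro h'
          exact absurd (Finset.mem_univ _) h'
    funext j
    exact key j j rfl
  have hinj' : Function.Injective (Φ.comp Ψ) := by
    rw [← LinearMap.ker_eq_bot, LinearMap.ker_eq_bot']
    exact hinj
  have hsurj : Function.Surjective (Φ.comp Ψ) := LinearMap.injective_iff_surjective.mp hinj'
  have hshift : ∀ w i, Φ (S w) i = if h : 0 < (i : ℕ) then Φ w ⟨i - 1, by omega⟩ else 0 := by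
    intro w i
    split_ifs with h0
    · rw [hΦv, hΦv, ← Module.End.mul_apply, ← pow_succ]
      congr 3
      simp only
      omega
    · rw [hΦv, ← Module.End.mul_apply, ← pow_succ, hge _ (by omega), map_zero]
  have hcompl : IsCompl (LinearMap.range Ψ) (LinearMap.ker Φ) := by
    constructor
    · rw [Submodule.disjoint_def]
      rintro _ ⟨a, rfl⟩ ha
      rw [LinearMap.mem_ker] at ha
      rw [hinj a ha, map_zero]
    · rw [codisjoint_iff, eq_top_iff]
      intro x _
      obtain ⟨a, ha⟩ := hsurj (Φ x)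
      rw [LinearMap.comp_apply] at ha
      have : x = Ψ a + (x - Ψ a) := by abel
      rw [this]
      apply Submodule.add_mem_sup (LinearMap.mem_range_self Ψ a)
      rw [LinearMap.mem_ker, map_sub, ha, sub_self]
  have hU : ∀ w ∈ LinearMap.range Ψ, T w ∈ LinearMap.range Ψ := by
    rintro _ ⟨a, rfl⟩
    rw [hTv]
    apply Submodule.add_mem _ (Submodule.smul_mem _ _ (LinearMap.mem_range_self Ψ a))
    rw [hΨa, map_sum]
    apply Submodule.sum_mem
    intro j _
    rw [map_smul]
    apply Submodule.smul_mem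
    rw [← Module.End.mul_apply, ← pow_succ']
    rcases Nat.lt_or_ge ((j : ℕ) + 1) n with h' | h'
    · refine ⟨Pi.single ⟨j + 1, h'⟩ 1, ?_⟩
      rw [hΨ, Fintype.linearCombination_apply_single, one_smul]
    · rw [hge _ h']
      exact Submodule.zero_mem _
  have hW : ∀ w ∈ LinearMap.ker Φ, T w ∈ LinearMap.ker Φ := by
    intro w hw
    rw [hTv]
    apply Submodule.add_mem _ (Submodule.smul_mem _ _ hw)
    rw [LinearMap.mem_ker] at hw ⊢
    funext i
    rw [hshift, hw]
    split_ifs <;> rfl
  have hker : LinearMap.ker Φ = ⊥ := by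
    rcases h _ _ hcompl hU hW with h1 | h1
    · exfalso
      have h2 : v ∈ LinearMap.range Ψ := by
        refine ⟨Pi.single ⟨0, hnpos⟩ 1, ?_⟩
        rw [hΨ, Fintype.linearCombination_apply_single, one_smul]
        simp
      rw [h1, Submodule.mem_bot] at h2
      rw [h2, map_zero] at hv
      exact hv rfl
    · exact h1
  have hbij : Function.Bijective Φ := by
    refine ⟨LinearMap.ker_eq_bot.mp hker, fun y => ?_⟩
    obtain ⟨a, ha⟩ := hsurj y
    exact ⟨Ψ a, ha⟩
  refine ⟨n, c, LinearEquiv.ofBijective Φ hbij, fun w => ?_⟩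
  funext i
  rw [jordan_mulVec, LinearEquiv.ofBijective_apply, LinearEquiv.ofBijective_apply, hTv, map_add,
    map_smul, Pi.add_apply, Pi.smul_apply, smul_eq_mul, hshift]

end Pool.Agent.K6.H47.TS
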