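import Pool.Agent.K6.H47.TS.Split
import Pool.Agent.K6.H47.TS.Jordan
import Pool.Agent.K6.H47.TS.Gauge

/-!
# Assembly of the normal form from a block decomposition
-/

set_option autoImplicit false

namespace Pool.Agent.K6.H47.TS

open scoped TensorProduct
open Polynomial

/-! ### blocks of vectors and matrices -/

/-- the vector with the block `w` at the place `b` -/
def blk {k : Type} [Field k] {m n : ℕ} (b : Fin m) (w : Fin n → k) : Fin m × Fin n → k :=
  fun p => if p.1 = b then w p.2 else 0

theorem opMat_mulVec {k : Type} [Field k] {m : ℕ} (n : ℕ) (nx : Fin m → Option (Fin m))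
    (sp : Fin m → Prop) [DecidablePred sp] (t : k) (b : Fin m) (w : Fin n → k) (c : Fin m)
    (hc : nx b = some c) :
    (opMat n nx sp t).mulVec (blk b w) = blk c (if sp b then (jordan n t).mulVec w else w) := by
  funext p
  unfold Matrix.mulVec dotProduct opMat blk
  rw [Fintype.sum_prod_type, Finset.sum_eq_single b]
  · simp only [hc, if_true, Option.some.injEq]
    by_cases h : p.1 = c
    · rw [if_pos h]
      simp only [h, if_true]
      by_cases hs : sp b
      · simp only [hs, if_true]
      · simp only [hs, if_false]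
        simp
    · rw [if_neg h]
      have h' : ¬ c = p.1 := fun h' => h h'.symm
      simp only [h', if_false, zero_mul, Finset.sum_const_zero]
  · intro b' _ hb'
    apply Finset.sum_eq_zero
    intro j _
    simp [hb']
  · intro h
    exact absurd (Finset.mem_univ b) h

theorem opMat_mulVec_none {k : Type} [Field k] {m : ℕ} (n : ℕ) (nx : Fin m → Option (Fin m))
    (sp : Fin m → Prop) [DecidablePred sp] (t : k) (b : Fin m) (w : Fin n → k)
    (hc : nx b = none) :
    (opMat n nx sp t).mulVec (blk b w) = 0 := by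
  funext p
  unfold Matrix.mulVec dotProduct opMat blk
  rw [Fintype.sum_prod_type, Finset.sum_eq_single b]
  · simp [hc]
  · intro b' _ hb'
    apply Finset.sum_eq_zero
    intro j _
    simp [hb']
  · intro h
    exact absurd (Finset.mem_univ b) h

theorem diagonal_mulVec_blk {k : Type} [Field k] {m n : ℕ} (d : Fin m → k) (b : Fin m)
    (w : Fin n → k) :
    (Matrix.diagonal fun p : Fin m × Fin n => d p.1).mulVec (blk b w) = d b • blk b w := by
  funext p
  rw [Matrix.mulVec_diagonal]
  unfold blk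
  by_cases h : p.1 = b
  · simp [h]
  · simp [h]

/-! ### the decomposition -/

section

variable {k V : Type} [Field k] [AddCommGroup V] [Module k V]

/-- the isomorphism given by the blocks -/
noncomputable def blocksEquiv {B : Type} [Fintype B] {N : B → Submodule k V}
    (hN : IsBlocks N) {N₀ : Type} [AddCommGroup N₀] [Module k N₀] (φ : ∀ b, N₀ ≃ₗ[k] N b) :
    (B → N₀) ≃ₗ[k] V := by
  classical
  exact (LinearEquiv.piCongrRight φ).trans
    ((DirectSum.linearEquivFunOnFintype k B (fun b => N b)).symm.trans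
      (LinearEquiv.ofBijective (DirectSum.coeLinearMap N)
        ((DirectSum.isInternal_submodule_iff_iSupIndep_and_iSup_eq_top N).2 ⟨hN.indep, hN.top⟩)))

theorem blocksEquiv_single {B : Type} [Fintype B] [DecidableEq B] {N : B → Submodule k V}
    (hN : IsBlocks N) {N₀ : Type} [AddCommGroup N₀] [Module k N₀] (φ : ∀ b, N₀ ≃ₗ[k] N b)
    (b : B) (u : N₀) : blocksEquiv hN φ (Pi.single b u) = (φ b u : V) := by
  classical
  unfold blocksEquiv
  simp only [LinearEquiv.trans_apply]
  have h1 : (LinearEquiv.piCongrRight φ) (Pi.single b u) = Pi.single b (φ b u) := by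
    funext b'
    by_cases h : b' = b
    · subst h; simp
    · simp [h]
  rw [h1]
  have h2 : (DirectSum.linearEquivFunOnFintype k B (fun b => N b)).symm (Pi.single b (φ b u)) =
      DirectSum.lof k B (fun b => N b) b (φ b u) := by
    rw [LinearEquiv.symm_apply_eq]
    rw [DirectSum.linearEquivFunOnFintype_lof]
  rw [h2]
  exact DirectSum.coeLinearMap_lof N b (φ b u)

theorem isCompl_pi {B N₀ : Type} [AddCommGroup N₀] [Module k N₀] {U W : Submodule k N₀}
    (h : IsCompl U W) : IsCompl (Submodule.pi Set.univ fun _ : B => U)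
      (Submodule.pi Set.univ fun _ : B => W) := by
  constructor
  · rw [Submodule.disjoint_def]
    intro f hf hf'
    funext b
    exact Submodule.disjoint_def.1 h.disjoint _ (hf b (Set.mem_univ b)) (hf' b (Set.mem_univ b))
  · rw [codisjoint_iff, eq_top_iff]
    intro f _
    have h1 : ∀ b, ∃ u ∈ U, ∃ w ∈ W, u + w = f b := fun b =>
      Submodule.mem_sup.1 (by rw [h.sup_eq_top]; trivial)
    choose u hu w hw huw using h1
    refine Submodule.mem_sup.2 ⟨u, fun b _ => hu b, w, fun b _ => hw b, ?_⟩
    funext b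
    exact huw b

/-- the restriction of an operator to a block -/
noncomputable def opEquiv {B : Type} {N : B → Submodule k V} {x : V →ₗ[k] V} {X : B → Option B}
    (h : IsOp N x X) (b c : B) (hc : X b = some c) : N b ≃ₗ[k] N c :=
  LinearEquiv.ofBijective
    (x.restrict (fun v hv => by
      rw [← h.map b c hc]; exact Submodule.mem_map_of_mem hv) : N b →ₗ[k] N c) <| by
    constructor
    · rw [← LinearMap.ker_eq_bot, LinearMap.ker_eq_bot']
      intro v hv
      apply Subtype.ext
      exact h.inj b c hc v v.2 (by simpa using congrArg Subtype.val hv)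
    · rintro ⟨w, hw⟩
      rw [← h.map b c hc] at hw
      obtain ⟨v, hv, rfl⟩ := hw
      exact ⟨⟨v, hv⟩, rfl⟩

theorem opEquiv_apply {B : Type} {N : B → Submodule k V} {x : V →ₗ[k] V} {X : B → Option B}
    (h : IsOp N x X) (b c : B) (hc : X b = some c) (v : N b) : (opEquiv h b c hc v : V) = x v := rfl

theorem isSome_of_tgt {B : Type} {N : B → Submodule k V} (hN : IsBlocks N) {x : V →ₗ[k] V}
    {X : B → Option B} (h : IsOp N x X) (hx : ∀ v, x (x v) = 0) {b c : B} (hc : X b = some c) :
    X c = none := by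
  by_contra hne
  obtain ⟨d, hd⟩ := Option.ne_none_iff_exists'.1 hne
  obtain ⟨v, hv, hv0⟩ := Submodule.exists_mem_ne_zero_of_ne_bot (hN.ne b)
  have h1 : x v ∈ N c := by rw [← h.map b c hc]; exact Submodule.mem_map_of_mem hv
  have h2 := h.inj c d hd (x v) h1 (hx v)
  exact hv0 (h.inj b c hc v hv h2)

theorem card_isSome {B : Type} [Fintype B] {N : B → Submodule k V} (hN : IsBlocks N)
    {x : V →ₗ[k] V} {X : B → Option B} (h : IsOp N x X) (hx : ∀ v, x (x v) = 0) :
    2 * Fintype.card {b // (X b).isSome} ≤ Fintype.card B := by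
  classical
  have h1 : Fintype.card ({b // (X b).isSome} ⊕ {b // (X b).isSome}) ≤ Fintype.card B := by
    refine Fintype.card_le_of_injective (fun e : {b // (X b).isSome} ⊕ {b // (X b).isSome} =>
      match e with
      | .inl b => b.1
      | .inr b => (X b.1).get b.2) ?_
    rintro (⟨b, hb⟩ | ⟨b, hb⟩) (⟨b', hb'⟩ | ⟨b', hb'⟩) hbb'
    · simp only at hbb'
      subst hbb'
      rfl
    · simp only at hbb'
      exfalso
      have h2 := isSome_of_tgt hN h hx (Option.some_get hb').symm
      rw [← hbb'] at h2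
      rw [h2] at hb
      exact absurd hb (by simp)
    · simp only at hbb'
      exfalso
      have h2 := isSome_of_tgt hN h hx (Option.some_get hb).symm
      rw [hbb'] at h2
      rw [h2] at hb'
      exact absurd hb' (by simp)
    · simp only at hbb'
      have h2 := h.inj' b b' ((X b').get hb') (by rw [← hbb', Option.some_get])
        (Option.some_get hb').symm
      subst h2
      rfl
  rw [Fintype.card_sum] at h1
  omega

end

/-! ### the edges -/

/-- the edges: the blocks which are not killed by `x`, and the blocks which are not killed by `y` -/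
abbrev Edge {B : Type} (X Y : B → Option B) : Type := {b // (X b).isSome} ⊕ {b // (Y b).isSome}

/-- the source of an edge -/
def esrc {B : Type} {X Y : B → Option B} : Edge X Y → B
  | .inl b => b.1
  | .inr b => b.1

/-- the target of an edge -/
def etgt {B : Type} {X Y : B → Option B} : Edge X Y → B
  | .inl b => (X b.1).get b.2
  | .inr b => (Y b.1).get b.2

/-- the isomorphism belonging to an edge -/
noncomputable def epsi {k V : Type} [Field k] [AddCommGroup V] [Module k V] {B : Type}
    {N : B → Submodule k V} {x y : V →ₗ[k] V} {X Y : B → Option B} (hX : IsOp N x X)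
    (hY : IsOp N y Y) : ∀ e : Edge X Y, N (esrc e) ≃ₗ[k] N (etgt e)
  | .inl b => opEquiv hX b.1 _ (Option.some_get b.2).symm
  | .inr b => opEquiv hY b.1 _ (Option.some_get b.2).symm

theorem shape_special {m : ℕ} {X Y : Fin m → Option (Fin m)} (sp : Set (Edge X Y))
    (hsp : sp.Subsingleton) : ∃ o : Option (Bool × Fin m),
      (∀ b (hb : (X b).isSome), o = some (false, b) ↔ Sum.inl ⟨b, hb⟩ ∈ sp) ∧
      (∀ b (hb : (Y b).isSome), o = some (true, b) ↔ Sum.inr ⟨b, hb⟩ ∈ sp) := by
  rcases hsp.eq_empty_or_singleton with rfl | ⟨e, rfl⟩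
  · exact ⟨none, by simp, by simp⟩
  · rcases e with ⟨b, hb⟩ | ⟨b, hb⟩
    · refine ⟨some (false, b), ?_, ?_⟩
      · intro b' hb'
        simp [eq_comm]
      · intro b' hb'
        simp
    · refine ⟨some (true, b), ?_, ?_⟩
      · intro b' hb'
        simp
      · intro b' hb'
        simp [eq_comm]

theorem special_T {k : Type} [Field k] {B E : Type} {N₀ : Type} [AddCommGroup N₀] [Module k N₀]
    {N : B → Type} [∀ b, AddCommGroup (N b)] [∀ b, Module k (N b)]
    (φ : ∀ b, N₀ ≃ₗ[k] N b) (src tgt : E → B) (ψ : ∀ e, N (src e) ≃ₗ[k] N (tgt e))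
    (sp : Set E) (hsp : sp.Subsingleton) :
    ∃ T : N₀ →ₗ[k] N₀, ∀ e ∈ sp, ∀ v, ψ e (φ (src e) v) = φ (tgt e) (T v) := by
  rcases hsp.eq_empty_or_singleton with rfl | ⟨e, rfl⟩
  · exact ⟨0, by simp⟩
  · refine ⟨((φ (src e)).trans ((ψ e).trans (φ (tgt e)).symm)).toLinearMap, ?_⟩
    rintro e' rfl v
    simp

/-! ### the main step -/

theorem normalForm_fin {k : Type} [Field k] [IsAlgClosed k] (M : Rep k (H k))
    (hM : Indecomposable M) {m : ℕ} (N : Fin m → Submodule k M.V)
    (deg : Fin m → ZMod 2 × ZMod 2) (X Y : Fin m → Option (Fin m)) (hN : IsBlocks N)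
    (hdeg : ∀ b, ∀ v ∈ N b, M.ρ (gen k .g) v = (sgn (deg b).1 : k) • v ∧
      M.ρ (gen k .h) v = (sgn (deg b).2 : k) • v)
    (hX : IsOp N (M.ρ (gen k .x)) X) (hY : IsOp N (M.ρ (gen k .y)) Y) : HasNormalForm M := by
  classical
  have hxx : ∀ v, M.ρ (gen k .x) (M.ρ (gen k .x) v) = 0 := fun v => by
    have h1 := congrArg M.ρ (relations k).xx
    rw [map_mul, map_zero] at h1
    exact LinearMap.congr_fun h1 v
  have hyy : ∀ v, M.ρ (gen k .y) (M.ρ (gen k .y) v) = 0 := fun v => by
    have h1 := congrArg M.ρ (relations k).yy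
    rw [map_mul, map_zero] at h1
    exact LinearMap.congr_fun h1 v
  have hcard : Fintype.card (Edge X Y) ≤ Fintype.card (Fin m) := by
    have h1 := card_isSome hN hX hxx
    have h2 := card_isSome hN hY hyy
    rw [Fintype.card_sum]
    omega
  have : Nontrivial M.V := hM.1
  have : Nonempty (Fin m) := by
    by_contra hne
    rw [not_nonempty_iff] at hne
    have h1 := hN.top
    rw [iSup_of_empty] at h1
    exact bot_ne_top h1
  -- the generators map a block to itself or to a neighbour
  have hmove : ∀ (P : Fin m → Prop), (∀ e : Edge X Y, P (esrc e) ↔ P (etgt e)) → ∀ (a : Gen) b,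
      P b → ∀ v ∈ N b, M.ρ (gen k a) v ∈ ⨆ c ∈ {c | P c}, N c := by
    intro P hP a b hb v hv
    have hself : v ∈ ⨆ c ∈ {c | P c}, N c :=
      Submodule.mem_iSup_of_mem b (Submodule.mem_iSup_of_mem hb hv)
    cases a with
    | g => rw [(hdeg b v hv).1]; exact Submodule.smul_mem _ _ hself
    | h => rw [(hdeg b v hv).2]; exact Submodule.smul_mem _ _ hself
    | x =>
      rcases hc : X b with _ | c
      · rw [hX.zero b hc v hv]; exact Submodule.zero_mem _
      · have hs : (X b).isSome := by rw [hc]; rfl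
        have h2 := (hP (Sum.inl ⟨b, hs⟩)).1 hb
        have h3 : etgt (Sum.inl ⟨b, hs⟩ : Edge X Y) = c := by
          change (X b).get hs = c
          simp [hc]
        rw [h3] at h2
        refine Submodule.mem_iSup_of_mem c (Submodule.mem_iSup_of_mem h2 ?_)
        rw [← hX.map b c hc]
        exact Submodule.mem_map_of_mem hv
    | y =>
      rcases hc : Y b with _ | c
      · rw [hY.zero b hc v hv]; exact Submodule.zero_mem _
      · have hs : (Y b).isSome := by rw [hc]; rfl
        have h2 := (hP (Sum.inr ⟨b, hs⟩)).1 hb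
        have h3 : etgt (Sum.inr ⟨b, hs⟩ : Edge X Y) = c := by
          change (Y b).get hs = c
          simp [hc]
        rw [h3] at h2
        refine Submodule.mem_iSup_of_mem c (Submodule.mem_iSup_of_mem h2 ?_)
        rw [← hY.map b c hc]
        exact Submodule.mem_map_of_mem hv
  have hmove' : ∀ (P : Fin m → Prop), (∀ e : Edge X Y, P (esrc e) ↔ P (etgt e)) → ∀ (a : Gen),
      ∀ v ∈ ⨆ c ∈ {c | P c}, N c, M.ρ (gen k a) v ∈ ⨆ c ∈ {c | P c}, N c := by
    intro P hP a v hv
    have h1 : (⨆ c ∈ {c | P c}, N c) ≤ (⨆ c ∈ {c | P c}, N c).comap (M.ρ (gen k a)) :=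
      iSup₂_le fun b hb w hw => hmove P hP a b hb w hw
    exact h1 hv
  have hconn : ∀ A : Set (Fin m), A.Nonempty →
      (∀ e : Edge X Y, esrc e ∈ A ↔ etgt e ∈ A) → A = Set.univ := by
    intro A hA hAe
    have hcompl : IsCompl (⨆ c ∈ A, N c) (⨆ c ∈ Aᶜ, N c) := by
      constructor
      · exact hN.indep.disjoint_biSup_biSup disjoint_compl_right
      · rw [codisjoint_iff, ← iSup_union, Set.union_compl_self]
        simpa using hN.top
    have h1 := split M hM _ _ hcompl (fun a v hv => hmove' (· ∈ A) hAe a v hv)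
      (fun a v hv => hmove' (· ∈ Aᶜ) (fun e => not_congr (hAe e)) a v hv)
    rcases h1 with h1 | h1
    · exfalso
      obtain ⟨b, hb⟩ := hA
      exact hN.ne b (le_bot_iff.1 (h1 ▸ le_iSup₂ (f := fun c (_ : c ∈ A) => N c) b hb))
    · by_contra hne
      obtain ⟨b, hb⟩ := (Set.ne_univ_iff_exists_notMem A).1 hne
      exact hN.ne b (le_bot_iff.1 (h1 ▸ le_iSup₂ (f := fun c (_ : c ∈ Aᶜ) => N c) b hb))
  obtain ⟨b₀, φ, sp, hsp, hφ⟩ := gauge (k := k) (fun b => N b) esrc etgt (epsi hX hY) hcard hconn
  obtain ⟨T, hT⟩ := special_T (k := k) φ esrc etgt (epsi hX hY) sp hsp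
  obtain ⟨o, ho1, ho2⟩ := shape_special sp hsp
  set Φ := blocksEquiv hN φ with hΦ
  -- action of x and y on the blocks
  have hxact : ∀ b c, X b = some c → ∀ u, M.ρ (gen k .x) (φ b u : M.V) =
      (φ c (if o = some (false, b) then T u else u) : M.V) := by
    intro b c hc u
    have hs : (X b).isSome := by rw [hc]; rfl
    have h3 : etgt (Sum.inl ⟨b, hs⟩ : Edge X Y) = c := by
      change (X b).get hs = c
      simp [hc]
    subst h3
    have h4 : M.ρ (gen k .x) (φ b u : M.V) = ((epsi hX hY (Sum.inl ⟨b, hs⟩)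
      (φ (esrc (Sum.inl ⟨b, hs⟩ : Edge X Y)) u) : N _) : M.V) := rfl
    rw [h4]
    by_cases hsp' : (Sum.inl ⟨b, hs⟩ : Edge X Y) ∈ sp
    · rw [if_pos ((ho1 b hs).2 hsp')]
      exact congrArg Subtype.val (hT _ hsp' u)
    · rw [if_neg (fun h => hsp' ((ho1 b hs).1 h))]
      exact congrArg Subtype.val (hφ _ hsp' u)
  have hyact : ∀ b c, Y b = some c → ∀ u, M.ρ (gen k .y) (φ b u : M.V) =
      (φ c (if o = some (true, b) then T u else u) : M.V) := by
    intro b c hc u
    have hs : (Y b).isSome := by rw [hc]; rfl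
    have h3 : etgt (Sum.inr ⟨b, hs⟩ : Edge X Y) = c := by
      change (Y b).get hs = c
      simp [hc]
    subst h3
    have h4 : M.ρ (gen k .y) (φ b u : M.V) = ((epsi hX hY (Sum.inr ⟨b, hs⟩)
      (φ (esrc (Sum.inr ⟨b, hs⟩ : Edge X Y)) u) : N _) : M.V) := rfl
    rw [h4]
    by_cases hsp' : (Sum.inr ⟨b, hs⟩ : Edge X Y) ∈ sp
    · rw [if_pos ((ho2 b hs).2 hsp')]
      exact congrArg Subtype.val (hT _ hsp' u)
    · rw [if_neg (fun h => hsp' ((ho2 b hs).1 h))]
      exact congrArg Subtype.val (hφ _ hsp' u)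
  -- the operator T is indecomposable
  have hTind : ∀ U W : Submodule k (N b₀), IsCompl U W → (∀ v ∈ U, T v ∈ U) →
      (∀ v ∈ W, T v ∈ W) → U = ⊥ ∨ W = ⊥ := by
    intro U W hUW hU hW
    have hinv : ∀ U : Submodule k (N b₀), (∀ v ∈ U, T v ∈ U) → ∀ (a : Gen),
        ∀ v ∈ (Submodule.pi Set.univ fun _ : Fin m => U).map (Φ : (Fin m → N b₀) →ₗ[k] M.V),
        M.ρ (gen k a) v ∈ (Submodule.pi Set.univ fun _ : Fin m => U).map
          (Φ : (Fin m → N b₀) →ₗ[k] M.V) := by
      intro U hU a v hv
      have hmem : ∀ b, ∀ u ∈ U, (φ b u : M.V) ∈ (Submodule.pi Set.univ fun _ : Fin m => U).map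
          (Φ : (Fin m → N b₀) →ₗ[k] M.V) := by
        intro b u hu
        refine ⟨Pi.single b u, fun c _ => ?_, blocksEquiv_single hN φ b u⟩
        by_cases hcb : c = b
        · subst hcb; simpa using hu
        · simp [hcb]
      obtain ⟨f, hf, rfl⟩ := hv
      have hsum : (Φ : (Fin m → N b₀) →ₗ[k] M.V) f = ∑ b, (φ b (f b) : M.V) := by
        conv_lhs => rw [← Finset.univ_sum_single f]
        rw [map_sum]
        exact Finset.sum_congr rfl fun b _ => blocksEquiv_single hN φ b (f b)
      rw [hsum, map_sum]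
      refine Submodule.sum_mem _ fun b _ => ?_
      have hfb : f b ∈ U := hf b (Set.mem_univ b)
      cases a with
      | g => rw [(hdeg b _ (φ b (f b)).2).1]; exact Submodule.smul_mem _ _ (hmem b _ hfb)
      | h => rw [(hdeg b _ (φ b (f b)).2).2]; exact Submodule.smul_mem _ _ (hmem b _ hfb)
      | x =>
        rcases hc : X b with _ | c
        · rw [hX.zero b hc _ (φ b (f b)).2]; exact Submodule.zero_mem _
        · rw [hxact b c hc]
          refine hmem c _ ?_
          split_ifs
          · exact hU _ hfb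
          · exact hfb
      | y =>
        rcases hc : Y b with _ | c
        · rw [hY.zero b hc _ (φ b (f b)).2]; exact Submodule.zero_mem _
        · rw [hyact b c hc]
          refine hmem c _ ?_
          split_ifs
          · exact hU _ hfb
          · exact hfb
    have hcompl : IsCompl ((Submodule.pi Set.univ fun _ : Fin m => U).map
          (Φ : (Fin m → N b₀) →ₗ[k] M.V)) ((Submodule.pi Set.univ fun _ : Fin m => W).map
          (Φ : (Fin m → N b₀) →ₗ[k] M.V)) :=
      (Submodule.orderIsoMapComap Φ).isCompl (isCompl_pi hUW)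
    have hbot : ∀ U : Submodule k (N b₀), (Submodule.pi Set.univ fun _ : Fin m => U).map
          (Φ : (Fin m → N b₀) →ₗ[k] M.V) = ⊥ → U = ⊥ := by
      intro U hU
      rw [eq_bot_iff]
      intro u hu
      have h1 : Φ (Pi.single b₀ u) ∈ (Submodule.pi Set.univ fun _ : Fin m => U).map
          (Φ : (Fin m → N b₀) →ₗ[k] M.V) := by
        refine ⟨Pi.single b₀ u, fun c _ => ?_, rfl⟩
        by_cases hcb : c = b₀
        · subst hcb; simpa using hu
        · simp [hcb]
      rw [hU] at h1
      have h2 : (Pi.single b₀ u : Fin m → N b₀) = 0 := by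
        rw [← Φ.map_eq_zero_iff]
        exact h1
      simpa using congrFun h2 b₀
    rcases split M hM _ _ hcompl (hinv U hU) (hinv W hW) with h | h
    · exact Or.inl (hbot U h)
    · exact Or.inr (hbot W h)
  obtain ⟨n, c, eJ, heJ⟩ := jordan_basis T hTind
  -- the coordinates
  let E : M.V ≃ₗ[k] (Fin m × Fin n → k) :=
    Φ.symm.trans ((LinearEquiv.piCongrRight fun _ => eJ).trans
      (LinearEquiv.curry k k (Fin m) (Fin n)).symm)
  have hE : ∀ b u, E (φ b u : M.V) = blk b (eJ u) := by
    intro b u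
    have h1 : Φ.symm (φ b u : M.V) = Pi.single b u := by
      rw [LinearEquiv.symm_apply_eq]
      exact (blocksEquiv_single hN φ b u).symm
    funext p
    change (LinearEquiv.piCongrRight (fun _ : Fin m => eJ) (Φ.symm (φ b u : M.V))) p.1 p.2 = _
    rw [h1, LinearEquiv.piCongrRight_apply]
    unfold blk
    by_cases hp : p.1 = b
    · rw [if_pos hp, hp, Pi.single_eq_same]
    · rw [if_neg hp, Pi.single_eq_of_ne hp, map_zero]
      rfl
  refine ⟨m, n, ⟨deg, X, Y, o⟩, c, E, ?_⟩
  intro a v
  obtain ⟨f, rfl⟩ := Φ.surjective v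
  have hsum : Φ f = ∑ b, (φ b (f b) : M.V) := by
    conv_lhs => rw [← Finset.univ_sum_single f]
    rw [map_sum]
    exact Finset.sum_congr rfl fun b _ => blocksEquiv_single hN φ b (f b)
  rw [hsum, map_sum, map_sum, map_sum, Matrix.mulVec_sum]
  refine Finset.sum_congr rfl fun b _ => ?_
  rw [hE]
  cases a with
  | g =>
    rw [(hdeg b _ (φ b (f b)).2).1, map_smul, hE]
    exact (diagonal_mulVec_blk (fun b => (sgn (deg b).1 : k)) b _).symm
  | h =>
    rw [(hdeg b _ (φ b (f b)).2).2, map_smul, hE]
    exact (diagonal_mulVec_blk (fun b => (sgn (deg b).2 : k)) b _).symm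
  | x =>
    change _ = (opMat n X (fun b => o = some (false, b)) c).mulVec (blk b (eJ (f b)))
    rcases hc : X b with _ | d
    · rw [hX.zero b hc _ (φ b (f b)).2, map_zero, opMat_mulVec_none _ _ _ _ _ _ hc]
    · rw [hxact b d hc, hE, opMat_mulVec _ _ _ _ _ _ d hc]
      split_ifs
      · rw [heJ]
      · rfl
  | y =>
    change _ = (opMat n Y (fun b => o = some (true, b)) c).mulVec (blk b (eJ (f b)))
    rcases hc : Y b with _ | d
    · rw [hY.zero b hc _ (φ b (f b)).2, map_zero, opMat_mulVec_none _ _ _ _ _ _ hc]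
    · rw [hyact b d hc, hE, opMat_mulVec _ _ _ _ _ _ d hc]
      split_ifs
      · rw [heJ]
      · rfl

theorem isOp_reindex {k V : Type} [Field k] [AddCommGroup V] [Module k V] {B C : Type}
    {N : B → Submodule k V} {x : V →ₗ[k] V} {X : B → Option B} (h : IsOp N x X) (e : C ≃ B) :
    IsOp (fun c => N (e c)) x (fun c => (X (e c)).map e.symm) where
  zero c hc v hv := h.zero (e c) (by simpa using hc) v hv
  map c d hcd := by
    obtain ⟨b, hb, hbd⟩ := Option.map_eq_some_iff.1 hcd
    subst hbd
    simpa using h.map (e c) b hb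
  inj c d hcd v hv hv0 := by
    obtain ⟨b, hb, _⟩ := Option.map_eq_some_iff.1 hcd
    exact h.inj (e c) b hb v hv hv0
  inj' c c' d hcd hcd' := by
    obtain ⟨b, hb, hbd⟩ := Option.map_eq_some_iff.1 hcd
    obtain ⟨b', hb', hbd'⟩ := Option.map_eq_some_iff.1 hcd'
    have h1 : b = b' := e.symm.injective (hbd.trans hbd'.symm)
    subst h1
    exact e.injective (h.inj' _ _ _ hb hb')

theorem normalForm_of_blocks {k : Type} [Field k] [IsAlgClosed k] (M : Rep k (H k))
    (hM : Indecomposable M) {B : Type} [Fintype B] (N : B → Submodule k M.V)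
    (deg : B → ZMod 2 × ZMod 2) (X Y : B → Option B) (hN : IsBlocks N)
    (hdeg : ∀ b, ∀ v ∈ N b, M.ρ (gen k .g) v = (sgn (deg b).1 : k) • v ∧
      M.ρ (gen k .h) v = (sgn (deg b).2 : k) • v)
    (hX : IsOp N (M.ρ (gen k .x)) X) (hY : IsOp N (M.ρ (gen k .y)) Y) : HasNormalForm M := by
  classical
  let e : Fin (Fintype.card B) ≃ B := (Fintype.equivFin B).symm
  exact normalForm_fin M hM (fun c => N (e c)) (fun c => deg (e c)) _ _
    ⟨hN.indep.comp e.injective, by rw [e.iSup_comp (g := N)]; exact hN.top, fun b => hN.ne _⟩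
    (fun b v hv => hdeg (e b) v hv) (isOp_reindex hX e) (isOp_reindex hY e)

end Pool.Agent.K6.H47.TS
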