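import Pool.Agent.K6.H47.TS.Bunch6

/-!
# Block decompositions of graded spaces with two square-zero homogeneous operators (piece BLOCKS)
-/

set_option autoImplicit false

namespace Pool.Agent.K6.H47.TS

variable {k V W : Type} [Field k] [AddCommGroup V] [Module k V] [AddCommGroup W] [Module k W]

theorem IsDec.inj_map {Q : Set (Submodule k V)} {U F0 F1 : Submodule k V} {p : V →ₗ[k] W}
    (h : IsDec Q U) (h0 : Comp Q F0) (hp : ∀ v ∈ F1, p v = 0 ↔ v ∈ F0) {S S' : Submodule k V}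
    (hS : S ∈ Q) (hS' : S' ∈ Q) (hS1 : S ≤ F1) (hS1' : S' ≤ F1) (hS0 : ¬ S ≤ F0)
    (he : S.map p = S'.map p) : S = S' := by
  by_contra hne
  apply h.ne
  have h1 := h.ind S hS
  rw [sup_bot_eq] at h1
  have h2 : S ≤ sSup (Q \ {S}) := by
    intro v hv
    have h3 : p v ∈ S'.map p := by rw [← he]; exact ⟨v, hv, rfl⟩
    obtain ⟨v', hv', hvv⟩ := h3
    have h4 : v - v' ∈ F0 := by
      rw [← hp _ (Submodule.sub_mem _ (hS1 hv) (hS1' hv')), map_sub, hvv, sub_self]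
    have h5 : F0 ≤ sSup (Q \ {S}) := by
      rw [← h0]
      refine sSup_le_sSup ?_
      rintro T ⟨hT, hT0⟩
      refine ⟨hT, ?_⟩
      rintro rfl
      exact hS0 hT0
    have h6 : S' ≤ sSup (Q \ {S}) := le_sSup ⟨hS', fun h => hne (Set.mem_singleton_iff.1 h).symm⟩
    have h7 : v = (v - v') + v' := by abel
    rw [h7]
    exact Submodule.add_mem _ (h5 h4) (h6 hv')
  have h3 : S = ⊥ := disjoint_self.1 (h1.mono_right h2)
  exact h3 ▸ hS

section app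

variable {Γ : Type} (𝒜 : Γ → Submodule k V)

/-- the flag of an operator -/
def opFlag (x : V →ₗ[k] V) (γ : Γ) : ℕ → Submodule k V
  | 0 => ⊥
  | 1 => 𝒜 γ ⊓ LinearMap.range x
  | 2 => 𝒜 γ ⊓ LinearMap.ker x
  | _ => 𝒜 γ

theorem opFlag_mono (x : V →ₗ[k] V) (xx : ∀ v, x (x v) = 0) (γ : Γ) :
    Monotone (opFlag 𝒜 x γ) := by
  refine monotone_nat_of_le_succ fun n => ?_
  match n with
  | 0 => exact bot_le
  | 1 =>
    refine inf_le_inf_left _ ?_
    rintro _ ⟨v, rfl⟩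
    exact xx v
  | 2 => exact inf_le_left
  | n + 3 => exact le_rfl

theorem opFlag_le (x : V →ₗ[k] V) (γ : Γ) (n : ℕ) : opFlag 𝒜 x γ n ≤ 𝒜 γ := by
  match n with
  | 0 => exact bot_le
  | 1 => exact inf_le_left
  | 2 => exact inf_le_left
  | n + 3 => exact le_rfl

theorem homogeneous (ind : iSupIndep 𝒜) (top : ⨆ γ, 𝒜 γ = ⊤) (d : Γ ≃ Γ) (x : V →ₗ[k] V)
    (hx : ∀ γ, ∀ v ∈ 𝒜 γ, x v ∈ 𝒜 (d γ)) (γ : Γ) :
    (𝒜 γ).map x = 𝒜 (d γ) ⊓ LinearMap.range x := by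
  apply le_antisymm
  · rintro _ ⟨v, hv, rfl⟩
    exact ⟨hx γ v hv, ⟨v, rfl⟩⟩
  · rintro _ ⟨hw, ⟨v, rfl⟩⟩
    have h1 : v ∈ 𝒜 γ ⊔ ⨆ γ' ≠ γ, 𝒜 γ' := by
      have h2 : (⊤ : Submodule k V) ≤ 𝒜 γ ⊔ ⨆ γ' ≠ γ, 𝒜 γ' := by
        rw [← top]
        refine iSup_le fun γ' => ?_
        by_cases h : γ' = γ
        · subst h
          exact le_sup_left
        · exact (le_iSup₂ (f := fun γ' (_ : γ' ≠ γ) => 𝒜 γ') γ' h).trans le_sup_right
      exact h2 trivial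
    obtain ⟨a, ha, b, hb, rfl⟩ := Submodule.mem_sup.1 h1
    have h3 : x b ∈ ⨆ δ ≠ d γ, 𝒜 δ := by
      have h4 : (⨆ γ' ≠ γ, 𝒜 γ') ≤ (⨆ δ ≠ d γ, 𝒜 δ).comap x := by
        refine iSup₂_le fun γ' h => ?_
        intro v hv
        have h5 : 𝒜 (d γ') ≤ ⨆ δ ≠ d γ, 𝒜 δ :=
          le_iSup₂ (f := fun δ (_ : δ ≠ d γ) => 𝒜 δ) (d γ') (fun h' => h (d.injective h'))
        exact h5 (hx γ' v hv)
      exact h4 hb
    have h6 : x b ∈ 𝒜 (d γ) := by
      have h7 : x b = x (a + b) - x a := by rw [map_add]; abel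
      rw [h7]
      exact Submodule.sub_mem _ hw (hx γ a ha)
    have h8 : x b = 0 := (Submodule.disjoint_def.1 (ind (d γ))) _ h6 h3
    rw [map_add, h8, add_zero]
    exact ⟨a, ha, rfl⟩

/-- the system of flags of a graded space with two operators -/
def opData (ind : iSupIndep 𝒜) (top : ⨆ γ, 𝒜 γ = ⊤) (d : Bool → Γ ≃ Γ) (x : Bool → V →ₗ[k] V)
    (xx : ∀ s v, x s (x s v) = 0) (hx : ∀ s γ, ∀ v ∈ 𝒜 γ, x s v ∈ 𝒜 (d s γ)) :
    Data k V V Γ (Bool × Γ) where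
  U := 𝒜
  fl γ s n := opFlag 𝒜 (x s) γ n
  mono γ s := opFlag_mono 𝒜 (x s) (xx s) γ
  bot _ _ := rfl
  le γ s n := opFlag_le 𝒜 (x s) γ n
  top := ⟨3, fun _ _ => rfl⟩
  eK a := match a.2 with
    | false => a.1.2
    | true => d a.1.1 a.1.2
  eS a := a.1.1
  eI a := match a.2 with
    | false => 2
    | true => 0
  inj := by
    rintro ⟨⟨s, γ⟩, t⟩ ⟨⟨s', γ'⟩, t'⟩ h1 h2 h3
    simp only at h2
    subst h2
    cases t <;> cases t'
    · simp only at h1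
      rw [h1]
    · simp at h3
    · simp at h3
    · simp only at h1
      rw [(d s).injective h1]
  p a := match a.2 with
    | false => x a.1.1
    | true => LinearMap.id
  range := by
    rintro ⟨s, γ⟩
    show (𝒜 γ).map (x s) = (𝒜 (d s γ) ⊓ LinearMap.range (x s)).map LinearMap.id
    rw [Submodule.map_id]
    exact homogeneous 𝒜 ind top (d s) (x s) (hx s) γ
  ker := by
    rintro ⟨⟨s, γ⟩, t⟩ v hv
    cases t
    · exact ⟨fun h => ⟨hv, h⟩, fun h => h.2⟩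
    · exact (Submodule.mem_bot k).symm

end app

theorem blocks {k V Γ : Type} [Field k] [AddCommGroup V] [Module k V] [Module.Finite k V]
    [Fintype Γ] (𝒜 : Γ → Submodule k V) (ind : iSupIndep 𝒜) (top : ⨆ γ, 𝒜 γ = ⊤)
    (dx dy : Γ ≃ Γ) (x y : V →ₗ[k] V) (xx : ∀ v, x (x v) = 0) (yy : ∀ v, y (y v) = 0)
    (hx : ∀ γ, ∀ v ∈ 𝒜 γ, x v ∈ 𝒜 (dx γ)) (hy : ∀ γ, ∀ v ∈ 𝒜 γ, y v ∈ 𝒜 (dy γ)) :
    ∃ (B : Type) (_ : Fintype B) (N : B → Submodule k V) (deg : B → Γ) (X Y : B → Option B),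
      IsBlocks N ∧ (∀ b, N b ≤ 𝒜 (deg b)) ∧ IsOp N x X ∧ IsOp N y Y := by
  classical
  let d : Bool → Γ ≃ Γ := fun s => bif s then dy else dx
  let z : Bool → V →ₗ[k] V := fun s => bif s then y else x
  have zz : ∀ s v, z s (z s v) = 0 := by
    intro s v
    cases s
    · exact xx v
    · exact yy v
  have hz : ∀ s γ, ∀ v ∈ 𝒜 γ, z s v ∈ 𝒜 (d s γ) := by
    intro s
    cases s
    · exact hx
    · exact hy
  let D := opData 𝒜 ind top d z zz hz
  obtain ⟨𝒮, h𝒮⟩ := exists_adapted D (fun _ => inferInstance)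
  have hdec : ∀ γ, IsDec (𝒮 γ) (𝒜 γ) := h𝒮.dec
  let N : (Σ γ, 𝒮 γ) → Submodule k V := fun b => b.2.1
  have hNle : ∀ b, N b ≤ 𝒜 b.1 := fun b => by
    rw [← (hdec b.1).sup]
    exact le_sSup b.2.2
  have hN : IsBlocks N := by
    refine ⟨?_, ?_, ?_⟩
    · rintro ⟨γ, S, hS⟩
      have h1 : (⨆ (b' : Σ γ, 𝒮 γ) (_ : b' ≠ Sigma.mk γ (Subtype.mk S hS)), N b') ≤
          sSup (𝒮 γ \ {S}) ⊔ ⨆ γ' ≠ γ, 𝒜 γ' := by
        refine iSup₂_le ?_
        rintro ⟨γ', S', hS'⟩ hne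
        by_cases h : γ' = γ
        · subst h
          refine le_trans (b := sSup (_ \ {S})) (le_sSup (Set.mem_sdiff_of_mem hS' ?_)) le_sup_left
          intro h'
          apply hne
          have h'' : S' = S := h'
          subst h''
          rfl
        · exact (hNle ⟨γ', S', hS'⟩).trans
            ((le_iSup₂ (f := fun γ' (_ : γ' ≠ γ) => 𝒜 γ') γ' h).trans le_sup_right)
      refine Disjoint.mono_right h1 ?_
      rw [Submodule.disjoint_def]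
      intro v hv hv2
      obtain ⟨a, ha, c, hc, rfl⟩ := Submodule.mem_sup.1 hv2
      have h2 : sSup (𝒮 γ \ {S}) ≤ 𝒜 γ := by
        rw [← (hdec γ).sup]
        exact sSup_le_sSup Set.sdiff_subset
      have h3 : c ∈ 𝒜 γ := by
        have h4 : c = (a + c) - a := by abel
        rw [h4]
        exact Submodule.sub_mem _ (hNle ⟨γ, S, hS⟩ hv) (h2 ha)
      have h5 : c = 0 := (Submodule.disjoint_def.1 (ind γ)) _ h3 hc
      subst h5
      rw [add_zero] at hv ⊢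
      have h6 := (hdec γ).ind S hS
      rw [sup_bot_eq] at h6
      exact (Submodule.disjoint_def.1 h6) _ hv ha
    · rw [eq_top_iff, ← top]
      refine iSup_le fun γ => ?_
      rw [← (hdec γ).sup]
      refine sSup_le fun S hS => ?_
      exact le_iSup N ⟨γ, S, hS⟩
    · rintro ⟨γ, S, hS⟩ h
      exact (hdec γ).ne (h ▸ hS)
  have hop : ∀ s, ∃ X : (Σ γ, 𝒮 γ) → Option (Σ γ, 𝒮 γ), IsOp N (z s) X := by
    intro s
    have hker : ∀ γ, ∀ v ∈ 𝒜 γ, z s v = 0 ↔ v ∈ 𝒜 γ ⊓ LinearMap.ker (z s) := fun γ v hv =>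
      ⟨fun h => ⟨hv, h⟩, fun h => h.2⟩
    have hcomp : ∀ γ, Comp (𝒮 γ) (𝒜 γ ⊓ LinearMap.ker (z s)) := fun γ => h𝒮.comp γ s 2
    have hm : ∀ b : Σ γ, 𝒮 γ, ¬ N b ≤ 𝒜 b.1 ⊓ LinearMap.ker (z s) →
        (N b).map (z s) ∈ 𝒮 (d s b.1) := by
      rintro ⟨γ, S, hS⟩ hb
      have h1 : induced (𝒮 γ) (𝒜 γ ⊓ LinearMap.ker (z s)) (𝒜 γ) (z s) =
          induced (𝒮 (d s γ)) ⊥ (𝒜 (d s γ) ⊓ LinearMap.range (z s)) LinearMap.id :=
        h𝒮.link (s, γ)
      have h2 : S.map (z s) ∈ induced (𝒮 γ) (𝒜 γ ⊓ LinearMap.ker (z s)) (𝒜 γ) (z s) :=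
        ⟨S, hS, hNle ⟨γ, S, hS⟩, hb, rfl⟩
      rw [h1] at h2
      obtain ⟨S', hS', _, _, h3⟩ := h2
      rw [Submodule.map_id] at h3
      show S.map (z s) ∈ 𝒮 (d s γ)
      rw [← h3]
      exact hS'
    refine ⟨fun b => if h : N b ≤ 𝒜 b.1 ⊓ LinearMap.ker (z s) then none else
      some ⟨d s b.1, (N b).map (z s), hm b h⟩, ?_, ?_, ?_, ?_⟩
    · intro b hb v hv
      by_cases h : N b ≤ 𝒜 b.1 ⊓ LinearMap.ker (z s)
      · exact (h hv).2
      · simp only [dif_neg h] at hb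
        exact absurd hb (by simp)
    · intro b c hb
      by_cases h : N b ≤ 𝒜 b.1 ⊓ LinearMap.ker (z s)
      · simp only [dif_pos h] at hb
        exact absurd hb (by simp)
      · simp only [dif_neg h, Option.some.injEq] at hb
        rw [← hb]
    · intro b c hb v hv hv0
      by_cases h : N b ≤ 𝒜 b.1 ⊓ LinearMap.ker (z s)
      · simp only [dif_pos h] at hb
        exact absurd hb (by simp)
      · exact (Submodule.disjoint_def.1 ((hdec b.1).disjoint (hcomp b.1) b.2.2 h)) v hv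
          ⟨hNle b hv, hv0⟩
    · intro b b' c hb hb'
      by_cases h : N b ≤ 𝒜 b.1 ⊓ LinearMap.ker (z s)
      · simp only [dif_pos h] at hb
        exact absurd hb (by simp)
      by_cases h' : N b' ≤ 𝒜 b'.1 ⊓ LinearMap.ker (z s)
      · simp only [dif_pos h'] at hb'
        exact absurd hb' (by simp)
      simp only [dif_neg h, Option.some.injEq] at hb
      simp only [dif_neg h', Option.some.injEq] at hb'
      have h1 : d s b.1 = d s b'.1 :=
        (congrArg Sigma.fst hb).trans (congrArg Sigma.fst hb').symm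
      have h2 : (N b).map (z s) = (N b').map (z s) := by
        have e1 := congrArg (fun c => N c) hb
        have e2 := congrArg (fun c => N c) hb'
        exact e1.trans e2.symm
      have h3 : b.1 = b'.1 := (d s).injective h1
      obtain ⟨γ, S, hS⟩ := b
      obtain ⟨γ', S', hS'⟩ := b'
      simp only at h3
      subst h3
      have h4 : S = S' := (hdec γ).inj_map (hcomp γ) (hker γ) hS hS' (hNle ⟨γ, S, hS⟩)
        (hNle ⟨γ, S', hS'⟩) h h2
      subst h4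
      rfl
  obtain ⟨X, hX⟩ := hop false
  obtain ⟨Y, hY⟩ := hop true
  have hfin : Finite (Σ γ, 𝒮 γ) := WellFoundedGT.finite_of_iSupIndep hN.indep hN.ne
  exact ⟨_, Fintype.ofFinite _, N, fun b => b.1, X, Y, hN, hNle, hX, hY⟩

end Pool.Agent.K6.H47.TS
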