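import Pool.Agent.K6.H47.TS.Defs2

/-!
# Decompositions adapted to two flags: lattice of subspaces
-/

set_option autoImplicit false

namespace Pool.Agent.K6.H47.TS

variable {k V W : Type} [Field k] [AddCommGroup V] [Module k V] [AddCommGroup W] [Module k W]

/-- the members of `Q` are independent modulo `R` -/
def IndepMod (Q : Set (Submodule k V)) (R : Submodule k V) : Prop :=
  ∀ S ∈ Q, Disjoint S (sSup (Q \ {S}) ⊔ R)

theorem IndepMod.mono {Q Q' : Set (Submodule k V)} {R R' : Submodule k V} (h : IndepMod Q' R')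
    (hQ : Q ⊆ Q') (hR : R ≤ R') : IndepMod Q R := fun S hS =>
  (h S (hQ hS)).mono_right (sup_le_sup (sSup_le_sSup (Set.sdiff_subset_sdiff_left hQ)) hR)

theorem IndepMod.disjoint {Q : Set (Submodule k V)} {R : Submodule k V} (h : IndepMod Q R) :
    Disjoint (sSup Q) R := by
  classical
  have key : ∀ s : Finset (Submodule k V), (s : Set (Submodule k V)) ⊆ Q →
      Disjoint (s.sup id) R := by
    intro s
    induction s using Finset.induction_on with
    | empty => intro _; simp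
    | insert S s hS ih =>
      intro hs
      rw [Finset.coe_insert, Set.insert_subset_iff] at hs
      have ih' := ih hs.2
      rw [Finset.sup_insert, id, Submodule.disjoint_def]
      intro v hv hR
      obtain ⟨a, ha, b, hb, rfl⟩ := Submodule.mem_sup.1 hv
      have h1 : s.sup id ≤ sSup (Q \ {S}) := by
        refine Finset.sup_le fun T hT => le_sSup ⟨hs.2 hT, ?_⟩
        rintro rfl
        exact hS hT
      have ha0 : a = 0 := by
        refine (Submodule.disjoint_def.1 (h S hs.1)) a ha ?_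
        have : a = -b + (a + b) := by abel
        rw [this]
        exact Submodule.add_mem_sup (Submodule.neg_mem _ (h1 hb)) hR
      subst ha0
      rw [zero_add] at hR ⊢
      exact (Submodule.disjoint_def.1 ih') b hb hR
  rw [Submodule.disjoint_def]
  intro v hv hR
  obtain ⟨s, hs, hv⟩ := Submodule.mem_sSup_iff_exists_finset.1 hv
  refine (Submodule.disjoint_def.1 (key s hs)) v ?_ hR
  rwa [Finset.sup_id_eq_sSup, sSup_eq_iSup]

/-- the members of several sets of subspaces -/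
def upTo (Q : ℕ → Set (Submodule k V)) (N : ℕ) : Set (Submodule k V) := {S | ∃ n < N, S ∈ Q n}

theorem upTo_zero (Q : ℕ → Set (Submodule k V)) : upTo Q 0 = ∅ := by
  ext S; simp [upTo]

theorem upTo_succ (Q : ℕ → Set (Submodule k V)) (N : ℕ) : upTo Q (N + 1) = Q N ∪ upTo Q N := by
  ext S
  simp only [upTo, Set.mem_setOf_eq, Set.mem_union]
  constructor
  · rintro ⟨n, hn, hS⟩
    rcases Nat.lt_succ_iff_lt_or_eq.1 hn with h | rfl
    · exact Or.inr ⟨n, h, hS⟩
    · exact Or.inl hS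
  · rintro (h | ⟨n, hn, hS⟩)
    · exact ⟨N, Nat.lt_succ_self N, h⟩
    · exact ⟨n, Nat.lt_succ_of_lt hn, hS⟩

theorem chain (Q : ℕ → Set (Submodule k V)) (R : ℕ → Submodule k V)
    (hR : ∀ n, sSup (Q n) ⊔ R n = R (n + 1)) (hQ : ∀ n, IndepMod (Q n) (R n)) :
    ∀ N, IndepMod (upTo Q N) (R 0) ∧ sSup (upTo Q N) ⊔ R 0 = R N := by
  intro N
  induction N with
  | zero =>
    rw [upTo_zero]
    refine ⟨fun S hS => absurd hS (Set.notMem_empty S), by simp⟩
  | succ N ih =>
    obtain ⟨ih1, ih2⟩ := ih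
    rw [upTo_succ]
    refine ⟨?_, by rw [sSup_union, sup_assoc, ih2, hR]⟩
    intro S hS
    by_cases hSN : S ∈ Q N
    · refine (hQ N S hSN).mono_right ?_
      have h1 : (Q N ∪ upTo Q N) \ {S} ⊆ (Q N \ {S}) ∪ upTo Q N := by
        rintro T ⟨hT | hT, hne⟩
        · exact Or.inl ⟨hT, hne⟩
        · exact Or.inr hT
      calc sSup ((Q N ∪ upTo Q N) \ {S}) ⊔ R 0 ≤ sSup ((Q N \ {S}) ∪ upTo Q N) ⊔ R 0 :=
            sup_le_sup_right (sSup_le_sSup h1) _
        _ = sSup (Q N \ {S}) ⊔ R N := by rw [sSup_union, sup_assoc, ih2]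
    · have hSu : S ∈ upTo Q N := hS.resolve_left hSN
      have hd := (hQ N).disjoint
      have hSle : S ≤ R N := by rw [← ih2]; exact (le_sSup hSu).trans le_sup_left
      have hOle : sSup (upTo Q N \ {S}) ⊔ R 0 ≤ R N := by
        rw [← ih2]; exact sup_le_sup_right (sSup_le_sSup Set.sdiff_subset) _
      have h1 : (Q N ∪ upTo Q N) \ {S} ⊆ Q N ∪ (upTo Q N \ {S}) := by
        rintro T ⟨hT | hT, hne⟩
        · exact Or.inl hT
        · exact Or.inr ⟨hT, hne⟩
      have h2 : sSup ((Q N ∪ upTo Q N) \ {S}) ⊔ R 0 ≤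
          sSup (Q N) ⊔ (sSup (upTo Q N \ {S}) ⊔ R 0) := by
        rw [← sup_assoc, ← sSup_union]
        exact sup_le_sup_right (sSup_le_sSup h1) _
      refine Disjoint.mono_right h2 ?_
      rw [Submodule.disjoint_def]
      intro v hv hv2
      obtain ⟨a, ha, b, hb, rfl⟩ := Submodule.mem_sup.1 hv2
      have ha0 : a = 0 := by
        refine (Submodule.disjoint_def.1 hd) a ha ?_
        have : a = (a + b) - b := by abel
        rw [this]
        exact Submodule.sub_mem _ (hSle hv) (hOle hb)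
      subst ha0
      rw [zero_add] at hv ⊢
      exact (Submodule.disjoint_def.1 (ih1 S hSu)) b hv hb

/-- `Q` is a decomposition of the subspace `U` into nonzero subspaces -/
structure IsDec (Q : Set (Submodule k V)) (U : Submodule k V) : Prop where
  ind : IndepMod Q ⊥
  sup : sSup Q = U
  ne : ⊥ ∉ Q

/-- `F` is a sum of members of `Q` -/
def Comp (Q : Set (Submodule k V)) (F : Submodule k V) : Prop := sSup {S ∈ Q | S ≤ F} = F

theorem IsDec.disjoint {Q : Set (Submodule k V)} {U F : Submodule k V} (h : IsDec Q U)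
    (hF : Comp Q F) {S : Submodule k V} (hS : S ∈ Q) (hSF : ¬ S ≤ F) : Disjoint S F := by
  have h1 := h.ind S hS
  rw [sup_bot_eq] at h1
  refine h1.mono_right ?_
  rw [← hF]
  refine sSup_le_sSup ?_
  rintro T ⟨hT, hTF⟩
  refine ⟨hT, ?_⟩
  rintro rfl
  exact hSF hTF

theorem IsDec.eq_of_subset {Q Q' : Set (Submodule k V)} {U : Submodule k V} (h : IsDec Q U)
    (h' : IsDec Q' U) (hs : Q ⊆ Q') : Q = Q' := by
  refine Set.Subset.antisymm hs fun S hS => ?_
  by_contra hSQ
  have h1 := h'.ind S hS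
  rw [sup_bot_eq] at h1
  have h2 : S ≤ sSup (Q' \ {S}) := by
    have h3 : S ≤ U := by rw [← h'.sup]; exact le_sSup hS
    refine h3.trans ?_
    rw [← h.sup]
    refine sSup_le_sSup fun T hT => ⟨hs hT, ?_⟩
    rintro rfl
    exact hSQ hT
  have h3 : S = ⊥ := disjoint_self.1 (h1.mono_right h2)
  exact h'.ne (h3 ▸ hS)

/-- the images of the members of `Q` which lie in `F1` and not in `F0` -/
def induced (Q : Set (Submodule k V)) (F0 F1 : Submodule k V) (p : V →ₗ[k] W) :
    Set (Submodule k W) := {Z | ∃ S ∈ Q, S ≤ F1 ∧ ¬ S ≤ F0 ∧ S.map p = Z}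

section induced

variable {Q : Set (Submodule k V)} {U F0 F1 : Submodule k V} {p : V →ₗ[k] W}

theorem map_eq_of_le (hp : ∀ v ∈ F1, p v = 0 ↔ v ∈ F0) {S : Submodule k V}
    (hS1 : S ≤ F1) (hS : S ≤ F0) : S.map p = ⊥ := by
  rw [eq_bot_iff]
  rintro _ ⟨v, hv, rfl⟩
  exact (hp v (hS1 hv)).2 (hS hv)

/-- the image of a subspace compatible with `Q` -/
theorem induced_comp (h : IsDec Q U) (hp : ∀ v ∈ F1, p v = 0 ↔ v ∈ F0) {F : Submodule k V}
    (hF : Comp Q F) (hF1 : F ≤ F1) : Comp (induced Q F0 F1 p) (F.map p) := by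
  unfold Comp
  apply le_antisymm
  · exact sSup_le fun Z hZ => hZ.2
  · conv_lhs => rw [← hF]
    rw [sSup_eq_iSup, Submodule.map_iSup]
    refine iSup_le fun S => ?_
    rw [Submodule.map_iSup]
    refine iSup_le fun hS => ?_
    by_cases hS0 : S ≤ F0
    · rw [map_eq_of_le hp (hS.2.trans hF1) hS0]
      exact bot_le
    · exact le_sSup ⟨⟨S, hS.1, hS.2.trans hF1, hS0, rfl⟩, Submodule.map_mono hS.2⟩

/-- a decomposition induces a decomposition of the quotient -/
theorem induced_dec (h : IsDec Q U) (h0 : Comp Q F0) (h1 : Comp Q F1)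
    (hp : ∀ v ∈ F1, p v = 0 ↔ v ∈ F0) : IsDec (induced Q F0 F1 p) (F1.map p) := by
  constructor
  · rintro _ ⟨S, hS, hS1, hS0, rfl⟩
    rw [sup_bot_eq, Submodule.disjoint_def]
    rintro _ ⟨v, hv, rfl⟩ hw
    -- the sum of the others
    have h2 : sSup (induced Q F0 F1 p \ {S.map p}) ≤
        (sSup {T ∈ Q | T ≤ F1 ∧ T ≠ S}).map p := by
      refine sSup_le ?_
      rintro _ ⟨⟨T, hT, hT1, hT0, rfl⟩, hne⟩
      refine Submodule.map_mono (le_sSup ⟨hT, hT1, ?_⟩)
      rintro rfl
      exact hne rfl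
    obtain ⟨w, hw', hpw⟩ := h2 hw
    have hwF : w ∈ F1 := by
      have : sSup {T ∈ Q | T ≤ F1 ∧ T ≠ S} ≤ F1 := sSup_le fun T hT => hT.2.1
      exact this hw'
    have hvw : v - w ∈ F0 := by
      rw [← hp _ (Submodule.sub_mem _ (hS1 hv) hwF), map_sub, hpw, sub_self]
    have h3 : F0 ≤ sSup (Q \ {S}) := by
      rw [← h0]
      refine sSup_le_sSup ?_
      rintro T ⟨hT, hT0⟩
      refine ⟨hT, ?_⟩
      rintro rfl
      exact hS0 hT0
    have h4 : sSup {T ∈ Q | T ≤ F1 ∧ T ≠ S} ≤ sSup (Q \ {S}) :=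
      sSup_le_sSup fun T hT => ⟨hT.1, hT.2.2⟩
    have h5 : v ∈ sSup (Q \ {S}) := by
      have : v = (v - w) + w := by abel
      rw [this]
      exact Submodule.add_mem _ (h3 hvw) (h4 hw')
    have h6 := h.ind S hS
    rw [sup_bot_eq, Submodule.disjoint_def] at h6
    rw [h6 v hv h5, map_zero]
  · have := induced_comp h hp h1 le_rfl
    unfold Comp at this
    rw [← this]
    congr 1
    ext Z
    constructor
    · intro hZ
      refine ⟨hZ, ?_⟩
      obtain ⟨S, _, hS1, _, rfl⟩ := hZ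
      exact Submodule.map_mono hS1
    · exact fun hZ => hZ.1
  · rintro ⟨S, hS, hS1, hS0, hb⟩
    apply hS0
    intro v hv
    rw [← hp v (hS1 hv)]
    have : p v ∈ S.map p := ⟨v, hv, rfl⟩
    rw [hb] at this
    exact (Submodule.mem_bot k).1 this

end induced

end Pool.Agent.K6.H47.TS
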