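import Pool.Agent.K6.H47.TS.Bunch1

/-!
# Decompositions adapted to two flags: assembling the cells
-/

set_option autoImplicit false

namespace Pool.Agent.K6.H47.TS

variable {k V W : Type} [Field k] [AddCommGroup V] [Module k V] [AddCommGroup W] [Module k W]

/-- the cell `(e, f)` of two flags -/
def cell (A B : ℕ → Submodule k V) (e f : ℕ) : Submodule k V := A (e + 1) ⊓ B (f + 1)

/-- the part of the cell in the smaller cells -/
def sub (A B : ℕ → Submodule k V) (e f : ℕ) : Submodule k V :=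
  (A e ⊓ B (f + 1)) ⊔ (A (e + 1) ⊓ B f)

theorem cell_comm (A B : ℕ → Submodule k V) (e f : ℕ) : cell B A f e = cell A B e f := inf_comm _ _

theorem sub_comm (A B : ℕ → Submodule k V) (e f : ℕ) : sub B A f e = sub A B e f := by
  unfold sub
  rw [sup_comm, inf_comm (B (f + 1)), inf_comm (B f)]

theorem sub_le_cell {A B : ℕ → Submodule k V} (hA : Monotone A) (hB : Monotone B) (e f : ℕ) :
    sub A B e f ≤ cell A B e f :=
  sup_le (inf_le_inf_right _ (hA (Nat.le_succ e))) (inf_le_inf_left _ (hB (Nat.le_succ f)))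

/-- decompositions of the cells modulo the smaller cells -/
structure IsCells (A B : ℕ → Submodule k V) (Q : ℕ → ℕ → Set (Submodule k V)) : Prop where
  ind : ∀ e f, IndepMod (Q e f) (sub A B e f)
  sup : ∀ e f, sSup (Q e f) ⊔ sub A B e f = cell A B e f
  ne : ∀ e f, ⊥ ∉ Q e f

theorem IsCells.symm {A B : ℕ → Submodule k V} {Q : ℕ → ℕ → Set (Submodule k V)}
    (h : IsCells A B Q) : IsCells B A (fun f e => Q e f) :=
  ⟨fun f e => by rw [sub_comm]; exact h.ind e f, fun f e => by rw [sub_comm, cell_comm, h.sup],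
    fun f e => h.ne e f⟩

theorem IsCells.empty {A B : ℕ → Submodule k V} {Q : ℕ → ℕ → Set (Submodule k V)}
    (h : IsCells A B Q) {e f : ℕ} (hc : cell A B e f ≤ sub A B e f) : Q e f = ∅ := by
  rw [Set.eq_empty_iff_forall_notMem]
  intro S hS
  have h1 : S ≤ sub A B e f := by
    refine le_trans ?_ hc
    rw [← h.sup]
    exact (le_sSup hS).trans le_sup_left
  have h2 := (h.ind e f S hS).mono_right (le_sup_right : sub A B e f ≤ _)
  have h3 : S = ⊥ := disjoint_self.1 (h2.mono_right h1)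
  exact h.ne e f (h3 ▸ hS)

/-- all the members of the decompositions of the cells -/
def allOf (Q : ℕ → ℕ → Set (Submodule k V)) : Set (Submodule k V) := {S | ∃ e f, S ∈ Q e f}

theorem IsCells.row {A B : ℕ → Submodule k V} {Q : ℕ → ℕ → Set (Submodule k V)}
    (hA : Monotone A) (hB : Monotone B) (hB0 : B 0 = ⊥) {U : Submodule k V} (hAU : ∀ n, A n ≤ U)
    {m : ℕ} (hm : B m = U) (h : IsCells A B Q) (e : ℕ) :
    IndepMod (upTo (Q e) m) (A e) ∧ sSup (upTo (Q e) m) ⊔ A e = A (e + 1) := by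
  have key := chain (Q e) (fun f => A e ⊔ (A (e + 1) ⊓ B f)) ?_ ?_ m
  · simp only [hB0, inf_bot_eq, sup_bot_eq, hm] at key
    rw [inf_eq_left.2 (hAU (e + 1)), sup_eq_right.2 (hA (Nat.le_succ e))] at key
    exact key
  · intro f
    have h1 := h.sup e f
    calc sSup (Q e f) ⊔ (A e ⊔ (A (e + 1) ⊓ B f))
        = A e ⊔ (sSup (Q e f) ⊔ sub A B e f) := by
          unfold sub
          have h2 : A e ⊓ B (f + 1) ≤ A e := inf_le_left
          apply le_antisymm
          · refine sup_le ?_ (sup_le le_sup_left ?_)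
            · exact le_sup_left.trans le_sup_right
            · exact (le_sup_right.trans le_sup_right).trans le_sup_right
          · refine sup_le (le_sup_left.trans le_sup_right) (sup_le le_sup_left (sup_le ?_ ?_))
            · exact (h2.trans le_sup_left).trans le_sup_right
            · exact le_sup_right.trans le_sup_right
      _ = A e ⊔ (A (e + 1) ⊓ B (f + 1)) := by rw [h1]; rfl
  · intro f S hS
    have hC : ∀ {v : V}, v ∈ sSup (Q e f) → v ∈ cell A B e f := fun {v} hv => by
      rw [← h.sup e f]; exact Submodule.mem_sup_left hv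
    rw [Submodule.disjoint_def]
    intro v hv hv2
    obtain ⟨q, hq, r, hr, rfl⟩ := Submodule.mem_sup.1 hv2
    have hle : sSup (Q e f \ {S}) ≤ sSup (Q e f) := sSup_le_sSup Set.sdiff_subset
    have hqQ : q ∈ sSup (Q e f) := hle hq
    have hrC : r ∈ cell A B e f := by
      have : r = (q + r) - q := by abel
      rw [this]
      exact Submodule.sub_mem _ (hC ((le_sSup hS) hv)) (hC hqQ)
    obtain ⟨a, ha, x, hx, rfl⟩ := Submodule.mem_sup.1 hr
    have haD : a + x ∈ sub A B e f := by
      refine Submodule.add_mem_sup ⟨ha, ?_⟩ hx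
      have h1 : a = (a + x) - x := by abel
      rw [h1]
      exact Submodule.sub_mem _ hrC.2 (hB (Nat.le_succ f) hx.2)
    exact (Submodule.disjoint_def.1 (h.ind e f S hS)) _ hv (Submodule.add_mem_sup hq haD)

theorem IsCells.main {A B : ℕ → Submodule k V} {Q : ℕ → ℕ → Set (Submodule k V)}
    (hA : Monotone A) (hB : Monotone B) (hA0 : A 0 = ⊥) (hB0 : B 0 = ⊥) {U : Submodule k V}
    (hAU : ∀ n, A n ≤ U) (hBU : ∀ n, B n ≤ U) {n m : ℕ} (hn : A n = U) (hm : B m = U)
    (h : IsCells A B Q) :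
    IsDec (allOf Q) U ∧ ∀ j, Comp (allOf Q) (A j) := by
  have hrow := h.row hA hB hB0 hAU hm
  have key := chain (fun e => upTo (Q e) m) A (fun e => (hrow e).2) (fun e => (hrow e).1)
  have hbig1 : ∀ e f, n ≤ e → Q e f = ∅ := by
    intro e f he
    apply h.empty
    have h1 : A e = U := le_antisymm (hAU e) (by rw [← hn]; exact hA he)
    unfold cell sub
    refine le_trans ?_ le_sup_left
    exact le_inf ((inf_le_left.trans (hAU _)).trans h1.ge) inf_le_right
  have hbig2 : ∀ e f, m ≤ f → Q e f = ∅ := by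
    intro e f hf
    apply h.empty
    have h1 : B f = U := le_antisymm (hBU f) (by rw [← hm]; exact hB hf)
    unfold cell sub
    refine le_trans ?_ le_sup_right
    exact le_inf inf_le_left ((inf_le_right.trans (hBU _)).trans h1.ge)
  have hall : allOf Q = upTo (fun e => upTo (Q e) m) n := by
    ext S
    constructor
    · rintro ⟨e, f, hS⟩
      refine ⟨e, ?_, f, ?_, hS⟩
      · by_contra hcon
        rw [hbig1 e f (not_lt.1 hcon)] at hS
        exact hS
      · by_contra hcon
        rw [hbig2 e f (not_lt.1 hcon)] at hS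
        exact hS
    · rintro ⟨e, _, f, _, hS⟩
      exact ⟨e, f, hS⟩
  refine ⟨⟨?_, ?_, ?_⟩, ?_⟩
  · rw [hall, ← hA0]
    exact (key n).1
  · rw [hall, ← hn, ← (key n).2, hA0, sup_bot_eq]
  · rintro ⟨e, f, hS⟩
    exact h.ne e f hS
  · intro j
    have h1 : sSup (upTo (fun e => upTo (Q e) m) j) = A j := by
      have := (key j).2
      rwa [hA0, sup_bot_eq] at this
    unfold Comp
    apply le_antisymm
    · exact sSup_le fun S hS => hS.2
    · rw [← h1]
      refine sSup_le_sSup ?_
      intro S hS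
      refine ⟨?_, ?_⟩
      · obtain ⟨e, _, f, _, hS⟩ := hS
        exact ⟨e, f, hS⟩
      · rw [h1, ← h1]
        exact le_sSup hS

theorem allOf_symm (Q : ℕ → ℕ → Set (Submodule k V)) :
    allOf (fun f e => Q e f) = allOf Q := by
  ext S
  exact ⟨fun ⟨f, e, h⟩ => ⟨e, f, h⟩, fun ⟨e, f, h⟩ => ⟨f, e, h⟩⟩

theorem IsCells.both {A B : ℕ → Submodule k V} {Q : ℕ → ℕ → Set (Submodule k V)}
    (hA : Monotone A) (hB : Monotone B) (hA0 : A 0 = ⊥) (hB0 : B 0 = ⊥) {U : Submodule k V}
    (hAU : ∀ n, A n ≤ U) (hBU : ∀ n, B n ≤ U) (hn : ∃ n, A n = U) (hm : ∃ m, B m = U)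
    (h : IsCells A B Q) :
    IsDec (allOf Q) U ∧ (∀ j, Comp (allOf Q) (A j)) ∧ ∀ j, Comp (allOf Q) (B j) := by
  obtain ⟨n, hn⟩ := hn
  obtain ⟨m, hm⟩ := hm
  obtain ⟨h1, h2⟩ := h.main hA hB hA0 hB0 hAU hBU hn hm
  obtain ⟨_, h4⟩ := h.symm.main hB hA hB0 hA0 hBU hAU hm hn
  refine ⟨h1, h2, ?_⟩
  intro j
  rw [← allOf_symm]
  exact h4 j

/-- a member of the decomposition of the cell `(e, f)` which lies in `A (e' + 1)` and not in `A e'`
has `e = e'` -/
theorem IsCells.index {A B : ℕ → Submodule k V} {Q : ℕ → ℕ → Set (Submodule k V)}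
    (hA : Monotone A) (h : IsCells A B Q) {e f e' : ℕ} {S : Submodule k V} (hS : S ∈ Q e f)
    (h1 : S ≤ A (e' + 1)) (h0 : ¬ S ≤ A e') : e = e' := by
  have hC : S ≤ cell A B e f := by
    rw [← h.sup]; exact (le_sSup hS).trans le_sup_left
  rcases lt_trichotomy e e' with hlt | heq | hgt
  · exact absurd ((hC.trans inf_le_left).trans (hA hlt)) h0
  · exact heq
  · exfalso
    have h2 : S ≤ sub A B e f := by
      refine le_trans (le_inf (h1.trans (hA hgt)) (hC.trans inf_le_right)) le_sup_left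
    have h3 := (h.ind e f S hS).mono_right (le_sup_right : sub A B e f ≤ _)
    have h4 : S = ⊥ := disjoint_self.1 (h3.mono_right h2)
    exact h.ne e f (h4 ▸ hS)

end Pool.Agent.K6.H47.TS
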