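import Pool.Agent.K6.H47.TS.Bunch2

/-!
# Decompositions adapted to two flags: lifting a decomposition of a cell
-/

set_option autoImplicit false

namespace Pool.Agent.K6.H47.TS

variable {k V W : Type} [Field k] [AddCommGroup V] [Module k V] [AddCommGroup W] [Module k W]

/-- a linear map on the image -/
theorem exists_factor (p : V →ₗ[k] W) (C D : Submodule k V) (h : ∀ u ∈ C, p u = 0 → u ∈ D) :
    ∃ φ : W →ₗ[k] V ⧸ D, ∀ u ∈ C, φ (p u) = D.mkQ u := by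
  set f := p.domRestrict C
  set g := D.mkQ.domRestrict C
  have hfg : LinearMap.ker f ≤ LinearMap.ker g := by
    intro u hu
    rw [LinearMap.mem_ker] at hu ⊢
    exact (Submodule.Quotient.mk_eq_zero D).2 (h u.1 u.2 hu)
  obtain ⟨φ, hφ⟩ := LinearMap.exists_extend
    (((LinearMap.ker f).liftQ g hfg).comp f.quotKerEquivRange.symm.toLinearMap)
  refine ⟨φ, fun u hu => ?_⟩
  have h1 := LinearMap.congr_fun hφ ⟨f ⟨u, hu⟩, LinearMap.mem_range_self f _⟩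
  have h2 : f.quotKerEquivRange.symm ⟨f ⟨u, hu⟩, LinearMap.mem_range_self f _⟩ =
      (LinearMap.ker f).mkQ ⟨u, hu⟩ := by
    rw [LinearEquiv.symm_apply_eq]
    rfl
  simp only [LinearMap.comp_apply, LinearEquiv.coe_coe] at h1
  rw [h2] at h1
  exact h1

theorem mkQ_zero {D : Submodule k V} {v : V} (hv : v ∈ D) : D.mkQ v = 0 :=
  (Submodule.Quotient.mk_eq_zero D).2 hv

theorem mem_of_mkQ {D : Submodule k V} {u v : V} (h : D.mkQ u = D.mkQ v) : u - v ∈ D := by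
  have h1 : D.mkQ (u - v) = 0 := by rw [map_sub, h, sub_self]
  exact (Submodule.Quotient.mk_eq_zero D).1 h1

/-- the constraint on the lifts given by a linear map -/
def Con (C D : Submodule k V) (R : Set (Submodule k (V ⧸ D))) (p : V →ₗ[k] W)
    (Z : Set (Submodule k W)) : Prop :=
  ∀ r ∈ R, ∃ z ∈ Z, (∀ x ∈ r, ∃ u ∈ C, D.mkQ u = x ∧ p u ∈ z) ∧
    (∀ u ∈ C, u ∈ D → p u ∈ z → p u = 0) ∧ ∀ w ∈ z, ∃ u ∈ C, p u = w ∧ D.mkQ u ∈ r

theorem con_zero {C D : Submodule k V} {R : Set (Submodule k (V ⧸ D))}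
    (hR : sSup R = C.map D.mkQ) : Con C D R (0 : V →ₗ[k] W) {⊥} := by
  intro r hr
  refine ⟨⊥, rfl, fun x hx => ?_, fun u _ _ _ => rfl, fun w hw => ⟨0, Submodule.zero_mem _, ?_, ?_⟩⟩
  · have h1 : r ≤ C.map D.mkQ := by rw [← hR]; exact le_sSup hr
    obtain ⟨u, hu, hux⟩ := h1 hx
    exact ⟨u, hu, hux, by simp⟩
  · rw [(Submodule.mem_bot k).1 hw]; rfl
  · rw [map_zero]; exact Submodule.zero_mem _

theorem con_induced {C D : Submodule k V} {Z : Set (Submodule k W)} {U' F0 F1 : Submodule k W}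
    {p : V →ₗ[k] W} {φ : W →ₗ[k] V ⧸ D} (hZ : IsDec Z U') (h0 : Comp Z F0)
    (hF1 : F1 = C.map p) (hφ : ∀ u ∈ C, φ (p u) = D.mkQ u)
    (hk : ∀ z ∈ F1, φ z = 0 ↔ z ∈ F0) : Con C D (induced Z F0 F1 φ) p Z := by
  rintro _ ⟨z, hz, hz1, hz0, rfl⟩
  refine ⟨z, hz, ?_, ?_, ?_⟩
  · rintro _ ⟨w, hw, rfl⟩
    have h1 := hz1 hw
    rw [hF1] at h1
    obtain ⟨u, hu, rfl⟩ := h1
    exact ⟨u, hu, (hφ u hu).symm, hw⟩
  · intro u hu hD hpz
    have h1 : φ (p u) = 0 := by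
      rw [hφ u hu]
      exact mkQ_zero hD
    have h2 := (hk _ (hz1 hpz)).1 h1
    exact (Submodule.disjoint_def.1 (hZ.disjoint h0 hz hz0)) _ hpz h2
  · intro w hw
    have h1 := hz1 hw
    rw [hF1] at h1
    obtain ⟨u, hu, rfl⟩ := h1
    exact ⟨u, hu, rfl, hφ u hu ▸ ⟨_, hw, rfl⟩⟩

/-- a complement inside a subspace -/
theorem exists_inner_compl (T D : Submodule k V) : ∃ S ≤ T, Disjoint S D ∧ T ≤ S ⊔ D := by
  obtain ⟨K, hK⟩ := Submodule.exists_isCompl (T ⊓ D)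
  refine ⟨T ⊓ K, inf_le_left, ?_, ?_⟩
  · rw [disjoint_iff, eq_bot_iff]
    rintro v ⟨⟨hT, hK'⟩, hD⟩
    exact (Submodule.disjoint_def.1 hK.disjoint) v ⟨hT, hD⟩ hK'
  · intro v hv
    have h1 : v ∈ (T ⊓ D) ⊔ K := by rw [hK.sup_eq_top]; trivial
    obtain ⟨a, ha, b, hb, rfl⟩ := Submodule.mem_sup.1 h1
    rw [add_comm]
    refine Submodule.add_mem_sup ⟨?_, hb⟩ ha.2
    have : b = (a + b) - a := by abel
    rw [this]
    exact Submodule.sub_mem _ hv ha.1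

/-- the image of a lift -/
theorem lift_map {C D S : Submodule k V} {r : Submodule k (V ⧸ D)} {p : V →ₗ[k] W}
    {z : Submodule k W} (hSC : S ≤ C) (hSz : ∀ s ∈ S, p s ∈ z)
    (hSr : ∀ x ∈ r, ∃ s ∈ S, D.mkQ s = x) (h2 : ∀ u ∈ C, u ∈ D → p u ∈ z → p u = 0)
    (h3 : ∀ w ∈ z, ∃ u ∈ C, p u = w ∧ D.mkQ u ∈ r) : S.map p = z := by
  apply le_antisymm
  · rintro _ ⟨s, hs, rfl⟩
    exact hSz s hs
  · intro w hw
    obtain ⟨u, hu, rfl, hur⟩ := h3 w hw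
    obtain ⟨s, hs, hsu⟩ := hSr _ hur
    have h4 := h2 (u - s) (Submodule.sub_mem _ hu (hSC hs)) (mem_of_mkQ hsu.symm)
      (by rw [map_sub]; exact Submodule.sub_mem _ hw (hSz s hs))
    rw [map_sub, sub_eq_zero] at h4
    exact ⟨s, hs, h4.symm⟩

theorem exists_lift {C D : Submodule k V} (hDC : D ≤ C) {R : Set (Submodule k (V ⧸ D))}
    {pa pb : V →ₗ[k] W} {Za Zb : Set (Submodule k W)}
    (hs : ∀ v ∈ D, ∃ c ∈ D, ∃ d ∈ D, v = c + d ∧ pa c = 0 ∧ pb d = 0)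
    (ha : Con C D R pa Za) (hb : Con C D R pb Zb) {r : Submodule k (V ⧸ D)} (hr : r ∈ R) :
    ∃ S : Submodule k V, S ≤ C ∧ S.map D.mkQ = r ∧ Disjoint S D ∧
      S.map pa ∈ Za ∧ S.map pb ∈ Zb := by
  obtain ⟨za, hza, hza1, hza2, hza3⟩ := ha r hr
  obtain ⟨zb, hzb, hzb1, hzb2, hzb3⟩ := hb r hr
  have hTr : ∀ x ∈ r, ∃ w ∈ C ⊓ r.comap D.mkQ ⊓ za.comap pa ⊓ zb.comap pb, D.mkQ w = x := by
    intro x hx
    obtain ⟨u, hu, hux, hua⟩ := hza1 x hx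
    obtain ⟨u', hu', hux', hub⟩ := hzb1 x hx
    obtain ⟨c, hc, d, hd, hcd, hca, hdb⟩ := hs _ (mem_of_mkQ (hux.trans hux'.symm))
    have hw : u - c = u' + d := by
      have : u = c + d + u' := by rw [← hcd]; abel
      rw [this]; abel
    have hm : D.mkQ (u - c) = x := by rw [map_sub, hux, mkQ_zero hc, sub_zero]
    refine ⟨u - c, ⟨⟨⟨Submodule.sub_mem _ hu (hDC hc), ?_⟩, ?_⟩, ?_⟩, hm⟩
    · show D.mkQ (u - c) ∈ r
      rw [hm]
      exact hx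
    · show pa (u - c) ∈ za
      rw [map_sub, hca, sub_zero]
      exact hua
    · show pb (u - c) ∈ zb
      rw [hw, map_add, hdb, add_zero]
      exact hub
  obtain ⟨S, hST, hSD, hTS⟩ :=
    exists_inner_compl (C ⊓ r.comap D.mkQ ⊓ za.comap pa ⊓ zb.comap pb) D
  have hSC : S ≤ C := hST.trans (inf_le_left.trans (inf_le_left.trans inf_le_left))
  have hSr : ∀ x ∈ r, ∃ s ∈ S, D.mkQ s = x := by
    intro x hx
    obtain ⟨w, hw, hwx⟩ := hTr x hx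
    obtain ⟨s, hs, d, hd, rfl⟩ := Submodule.mem_sup.1 (hTS hw)
    refine ⟨s, hs, ?_⟩
    rw [← hwx, map_add, mkQ_zero hd, add_zero]
  have hSr' : ∀ s ∈ S, D.mkQ s ∈ r := fun s hs => (hST hs).1.1.2
  refine ⟨S, hSC, ?_, hSD, ?_, ?_⟩
  · ext x
    exact ⟨fun ⟨s, hs, hsx⟩ => hsx ▸ hSr' s hs, fun hx => hSr x hx⟩
  · rw [lift_map hSC (fun s hs => (hST hs).1.2) hSr hza2 hza3]
    exact hza
  · rw [lift_map hSC (fun s hs => (hST hs).2) hSr hzb2 hzb3]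
    exact hzb

theorem cellStep {C D : Submodule k V} (hDC : D ≤ C) {R : Set (Submodule k (V ⧸ D))}
    (hR : IsDec R (C.map D.mkQ)) {pa pb : V →ₗ[k] W} {Za Zb : Set (Submodule k W)}
    (hs : ∀ v ∈ D, ∃ c ∈ D, ∃ d ∈ D, v = c + d ∧ pa c = 0 ∧ pb d = 0)
    (ha : Con C D R pa Za) (hb : Con C D R pb Zb) :
    ∃ Q : Set (Submodule k V), IndepMod Q D ∧ sSup Q ⊔ D = C ∧ ⊥ ∉ Q ∧
      ∀ S ∈ Q, S.map pa ∈ Za ∧ S.map pb ∈ Zb := by
  choose! L hLC hLr hLD hLa hLb using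
    fun (r : Submodule k (V ⧸ D)) (hr : r ∈ R) => exists_lift hDC hs ha hb hr
  refine ⟨L '' R, ?_, ?_, ?_, ?_⟩
  · rintro _ ⟨r, hr, rfl⟩
    rw [Submodule.disjoint_def]
    intro v hv hv2
    have h1 : (sSup (L '' R \ {L r}) ⊔ D).map D.mkQ ≤ sSup (R \ {r}) ⊔ ⊥ := by
      rw [Submodule.map_sup]
      refine sup_le_sup ?_ ?_
      · rw [Submodule.map_le_iff_le_comap]
        refine sSup_le ?_
        rintro _ ⟨⟨r', hr', rfl⟩, hne⟩
        rw [← Submodule.map_le_iff_le_comap, hLr r' hr']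
        refine le_sSup ⟨hr', ?_⟩
        rintro rfl
        exact hne rfl
      · rintro _ ⟨d, hd, rfl⟩
        exact (Submodule.mem_bot k).2 (mkQ_zero hd)
    have h2 : D.mkQ v = 0 := by
      refine (Submodule.disjoint_def.1 (hR.ind r hr)) _ ?_ (h1 ⟨v, hv2, rfl⟩)
      rw [← hLr r hr]
      exact ⟨v, hv, rfl⟩
    exact (Submodule.disjoint_def.1 (hLD r hr)) v hv ((Submodule.Quotient.mk_eq_zero D).1 h2)
  · apply le_antisymm
    · refine sup_le (sSup_le ?_) hDC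
      rintro _ ⟨r, hr, rfl⟩
      exact hLC r hr
    · intro v hv
      have h1 : D.mkQ v ∈ sSup R := by rw [hR.sup]; exact ⟨v, hv, rfl⟩
      have h2 : sSup R ≤ (sSup (L '' R)).map D.mkQ := by
        refine sSup_le fun r hr => ?_
        rw [← hLr r hr]
        exact Submodule.map_mono (le_sSup ⟨r, hr, rfl⟩)
      obtain ⟨s, hs', hsv⟩ := h2 h1
      have h3 : v = s + (v - s) := by abel
      rw [h3]
      exact Submodule.add_mem_sup hs' (mem_of_mkQ hsv.symm)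
  · rintro ⟨r, hr, hb'⟩
    apply hR.ne
    have h1 := hLr r hr
    rw [hb', Submodule.map_bot] at h1
    rw [h1]
    exact hr
  · rintro _ ⟨r, hr, rfl⟩
    exact ⟨hLa r hr, hLb r hr⟩

end Pool.Agent.K6.H47.TS
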