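import Pool.Agent.K6.H47.TS.Bunch3

/-!
# Systems of pairs of flags with linked graded pieces, and their reduction
-/

set_option autoImplicit false

namespace Pool.Agent.K6.H47.TS

variable {k V W K L : Type} [Field k] [AddCommGroup V] [Module k V] [AddCommGroup W] [Module k W]

theorem fac {p : V →ₗ[k] W} {H Lo G0 G1 C D : Submodule k V}
    (hk : ∀ v ∈ H, p v = 0 ↔ v ∈ Lo) (hL : Lo ≤ H) (hG : G0 ≤ G1) (hC : C = H ⊓ G1)
    (hD : D = (Lo ⊓ G1) ⊔ (H ⊓ G0)) :
    ∃ φ : W →ₗ[k] V ⧸ D, (∀ u ∈ C, φ (p u) = D.mkQ u) ∧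
      ∀ w ∈ C.map p, (φ w = 0 ↔ w ∈ (H ⊓ G0).map p) := by
  obtain ⟨φ, hφ⟩ := exists_factor p C D (fun u hu hpu => by
    rw [hC] at hu
    rw [hD]
    exact Submodule.mem_sup_left ⟨(hk u hu.1).1 hpu, hu.2⟩)
  refine ⟨φ, hφ, ?_⟩
  rintro _ ⟨u, hu, rfl⟩
  rw [hφ u hu]
  constructor
  · intro h
    have h1 : u ∈ D := (Submodule.Quotient.mk_eq_zero D).1 h
    rw [hD] at h1
    obtain ⟨a, ha, b, hb, rfl⟩ := Submodule.mem_sup.1 h1
    refine ⟨b, hb, ?_⟩
    rw [map_add, (hk a (hL ha.1)).2 ha.1, zero_add]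
  · rintro ⟨b, hb, hbu⟩
    have hu' := hu
    rw [hC] at hu'
    have h1 : u - b ∈ Lo := by
      rw [← hk _ (Submodule.sub_mem _ hu'.1 hb.1), map_sub, hbu, sub_self]
    apply mkQ_zero
    rw [hD]
    have h2 : u = (u - b) + b := by abel
    rw [h2]
    exact Submodule.add_mem_sup ⟨h1, Submodule.sub_mem _ hu'.2 (hG hb.2)⟩ hb

/-- subspaces `U i`, each with two flags, and links between graded pieces of the flags -/
structure Data (k V W K L : Type) [Field k] [AddCommGroup V] [Module k V] [AddCommGroup W]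
    [Module k W] where
  U : K → Submodule k V
  fl : K → Bool → ℕ → Submodule k V
  mono : ∀ i s, Monotone (fl i s)
  bot : ∀ i s, fl i s 0 = ⊥
  le : ∀ i s n, fl i s n ≤ U i
  top : ∃ n, ∀ i s, fl i s n = U i
  eK : L × Bool → K
  eS : L × Bool → Bool
  eI : L × Bool → ℕ
  inj : ∀ a b, eK a = eK b → eS a = eS b → eI a = eI b → a = b
  p : L × Bool → V →ₗ[k] W
  range : ∀ l, (fl (eK (l, false)) (eS (l, false)) (eI (l, false) + 1)).map (p (l, false)) =
    (fl (eK (l, true)) (eS (l, true)) (eI (l, true) + 1)).map (p (l, true))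
  ker : ∀ a, ∀ v ∈ fl (eK a) (eS a) (eI a + 1), p a v = 0 ↔ v ∈ fl (eK a) (eS a) (eI a)

namespace Data

/-- the lower end of the graded piece -/
def lo (d : Data k V W K L) (a : L × Bool) : Submodule k V := d.fl (d.eK a) (d.eS a) (d.eI a)

/-- the upper end of the graded piece -/
def hi (d : Data k V W K L) (a : L × Bool) : Submodule k V := d.fl (d.eK a) (d.eS a) (d.eI a + 1)

/-- the opposite flag -/
def op (d : Data k V W K L) (a : L × Bool) (j : ℕ) : Submodule k V := d.fl (d.eK a) (!d.eS a) j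

/-- adapted decompositions -/
structure Adapted (d : Data k V W K L) (𝒮 : K → Set (Submodule k V)) : Prop where
  dec : ∀ i, IsDec (𝒮 i) (d.U i)
  comp : ∀ i s n, Comp (𝒮 i) (d.fl i s n)
  link : ∀ l, induced (𝒮 (d.eK (l, false))) (d.lo (l, false)) (d.hi (l, false)) (d.p (l, false)) =
    induced (𝒮 (d.eK (l, true))) (d.lo (l, true)) (d.hi (l, true)) (d.p (l, true))

theorem lo_le_hi (d : Data k V W K L) (a : L × Bool) : d.lo a ≤ d.hi a :=
  d.mono _ _ (Nat.le_succ _)

/-- the links of the reduced system: the cells whose row and column are matched -/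
def Lk (d : Data k V W K L) : Type :=
  {q : (L × Bool) × (L × Bool) // d.eK q.1 = d.eK q.2 ∧ d.eS q.1 = false ∧ d.eS q.2 = true}

/-- the end of `q` on the side `t` -/
def pe {d : Data k V W K L} (q : d.Lk × Bool) : L × Bool := bif q.2 then q.1.1.2 else q.1.1.1

/-- the other end of `q` -/
def oe {d : Data k V W K L} (q : d.Lk × Bool) : L × Bool := bif q.2 then q.1.1.1 else q.1.1.2

/-- the cell of `q` -/
def cc (d : Data k V W K L) (q : d.Lk) : Submodule k V :=
  cell (d.fl (d.eK q.1.1) false) (d.fl (d.eK q.1.1) true) (d.eI q.1.1) (d.eI q.1.2)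

/-- the smaller cells -/
def dd (d : Data k V W K L) (q : d.Lk) : Submodule k V :=
  sub (d.fl (d.eK q.1.1) false) (d.fl (d.eK q.1.1) true) (d.eI q.1.1) (d.eI q.1.2)

theorem cc_eq (d : Data k V W K L) (q : d.Lk × Bool) :
    d.cc q.1 = d.hi (pe q) ⊓ d.op (pe q) (d.eI (oe q) + 1) := by
  obtain ⟨⟨⟨a, b⟩, h1, h2, h3⟩, t⟩ := q
  simp only at h1 h2 h3
  cases t
  · simp only [cc, cell, hi, op, pe, oe, cond_false, h2, Bool.not_false]
  · simp only [cc, cell, hi, op, pe, oe, cond_true, h3, Bool.not_true, ← h1]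
    rw [inf_comm]

theorem dd_eq (d : Data k V W K L) (q : d.Lk × Bool) :
    d.dd q.1 = (d.lo (pe q) ⊓ d.op (pe q) (d.eI (oe q) + 1)) ⊔
      (d.hi (pe q) ⊓ d.op (pe q) (d.eI (oe q))) := by
  obtain ⟨⟨⟨a, b⟩, h1, h2, h3⟩, t⟩ := q
  simp only at h1 h2 h3
  cases t
  · simp only [dd, sub, lo, hi, op, pe, oe, cond_false, h2, Bool.not_false]
  · simp only [dd, sub, lo, hi, op, pe, oe, cond_true, h3, Bool.not_true, ← h1]
    rw [sup_comm, inf_comm]
    congr 1
    rw [inf_comm]

theorem exists_phi (d : Data k V W K L) (q : d.Lk × Bool) :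
    ∃ φ : W →ₗ[k] V ⧸ d.dd q.1, (∀ u ∈ d.cc q.1, φ (d.p (pe q) u) = (d.dd q.1).mkQ u) ∧
      ∀ w ∈ (d.cc q.1).map (d.p (pe q)),
        (φ w = 0 ↔ w ∈ (d.hi (pe q) ⊓ d.op (pe q) (d.eI (oe q))).map (d.p (pe q))) :=
  fac (d.ker (pe q)) (d.lo_le_hi _) (d.mono _ _ (Nat.le_succ _)) (d.cc_eq q) (d.dd_eq q)

/-- the projections of the reduced system -/
noncomputable def phi (d : Data k V W K L) (q : d.Lk × Bool) : W →ₗ[k] V ⧸ d.dd q.1 :=
  (d.exists_phi q).choose

theorem phi_spec (d : Data k V W K L) (q : d.Lk × Bool) :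
    ∀ u ∈ d.cc q.1, d.phi q (d.p (pe q) u) = (d.dd q.1).mkQ u := (d.exists_phi q).choose_spec.1

theorem phi_ker (d : Data k V W K L) (q : d.Lk × Bool) : ∀ w ∈ (d.cc q.1).map (d.p (pe q)),
    (d.phi q w = 0 ↔ w ∈ (d.hi (pe q) ⊓ d.op (pe q) (d.eI (oe q))).map (d.p (pe q))) :=
  (d.exists_phi q).choose_spec.2

open Classical in
/-- the embedding of a summand -/
noncomputable def emb (d : Data k V W K L) (q : d.Lk) :
    (V ⧸ d.dd q) →ₗ[k] (∀ q : d.Lk, V ⧸ d.dd q) :=
  LinearMap.single k (fun q : d.Lk => V ⧸ d.dd q) q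

theorem emb_injective (d : Data k V W K L) (q : d.Lk) : Function.Injective (d.emb q) := by
  classical
  intro v w h
  exact LinearMap.ker_eq_bot.1 (LinearMap.ker_single k (fun q : d.Lk => V ⧸ d.dd q) q) h

theorem map_hi (d : Data k V W K L) (l : L) (t : Bool) :
    (d.hi (l, t)).map (d.p (l, t)) = (d.hi (l, false)).map (d.p (l, false)) := by
  cases t
  · rfl
  · exact (d.range l).symm

/-- the reduced system -/
noncomputable def red (d : Data k V W K L) : Data k W (∀ q : d.Lk, V ⧸ d.dd q) L d.Lk where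
  U l := (d.hi (l, false)).map (d.p (l, false))
  fl l t j := (d.hi (l, t) ⊓ d.op (l, t) j).map (d.p (l, t))
  mono l t _ _ h := Submodule.map_mono (inf_le_inf_left _ (d.mono _ _ h))
  bot l t := by
    have h : d.op (l, t) 0 = ⊥ := d.bot _ _
    rw [h, inf_bot_eq, Submodule.map_bot]
  le l t n := by
    rw [← d.map_hi l t]
    exact Submodule.map_mono inf_le_left
  top := by
    obtain ⟨n, hn⟩ := d.top
    refine ⟨n, fun l t => ?_⟩
    have h : d.op (l, t) n = d.U (d.eK (l, t)) := hn _ _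
    have h2 : d.hi (l, t) ≤ d.U (d.eK (l, t)) := d.le _ _ _
    rw [h, inf_eq_left.2 h2, d.map_hi]
  eK q := (pe q).1
  eS q := (pe q).2
  eI q := d.eI (oe q)
  inj := by
    rintro ⟨⟨⟨a, b⟩, h1, h2, h3⟩, t⟩ ⟨⟨⟨a', b'⟩, h1', h2', h3'⟩, t'⟩ hK hS hI
    simp only at h1 h2 h3 h1' h2' h3'
    have hpe := Prod.ext hK hS
    cases t <;> cases t'
    · simp only [pe, oe, cond_false] at hpe hI
      subst hpe
      have : b = b' := d.inj _ _ (h1.symm.trans h1') (h3.trans h3'.symm) hI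
      subst this
      rfl
    · simp only [pe, cond_false, cond_true] at hpe
      subst hpe
      rw [h2] at h3'
      exact absurd h3' (by simp)
    · simp only [pe, cond_false, cond_true] at hpe
      subst hpe
      rw [h3] at h2'
      exact absurd h2' (by simp)
    · simp only [pe, oe, cond_true] at hpe hI
      subst hpe
      have : a = a' := d.inj _ _ (h1.trans h1'.symm) (h2.trans h2'.symm) hI
      subst this
      rfl
  p q := (d.emb q.1).comp (d.phi q)
  range := by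
    have key : ∀ q : d.Lk × Bool, (((d.hi (pe q)) ⊓ d.op (pe q) (d.eI (oe q) + 1)).map
        (d.p (pe q))).map ((d.emb q.1).comp (d.phi q)) =
          ((d.cc q.1).map (d.dd q.1).mkQ).map (d.emb q.1) := by
      intro q
      rw [← d.cc_eq q, Submodule.map_comp]
      congr 1
      ext x
      constructor
      · rintro ⟨_, ⟨u, hu, rfl⟩, rfl⟩
        exact ⟨u, hu, (d.phi_spec q u hu).symm⟩
      · rintro ⟨u, hu, rfl⟩
        exact ⟨_, ⟨u, hu, rfl⟩, d.phi_spec q u hu⟩
    intro q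
    exact (key (q, false)).trans (key (q, true)).symm
  ker := by
    intro q w hw
    have hw' : w ∈ (d.cc q.1).map (d.p (pe q)) := by
      rw [d.cc_eq q]
      exact hw
    have h1 := d.phi_ker q w hw'
    have h2 : (d.emb q.1).comp (d.phi q) w = 0 ↔ d.phi q w = 0 := by
      rw [LinearMap.comp_apply]
      exact map_eq_zero_iff _ (d.emb_injective q.1)
    exact h2.trans h1

end Data

end Pool.Agent.K6.H47.TS
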