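import Pool.Agent.K6.H47.TS.Bunch4

/-!
# Lifting adapted decompositions from the reduced system
-/

set_option autoImplicit false

namespace Pool.Agent.K6.H47.TS

variable {k V W X K L : Type} [Field k] [AddCommGroup V] [Module k V] [AddCommGroup W] [Module k W]
  [AddCommGroup X] [Module k X]

theorem isDec_single (Z : Submodule k V) : IsDec ({Z} \ {⊥}) Z := by
  refine ⟨?_, ?_, fun h => h.2 rfl⟩
  · rintro S ⟨rfl, _⟩
    have : (({S} \ {⊥}) \ {S} : Set (Submodule k V)) = ∅ := by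
      ext T
      simp only [Set.mem_sdiff, Set.mem_singleton_iff, Set.mem_empty_iff_false, iff_false]
      tauto
    rw [this, sSup_empty, sup_bot_eq]
    exact disjoint_bot_right
  · by_cases h : Z = ⊥
    · subst h
      simp
    · apply le_antisymm
      · exact sSup_le fun S hS => hS.1.le
      · exact le_sSup ⟨rfl, h⟩

theorem induced_map (Q : Set (Submodule k V)) (F0 F1 : Submodule k V) (f : V →ₗ[k] W)
    (g : W →ₗ[k] X) : induced Q F0 F1 (g.comp f) = Submodule.map g '' induced Q F0 F1 f := by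
  ext Z
  constructor
  · rintro ⟨S, hS, h1, h0, rfl⟩
    exact ⟨_, ⟨S, hS, h1, h0, rfl⟩, (Submodule.map_comp _ _ _).symm⟩
  · rintro ⟨_, ⟨S, hS, h1, h0, rfl⟩, rfl⟩
    exact ⟨S, hS, h1, h0, Submodule.map_comp _ _ _⟩

theorem cellStep' {A B : ℕ → Submodule k V} (hA : Monotone A) (hB : Monotone B) (e f : ℕ)
    {R : Set (Submodule k (V ⧸ sub A B e f))}
    (hR : IsDec R ((cell A B e f).map (sub A B e f).mkQ)) {pa pb : V →ₗ[k] W}
    {Za Zb : Set (Submodule k W)} (ha0 : ∀ v ∈ A e, pa v = 0) (hb0 : ∀ v ∈ B f, pb v = 0)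
    (ha : Con (cell A B e f) (sub A B e f) R pa Za)
    (hb : Con (cell A B e f) (sub A B e f) R pb Zb) :
    ∃ Q : Set (Submodule k V), IndepMod Q (sub A B e f) ∧
      sSup Q ⊔ sub A B e f = cell A B e f ∧ ⊥ ∉ Q ∧
      ∀ S ∈ Q, S.map pa ∈ Za ∧ S.map pb ∈ Zb := by
  refine cellStep (sub_le_cell hA hB e f) hR ?_ ha hb
  intro v hv
  obtain ⟨c, hc, d, hd, rfl⟩ := Submodule.mem_sup.1 hv
  exact ⟨c, Submodule.mem_sup_left hc, d, Submodule.mem_sup_right hd, rfl, ha0 c hc.1, hb0 d hd.2⟩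

namespace Data

theorem con_phi (d : Data k V W K L) {𝒟 : L → Set (Submodule k W)} (h𝒟 : d.red.Adapted 𝒟)
    (a : L × Bool) (j : ℕ) {C D : Submodule k V} (hC : C = d.hi a ⊓ d.op a (j + 1))
    {φ : W →ₗ[k] V ⧸ D} (h1 : ∀ u ∈ C, φ (d.p a u) = D.mkQ u)
    (h2 : ∀ w ∈ C.map (d.p a), (φ w = 0 ↔ w ∈ (d.hi a ⊓ d.op a j).map (d.p a))) :
    IsDec (induced (𝒟 a.1) ((d.hi a ⊓ d.op a j).map (d.p a)) (C.map (d.p a)) φ)
      (C.map D.mkQ) ∧
    Con C D (induced (𝒟 a.1) ((d.hi a ⊓ d.op a j).map (d.p a)) (C.map (d.p a)) φ) (d.p a)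
      (𝒟 a.1) := by
  have hc0 : Comp (𝒟 a.1) ((d.hi a ⊓ d.op a j).map (d.p a)) := h𝒟.comp a.1 a.2 j
  have hc1 : Comp (𝒟 a.1) (C.map (d.p a)) := by
    rw [hC]
    exact h𝒟.comp a.1 a.2 (j + 1)
  refine ⟨?_, con_induced (h𝒟.dec a.1) hc0 rfl h1 h2⟩
  have h3 : (C.map (d.p a)).map φ = C.map D.mkQ := by
    ext x
    constructor
    · rintro ⟨_, ⟨u, hu, rfl⟩, rfl⟩
      exact ⟨u, hu, (h1 u hu).symm⟩
    · rintro ⟨u, hu, rfl⟩
      exact ⟨_, ⟨u, hu, rfl⟩, h1 u hu⟩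
  rw [← h3]
  exact induced_dec (h𝒟.dec a.1) hc0 hc1 h2

theorem cell_false (d : Data k V W K L) (a : L × Bool) (h : d.eS a = false) (j : ℕ) :
    cell (d.fl (d.eK a) false) (d.fl (d.eK a) true) (d.eI a) j = d.hi a ⊓ d.op a (j + 1) ∧
    sub (d.fl (d.eK a) false) (d.fl (d.eK a) true) (d.eI a) j =
      (d.lo a ⊓ d.op a (j + 1)) ⊔ (d.hi a ⊓ d.op a j) := by
  simp only [cell, sub, hi, lo, op, h, Bool.not_false, and_self]

theorem cell_true (d : Data k V W K L) (a : L × Bool) (h : d.eS a = true) (j : ℕ) :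
    cell (d.fl (d.eK a) false) (d.fl (d.eK a) true) j (d.eI a) = d.hi a ⊓ d.op a (j + 1) ∧
    sub (d.fl (d.eK a) false) (d.fl (d.eK a) true) j (d.eI a) =
      (d.lo a ⊓ d.op a (j + 1)) ⊔ (d.hi a ⊓ d.op a j) := by
  simp only [cell, sub, hi, lo, op, h, Bool.not_true]
  refine ⟨inf_comm _ _, ?_⟩
  rw [sup_comm, inf_comm]
  congr 1
  rw [inf_comm]

theorem cell_lift (d : Data k V W K L) {𝒟 : L → Set (Submodule k W)} (h𝒟 : d.red.Adapted 𝒟)
    (i : K) (e f : ℕ) :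
    ∃ Q : Set (Submodule k V), (IndepMod Q (sub (d.fl i false) (d.fl i true) e f) ∧
      sSup Q ⊔ sub (d.fl i false) (d.fl i true) e f = cell (d.fl i false) (d.fl i true) e f ∧
      ⊥ ∉ Q) ∧
      ∀ S ∈ Q, (∀ a, d.eK a = i → d.eS a = false → d.eI a = e → S.map (d.p a) ∈ 𝒟 a.1) ∧
        (∀ b, d.eK b = i → d.eS b = true → d.eI b = f → S.map (d.p b) ∈ 𝒟 b.1) := by
  have hker : ∀ a, ∀ v ∈ d.lo a, d.p a v = 0 := fun a v hv => (d.ker a v (d.lo_le_hi a hv)).2 hv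
  by_cases ha : ∃ a, d.eK a = i ∧ d.eS a = false ∧ d.eI a = e
  · obtain ⟨a, rfl, haS, rfl⟩ := ha
    have hA0 : ∀ v ∈ d.fl (d.eK a) false (d.eI a), d.p a v = 0 := by
      intro v hv
      apply hker a
      unfold lo
      rw [haS]
      exact hv
    by_cases hb : ∃ b, d.eK b = d.eK a ∧ d.eS b = true ∧ d.eI b = f
    · obtain ⟨b, hbK, hbS, rfl⟩ := hb
      let q : d.Lk := ⟨(a, b), hbK.symm, haS, hbS⟩
      have hB0 : ∀ v ∈ d.fl (d.eK a) true (d.eI b), d.p b v = 0 := by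
        intro v hv
        apply hker b
        unfold lo
        rw [hbS, hbK]
        exact hv
      obtain ⟨hd1, hc1⟩ := d.con_phi h𝒟 a (d.eI b) (d.cc_eq (q, false)) (d.phi_spec (q, false))
        (d.phi_ker (q, false))
      obtain ⟨hd2, hc2⟩ := d.con_phi h𝒟 b (d.eI a) (d.cc_eq (q, true)) (d.phi_spec (q, true))
        (d.phi_ker (q, true))
      have hR : induced (𝒟 a.1) ((d.hi a ⊓ d.op a (d.eI b)).map (d.p a)) ((d.cc q).map (d.p a))
          (d.phi (q, false)) =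
          induced (𝒟 b.1) ((d.hi b ⊓ d.op b (d.eI a)).map (d.p b)) ((d.cc q).map (d.p b))
          (d.phi (q, true)) := by
        have h1 := h𝒟.link q
        have h2 : ∀ t, d.red.hi (q, t) = (d.cc q).map (d.p (pe (q, t))) := by
          intro t
          rw [d.cc_eq (q, t)]
          rfl
        rw [h2, h2] at h1
        have h3 : ∀ t, d.red.p (q, t) = (d.emb q).comp (d.phi (q, t)) := fun t => rfl
        rw [h3, h3, induced_map, induced_map] at h1
        exact (Submodule.map_injective_of_injective (d.emb_injective q)).image_injective h1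
      have hc2' : Con (d.cc q) (d.dd q) _ (d.p b) (𝒟 b.1) := hc2
      rw [← hR] at hc2'
      obtain ⟨Q, hQ1, hQ2, hQ3, hQ4⟩ := cellStep' (d.mono _ _) (d.mono _ _) _ _ hd1 hA0 hB0 hc1 hc2'
      refine ⟨Q, ⟨hQ1, hQ2, hQ3⟩, fun S hS => ⟨?_, ?_⟩⟩
      · intro a' h1 h2 h3
        have : a' = a := d.inj _ _ h1 (h2.trans haS.symm) h3
        subst this
        exact (hQ4 S hS).1
      · intro b' h1 h2 h3
        have : b' = b := d.inj _ _ (h1.trans hbK.symm) (h2.trans hbS.symm) h3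
        subst this
        exact (hQ4 S hS).2
    · obtain ⟨hCe, hDe⟩ := d.cell_false a haS f
      obtain ⟨φ, hφ1, hφ2⟩ := fac (d.ker a) (d.lo_le_hi a) (d.mono _ _ (Nat.le_succ _)) hCe hDe
      obtain ⟨hd1, hc1⟩ := d.con_phi h𝒟 a f hCe hφ1 hφ2
      obtain ⟨Q, hQ1, hQ2, hQ3, hQ4⟩ := cellStep' (d.mono _ _) (d.mono _ _) _ _ hd1 hA0
        (fun v _ => rfl) hc1 (con_zero hd1.sup)
      refine ⟨Q, ⟨hQ1, hQ2, hQ3⟩, fun S hS => ⟨?_, ?_⟩⟩
      · intro a' h1 h2 h3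
        have : a' = a := d.inj _ _ h1 (h2.trans haS.symm) h3
        subst this
        exact (hQ4 S hS).1
      · intro b h1 h2 h3
        exact absurd ⟨b, h1, h2, h3⟩ hb
  · by_cases hb : ∃ b, d.eK b = i ∧ d.eS b = true ∧ d.eI b = f
    · obtain ⟨b, rfl, hbS, rfl⟩ := hb
      have hB0 : ∀ v ∈ d.fl (d.eK b) true (d.eI b), d.p b v = 0 := by
        intro v hv
        apply hker b
        unfold lo
        rw [hbS]
        exact hv
      obtain ⟨hCe, hDe⟩ := d.cell_true b hbS e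
      obtain ⟨φ, hφ1, hφ2⟩ := fac (d.ker b) (d.lo_le_hi b) (d.mono _ _ (Nat.le_succ _)) hCe hDe
      obtain ⟨hd1, hc1⟩ := d.con_phi h𝒟 b e hCe hφ1 hφ2
      obtain ⟨Q, hQ1, hQ2, hQ3, hQ4⟩ := cellStep' (d.mono _ _) (d.mono _ _) _ _ hd1
        (fun v _ => rfl) hB0 (con_zero hd1.sup) hc1
      refine ⟨Q, ⟨hQ1, hQ2, hQ3⟩, fun S hS => ⟨?_, ?_⟩⟩
      · intro a h1 h2 h3
        exact absurd ⟨a, h1, h2, h3⟩ ha
      · intro b' h1 h2 h3
        have : b' = b := d.inj _ _ h1 (h2.trans hbS.symm) h3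
        subst this
        exact (hQ4 S hS).2
    · have hR := isDec_single ((cell (d.fl i false) (d.fl i true) e f).map
        (sub (d.fl i false) (d.fl i true) e f).mkQ)
      obtain ⟨Q, hQ1, hQ2, hQ3, hQ4⟩ := cellStep' (W := W) (d.mono _ _) (d.mono _ _) _ _ hR
        (fun v _ => rfl) (fun v _ => rfl) (con_zero hR.sup) (con_zero hR.sup)
      refine ⟨Q, ⟨hQ1, hQ2, hQ3⟩, fun S hS => ⟨?_, ?_⟩⟩
      · intro a h1 h2 h3
        exact absurd ⟨a, h1, h2, h3⟩ ha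
      · intro b h1 h2 h3
        exact absurd ⟨b, h1, h2, h3⟩ hb

theorem lift (d : Data k V W K L) {𝒟 : L → Set (Submodule k W)} (h𝒟 : d.red.Adapted 𝒟) :
    ∃ 𝒮 : K → Set (Submodule k V), d.Adapted 𝒮 := by
  choose Q hQ hQ2 using d.cell_lift h𝒟
  have hcells : ∀ i, IsCells (d.fl i false) (d.fl i true) (Q i) := fun i =>
    ⟨fun e f => (hQ i e f).1, fun e f => (hQ i e f).2.1, fun e f => (hQ i e f).2.2⟩
  have htop : ∀ i s, ∃ n, d.fl i s n = d.U i := fun i s =>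
    let ⟨n, hn⟩ := d.top; ⟨n, hn i s⟩
  have hboth := fun i => (hcells i).both (d.mono i false) (d.mono i true) (d.bot i false)
    (d.bot i true) (d.le i false) (d.le i true) (htop i false) (htop i true)
  have hcomp : ∀ i s n, Comp (allOf (Q i)) (d.fl i s n) := by
    intro i s n
    cases s
    · exact (hboth i).2.1 n
    · exact (hboth i).2.2 n
  have hlink : ∀ a : L × Bool,
      induced (allOf (Q (d.eK a))) (d.lo a) (d.hi a) (d.p a) = 𝒟 a.1 := by
    intro a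
    have h1 : IsDec (induced (allOf (Q (d.eK a))) (d.lo a) (d.hi a) (d.p a))
        ((d.hi a).map (d.p a)) :=
      induced_dec (hboth (d.eK a)).1 (hcomp _ _ _) (hcomp _ _ _) (d.ker a)
    have h2 : IsDec (𝒟 a.1) ((d.hi a).map (d.p a)) := by
      have h3 := d.map_hi a.1 a.2
      have h4 := h𝒟.dec a.1
      have h5 : d.red.U a.1 = (d.hi (a.1, false)).map (d.p (a.1, false)) := rfl
      rw [h5, ← h3] at h4
      exact h4
    refine h1.eq_of_subset h2 ?_
    rintro _ ⟨S, ⟨e, f, hS⟩, hS1, hS0, rfl⟩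
    cases hs : d.eS a
    · unfold hi at hS1
      unfold lo at hS0
      rw [hs] at hS1 hS0
      have he := (hcells _).index (d.mono _ _) hS hS1 hS0
      exact (hQ2 _ _ _ S hS).1 a rfl hs he.symm
    · unfold hi at hS1
      unfold lo at hS0
      rw [hs] at hS1 hS0
      have he := (hcells _).symm.index (d.mono _ _) hS hS1 hS0
      exact (hQ2 _ _ _ S hS).2 a rfl hs he.symm
  exact ⟨fun i => allOf (Q i), fun i => (hboth i).1, hcomp, fun l =>
    (hlink (l, false)).trans (hlink (l, true)).symm⟩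

end Data

end Pool.Agent.K6.H47.TS
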