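import Pool.Agent.K6.H47.TS.Bunch5

/-!
# The reduction terminates
-/

set_option autoImplicit false

namespace Pool.Agent.K6.H47.TS

theorem sq_sum_le {F : ℕ → ℕ} (hF : Monotone F) (_ : F 0 = 0) :
    ∀ N, ∑ n ∈ Finset.range N, (F (n + 1) - F n) ^ 2 ≤ F N ^ 2 := by
  intro N
  induction N with
  | zero => simp
  | succ N ih =>
    rw [Finset.sum_range_succ]
    obtain ⟨δ, hδ⟩ := Nat.exists_eq_add_of_le (hF (Nat.le_succ N))
    rw [Nat.succ_eq_add_one] at hδ
    rw [hδ, Nat.add_sub_cancel_left]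
    nlinarith [Nat.zero_le (F N), Nat.zero_le δ]

theorem sq_sum_add_le {F : ℕ → ℕ} (hF : Monotone F) (h0 : F 0 = 0) {m N : ℕ} (hm : m ≤ N) :
    ∑ n ∈ Finset.range N, (F (n + 1) - F n) ^ 2 + 2 * F m * (F N - F m) ≤ F N ^ 2 := by
  induction N, hm using Nat.le_induction with
  | base => simpa using sq_sum_le hF h0 m
  | succ N hN ih =>
    rw [Finset.sum_range_succ]
    obtain ⟨δ, hδ⟩ := Nat.exists_eq_add_of_le (hF (Nat.le_succ N))
    obtain ⟨ε, hε⟩ := Nat.exists_eq_add_of_le (hF hN)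
    rw [Nat.succ_eq_add_one] at hδ
    rw [hδ, Nat.add_sub_cancel_left]
    rw [hε] at ih hδ ⊢
    rw [Nat.add_sub_cancel_left] at ih
    rw [add_assoc (F m) ε δ, Nat.add_sub_cancel_left]
    nlinarith [Nat.zero_le (F m), Nat.zero_le ε, Nat.zero_le δ,
      Nat.zero_le (ε * δ), Nat.zero_le (F m * δ)]

theorem sq_sum_lt {F : ℕ → ℕ} (hF : Monotone F) (h0 : F 0 = 0) {m N : ℕ} (hm : m ≤ N)
    (h1 : 0 < F m) (h2 : F m < F N) :
    ∑ n ∈ Finset.range N, (F (n + 1) - F n) ^ 2 < F N ^ 2 := by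
  have h := sq_sum_add_le hF h0 hm
  have h3 : 0 < 2 * F m * (F N - F m) := by
    have : 0 < F N - F m := Nat.sub_pos_of_lt h2
    positivity
  omega

variable {k V W K L : Type} [Field k] [AddCommGroup V] [Module k V] [AddCommGroup W] [Module k W]

namespace Data

theorem finite_fl (d : Data k V W K L) (hf : ∀ i, Module.Finite k (d.U i)) (i : K) (s : Bool)
    (n : ℕ) : Module.Finite k (d.fl i s n) :=
  haveI := hf i
  Submodule.finiteDimensional_of_le (d.le i s n)

/-- dimensions of the steps of the flags -/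
noncomputable def F (d : Data k V W K L) (i : K) (s : Bool) (n : ℕ) : ℕ :=
  Module.finrank k (d.fl i s n)

theorem F_mono (d : Data k V W K L) (hf : ∀ i, Module.Finite k (d.U i)) (i : K) (s : Bool) :
    Monotone (d.F i s) := fun m n h =>
  haveI := d.finite_fl hf i s n
  Submodule.finrank_mono (d.mono i s h)

theorem F_zero (d : Data k V W K L) (i : K) (s : Bool) : d.F i s 0 = 0 := by
  unfold F
  rw [d.bot]
  exact finrank_bot k V

theorem finrank_piece (d : Data k V W K L) (hf : ∀ i, Module.Finite k (d.U i)) (a : L × Bool) :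
    Module.finrank k ((d.hi a).map (d.p a)) =
      d.F (d.eK a) (d.eS a) (d.eI a + 1) - d.F (d.eK a) (d.eS a) (d.eI a) := by
  have : Module.Finite k (d.hi a) := d.finite_fl hf (d.eK a) (d.eS a) (d.eI a + 1)
  have h1 := LinearMap.finrank_range_add_finrank_ker ((d.p a).domRestrict (d.hi a))
  have h2 : LinearMap.range ((d.p a).domRestrict (d.hi a)) = (d.hi a).map (d.p a) := by
    ext w
    constructor
    · rintro ⟨u, rfl⟩
      exact ⟨u.1, u.2, rfl⟩
    · rintro ⟨u, hu, rfl⟩
      exact ⟨⟨u, hu⟩, rfl⟩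
  have h3 : LinearMap.ker ((d.p a).domRestrict (d.hi a)) =
      (d.lo a).comap (d.hi a).subtype := by
    ext u
    exact d.ker a u.1 u.2
  have h4 := (Submodule.comapSubtypeEquivOfLe (d.lo_le_hi a)).finrank_eq
  rw [h2, h3, h4] at h1
  have h5 : Module.finrank k (d.lo a) = d.F (d.eK a) (d.eS a) (d.eI a) := rfl
  have h6 : Module.finrank k (d.hi a) = d.F (d.eK a) (d.eS a) (d.eI a + 1) := rfl
  rw [h5, h6] at h1
  omega

/-- the measure -/
noncomputable def Φ (d : Data k V W K L) [Fintype K] : ℕ :=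
  ∑ i, Module.finrank k (d.U i) ^ 2

theorem measure_lt (d : Data k V W K L) (hf : ∀ i, Module.Finite k (d.U i)) [Fintype K]
    [Fintype L] {i₀ : K} {s₀ : Bool} {m₀ : ℕ} (h0 : d.fl i₀ s₀ m₀ ≠ ⊥)
    (h1 : d.fl i₀ s₀ m₀ ≠ d.U i₀) : d.red.Φ < d.Φ := by
  classical
  obtain ⟨N, hN⟩ := d.top
  obtain ⟨M, hM⟩ : ∃ M, ∀ a, d.eI a < M := by
    obtain ⟨M, hM⟩ := (Set.finite_range d.eI).bddAbove
    exact ⟨M + 1, fun a => Nat.lt_succ_of_le (hM ⟨a, rfl⟩)⟩
  set T := N + M with hT
  have hFT : ∀ i s n, N ≤ n → d.F i s n = Module.finrank k (d.U i) := by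
    intro i s n hn
    have h2 : d.fl i s n = d.U i := le_antisymm (d.le i s n) (by rw [← hN i s]; exact d.mono i s hn)
    unfold F
    rw [h2]
  set G : K × Bool × ℕ → ℕ := fun x => (d.F x.1 x.2.1 (x.2.2 + 1) - d.F x.1 x.2.1 x.2.2) ^ 2
    with hG
  have e1 : 2 * d.red.Φ = ∑ a : L × Bool, G (d.eK a, d.eS a, d.eI a) := by
    rw [Fintype.sum_prod_type]
    unfold Φ
    rw [Finset.mul_sum]
    refine Finset.sum_congr rfl fun l _ => ?_
    rw [Fintype.sum_bool]
    have h2 : ∀ t, Module.finrank k (d.red.U l) =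
        d.F (d.eK (l, t)) (d.eS (l, t)) (d.eI (l, t) + 1) -
          d.F (d.eK (l, t)) (d.eS (l, t)) (d.eI (l, t)) := by
      intro t
      rw [← d.finrank_piece hf (l, t)]
      have h3 : d.red.U l = (d.hi (l, false)).map (d.p (l, false)) := rfl
      rw [h3, d.map_hi l t]
    simp only [hG]
    rw [← h2 true, ← h2 false, two_mul]
  have e2 : ∑ a : L × Bool, G (d.eK a, d.eS a, d.eI a) ≤
      ∑ x ∈ (Finset.univ : Finset K) ×ˢ ((Finset.univ : Finset Bool) ×ˢ Finset.range T), G x := by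
    rw [← Finset.sum_image (f := G) (g := fun a : L × Bool => (d.eK a, d.eS a, d.eI a))
      (s := Finset.univ)]
    · refine Finset.sum_le_sum_of_subset ?_
      intro x hx
      obtain ⟨a, _, rfl⟩ := Finset.mem_image.1 hx
      have := hM a
      simp only [Finset.mem_product, Finset.mem_univ, true_and, Finset.mem_range]
      omega
    · intro a _ b _ hab
      simp only [Prod.mk.injEq] at hab
      exact d.inj a b hab.1 hab.2.1 hab.2.2
  have e3 : ∑ x ∈ (Finset.univ : Finset K) ×ˢ ((Finset.univ : Finset Bool) ×ˢ Finset.range T), G x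
      = ∑ y : K × Bool, ∑ n ∈ Finset.range T, (d.F y.1 y.2 (n + 1) - d.F y.1 y.2 n) ^ 2 := by
    rw [Finset.sum_product, Fintype.sum_prod_type]
    refine Finset.sum_congr rfl fun i _ => ?_
    rw [Finset.sum_product]
  have e4 : ∑ y : K × Bool, ∑ n ∈ Finset.range T, (d.F y.1 y.2 (n + 1) - d.F y.1 y.2 n) ^ 2 <
      ∑ y : K × Bool, Module.finrank k (d.U y.1) ^ 2 := by
    refine Finset.sum_lt_sum (fun y _ => ?_) ⟨(i₀, s₀), Finset.mem_univ _, ?_⟩
    · have h2 := sq_sum_le (d.F_mono hf y.1 y.2) (d.F_zero _ _) T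
      rwa [hFT _ _ T (Nat.le_add_right N M)] at h2
    · have hmN : m₀ < N := by
        by_contra hcon
        apply h1
        exact le_antisymm (d.le _ _ _) (by rw [← hN i₀ s₀]; exact d.mono _ _ (not_lt.1 hcon))
      have := d.finite_fl hf i₀ s₀ m₀
      have := hf i₀
      have h2 : 0 < d.F i₀ s₀ m₀ := by
        rw [Nat.pos_iff_ne_zero]
        intro hcon
        exact h0 (Submodule.finrank_eq_zero.1 hcon)
      have h3 : d.F i₀ s₀ m₀ < d.F i₀ s₀ T := by
        rw [hFT _ _ T (Nat.le_add_right N M)]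
        exact Submodule.finrank_lt_finrank_of_lt (lt_of_le_of_ne (d.le _ _ _) h1)
      have h4 := sq_sum_lt (d.F_mono hf i₀ s₀) (d.F_zero _ _) (N := T) (by omega) h2 h3
      rwa [hFT _ _ T (Nat.le_add_right N M)] at h4
  have e5 : ∑ y : K × Bool, Module.finrank k (d.U y.1) ^ 2 = 2 * d.Φ := by
    rw [Fintype.sum_prod_type]
    unfold Φ
    rw [Finset.mul_sum]
    refine Finset.sum_congr rfl fun i _ => ?_
    rw [Fintype.sum_bool, two_mul]
  have := (e1.le.trans e2).trans_lt (e3.le.trans_lt (e4.trans_le e5.le))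
  omega

/-- the base case: all flags are trivial -/
theorem adapted_of_trivial (d : Data k V W K L)
    (h : ∀ i s n, d.fl i s n = ⊥ ∨ d.fl i s n = d.U i) :
    d.Adapted (fun i => {d.U i} \ {⊥}) := by
  have hlink : ∀ a, induced ({d.U (d.eK a)} \ {⊥}) (d.lo a) (d.hi a) (d.p a) =
      {(d.hi a).map (d.p a)} \ {⊥} := by
    intro a
    ext Z
    constructor
    · rintro ⟨S, ⟨hS, hne⟩, h1, h0, rfl⟩
      have hS' : S = d.U (d.eK a) := hS
      have h2 : d.hi a = S := by
        rcases h (d.eK a) (d.eS a) (d.eI a + 1) with h3 | h3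
        · exact absurd (le_bot_iff.1 (h3 ▸ h1)) hne
        · rw [hS']
          exact h3
      refine ⟨by rw [h2]; rfl, ?_⟩
      intro hb
      apply h0
      intro v hv
      rw [lo, ← d.ker a v (h1 hv)]
      have : d.p a v ∈ S.map (d.p a) := ⟨v, hv, rfl⟩
      rw [hb] at this
      exact (Submodule.mem_bot k).1 this
    · rintro ⟨hZ, hne⟩
      have hZ' : Z = (d.hi a).map (d.p a) := hZ
      have h2 : d.hi a ≠ ⊥ := by
        intro hb
        apply hne
        rw [hZ', hb, Submodule.map_bot]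
        rfl
      have h3 : d.hi a = d.U (d.eK a) := (h (d.eK a) (d.eS a) (d.eI a + 1)).resolve_left h2
      refine ⟨d.U (d.eK a), ⟨rfl, h3 ▸ h2⟩, h3.ge, ?_, by rw [hZ', h3]⟩
      intro hlo
      apply hne
      rw [hZ']
      refine map_eq_of_le (F0 := d.lo a) (F1 := d.hi a) (d.ker a) le_rfl ?_
      rw [h3]
      exact hlo
  refine ⟨fun i => isDec_single _, ?_, fun l => ?_⟩
  · intro i s n
    unfold Comp
    apply le_antisymm
    · exact sSup_le fun S hS => hS.2
    · rcases h i s n with h1 | h1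
      · rw [h1]; exact bot_le
      · rw [h1]
        by_cases h2 : d.U i = ⊥
        · rw [h2]; exact bot_le
        · exact le_sSup ⟨⟨rfl, h2⟩, le_rfl⟩
  · rw [hlink, hlink, d.map_hi l true]

end Data

theorem exists_adapted_aux (k : Type) [Field k] : ∀ (n : ℕ) (V W K L : Type) [AddCommGroup V]
    [Module k V] [AddCommGroup W] [Module k W] [Fintype K] [Fintype L] (d : Data k V W K L)
    (_ : ∀ i, Module.Finite k (d.U i)) (_ : d.Φ ≤ n),
    ∃ 𝒮 : K → Set (Submodule k V), d.Adapted 𝒮 := by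
  intro n
  induction n using Nat.strong_induction_on with
  | _ n ih =>
    intro V W K L _ _ _ _ _ _ d hf hn
    by_cases h : ∀ i s n, d.fl i s n = ⊥ ∨ d.fl i s n = d.U i
    · exact ⟨_, d.adapted_of_trivial h⟩
    · push Not at h
      obtain ⟨i, s, m, h0, h1⟩ := h
      have h2 := d.measure_lt hf h0 h1
      have : Finite d.Lk := Subtype.finite
      let : Fintype d.Lk := Fintype.ofFinite _
      have hf' : ∀ l, Module.Finite k (d.red.U l) := by
        intro l
        have : Module.Finite k (d.hi (l, false)) :=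
          d.finite_fl hf (d.eK (l, false)) (d.eS (l, false)) (d.eI (l, false) + 1)
        have h3 : Module.Finite k ((d.hi (l, false)).map (d.p (l, false))) :=
          Module.Finite.map _ _
        exact h3
      obtain ⟨𝒟, h𝒟⟩ := ih d.red.Φ (lt_of_lt_of_le h2 hn) W _ L d.Lk d.red hf' le_rfl
      exact d.lift h𝒟

theorem exists_adapted {k V W K L : Type} [Field k] [AddCommGroup V]
    [Module k V] [AddCommGroup W] [Module k W] [Fintype K] [Fintype L] (d : Data k V W K L)
    (hf : ∀ i, Module.Finite k (d.U i)) : ∃ 𝒮 : K → Set (Submodule k V), d.Adapted 𝒮 :=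
  exists_adapted_aux k _ V W K L d hf le_rfl

end Pool.Agent.K6.H47.TS
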