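import Mathlib

/-!
# Balmer spectra of finite dimensional Hopf algebras: definitions

Finite dimensional representations of an algebra, tame representation type, the Balmer spectrum of the
stable module category of a finite dimensional Hopf algebra (in terms of classes of finite dimensional
modules), and the Hopf algebra used as a counterexample.
-/

set_option autoImplicit false

namespace Pool.Agent.K6.H47.TS

open scoped TensorProduct
open Polynomial

/-! ### representations -/

/-- A finite dimensional representation of the `k`-algebra `A`, i.e. a finite dimensional left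
`A`-module. -/
structure Rep (k A : Type) [Field k] [Ring A] [Algebra k A] where
  V : Type
  [grp : AddCommGroup V]
  [mod : Module k V]
  [fin : Module.Finite k V]
  ρ : A →ₐ[k] Module.End k V

attribute [instance] Rep.grp Rep.mod Rep.fin

section algebra

variable {k A : Type} [Field k] [Ring A] [Algebra k A]

/-- `f` is a homomorphism of representations. -/
def IsHom (M N : Rep k A) (f : M.V →ₗ[k] N.V) : Prop := ∀ (a : A) (v : M.V), f (M.ρ a v) = N.ρ a (f v)

/-- `M` and `N` are isomorphic. -/
def Iso (M N : Rep k A) : Prop := ∃ e : M.V ≃ₗ[k] N.V, IsHom M N e.toLinearMap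

/-- The direct sum. -/
def sum (M N : Rep k A) : Rep k A where
  V := M.V × N.V
  ρ := (LinearMap.prodMapAlgHom k M.V N.V).comp (M.ρ.prod N.ρ)

/-- `M` is projective: a direct summand of a free module `A^n`. -/
def Projective (M : Rep k A) : Prop :=
  ∃ (n : ℕ) (i : M.V →ₗ[k] (Fin n → A)) (r : (Fin n → A) →ₗ[k] M.V),
    (∀ (a : A) (v : M.V), i (M.ρ a v) = a • i v) ∧
    (∀ (a : A) (w : Fin n → A), r (a • w) = M.ρ a (r w)) ∧ ∀ v, r (i v) = v

/-- `0 → L → M → N → 0` is an exact sequence of representations. -/
def ShortExact (L M N : Rep k A) (f : L.V →ₗ[k] M.V) (g : M.V →ₗ[k] N.V) : Prop :=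
  IsHom L M f ∧ IsHom M N g ∧ Function.Injective f ∧ Function.Surjective g ∧
    LinearMap.range f = LinearMap.ker g

/-- `M` is indecomposable: it is nonzero, and in every decomposition as a direct sum one of the two
summands is zero. -/
def Indecomposable (M : Rep k A) : Prop :=
  Nontrivial M.V ∧ ∀ N N' : Rep k A, Iso M (sum N N') → Subsingleton N.V ∨ Subsingleton N'.V

/-- The representation on `k^d` given by a homomorphism to the algebra of matrices. -/
noncomputable def ofMatrix {d : ℕ} (f : A →ₐ[k] Matrix (Fin d) (Fin d) k) : Rep k A where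
  V := Fin d → k
  ρ := (Matrix.toLinAlgEquiv' : Matrix (Fin d) (Fin d) k ≃ₐ[k] ((Fin d → k) →ₗ[k] (Fin d → k))).toAlgHom.comp f

/-- The member with parameter `c` of the one-parameter family of representations given by
a homomorphism to the algebra of matrices with entries in the polynomial ring `k[X]`. -/
noncomputable def member {d : ℕ} (F : A →ₐ[k] Matrix (Fin d) (Fin d) k[X]) (c : k) :
    A →ₐ[k] Matrix (Fin d) (Fin d) k := ((aeval c : k[X] →ₐ[k] k).mapMatrix).comp F

variable (k A)

/-- `A` is of finite representation type: there are finitely many isomorphism classes of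
indecomposable representations. -/
def RepFinite : Prop := ∃ (n : ℕ) (S : Fin n → Rep k A), ∀ M : Rep k A, Indecomposable M →
  ∃ i, Iso M (S i)

/-- `A` is of tame representation type (Drozd): it is not of finite representation type, and for
every `d` all but finitely many isomorphism classes of indecomposable representations of dimension `d`
belong to finitely many one-parameter families. -/
def Tame : Prop := ¬ RepFinite k A ∧ ∀ d : ℕ,
  ∃ (n : ℕ) (S : Fin n → (A →ₐ[k] Matrix (Fin d) (Fin d) k))
    (m : ℕ) (F : Fin m → (A →ₐ[k] Matrix (Fin d) (Fin d) k[X])),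
    ∀ M : Rep k A, Indecomposable M → Module.finrank k M.V = d →
      (∃ i, Iso M (ofMatrix (S i))) ∨ ∃ (i : Fin m) (c : k), Iso M (ofMatrix (member (F i) c))

end algebra

/-! ### the Balmer spectrum -/

section spectrum

variable {k A : Type} [Field k] [Ring A] [HopfAlgebra k A]

/-- The tensor product of two representations of a Hopf algebra: `A` acts through the
comultiplication. -/
noncomputable def tensor (M N : Rep k A) : Rep k A where
  V := M.V ⊗[k] N.V
  ρ := (Module.endTensorEndAlgHom (R := k) (S := k) (A := k) (M := M.V) (N := N.V)).comp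
    ((Algebra.TensorProduct.map M.ρ N.ρ).comp (Bialgebra.comulAlgHom k A))

/-- The class `P` of finite dimensional modules is (the class of the objects of) a thick
subcategory of the stable module category, closed under tensor products on both sides with arbitrary
objects: it is closed under isomorphisms, contains the projective modules (the zero objects of the
stable category), is closed under direct summands, if two of the modules in a short exact sequence are in
`P` then so is the third, and with `M` it contains `N ⊗ M` and `M ⊗ N` for all `N`. -/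
structure IsThickIdeal (P : Rep k A → Prop) : Prop where
  iso : ∀ M N : Rep k A, Iso M N → P M → P N
  projective : ∀ M : Rep k A, Projective M → P M
  summand : ∀ M N : Rep k A, P (sum M N) → P M
  right : ∀ (L M N : Rep k A) (f : L.V →ₗ[k] M.V) (g : M.V →ₗ[k] N.V), ShortExact L M N f g →
    P L → P M → P N
  middle : ∀ (L M N : Rep k A) (f : L.V →ₗ[k] M.V) (g : M.V →ₗ[k] N.V), ShortExact L M N f g →
    P L → P N → P M
  left : ∀ (L M N : Rep k A) (f : L.V →ₗ[k] M.V) (g : M.V →ₗ[k] N.V), ShortExact L M N f g →
    P M → P N → P L
  tensor_left : ∀ M N : Rep k A, P M → P (tensor N M)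
  tensor_right : ∀ M N : Rep k A, P M → P (tensor M N)

/-- `P` is a prime ideal of the stable module category. -/
def IsPrimeIdeal (P : Rep k A → Prop) : Prop :=
  IsThickIdeal P ∧ (∃ M, ¬ P M) ∧
    ∀ M N : Rep k A, (∀ L : Rep k A, P (tensor (tensor M L) N)) → P M ∨ P N

variable (k A)

/-- The Balmer spectrum of the stable module category of `A`: the set of its prime ideals. -/
def Spc : Type 1 := {P : Rep k A → Prop // IsPrimeIdeal P}

variable {k A}

/-- The support of a module: the prime ideals which do not contain it. -/
def supp (M : Rep k A) : Set (Spc k A) := {P | ¬ P.1 M}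

/-- The topology of the spectrum: the supports of the modules are a basis of the closed sets. -/
instance : TopologicalSpace (Spc k A) :=
  TopologicalSpace.generateFrom {O | ∃ M : Rep k A, O = (supp M)ᶜ}

end spectrum

attribute [local instance] MvPolynomial.gradedAlgebra in
/-- The projective line over `k` (with generic point), as a topological space. -/
abbrev ProjectiveLine (k : Type) [Field k] : Type :=
  ProjectiveSpectrum (MvPolynomial.homogeneousSubmodule (Fin 2) k)

/-! ### the algebra -/

/-- The relations. -/
structure Relations {B : Type*} [Ring B] (g h x y : B) : Prop where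
  gg : g * g = 1
  hh : h * h = 1
  gh : g * h = h * g
  gx : g * x = -(x * g)
  hx : h * x = -(x * h)
  gy : g * y = y * g
  hy : h * y = -(y * h)
  xx : x * x = 0
  yy : y * y = 0
  xy : x * y * x * y + y * x * y * x = 0

/-- The four generators. -/
inductive Gen
  | g | h | x | y

open FreeAlgebra in
/-- The relations of `Relations` in the free algebra. -/
inductive Rel (k : Type) [Field k] : FreeAlgebra k Gen → FreeAlgebra k Gen → Prop
  | gg : Rel k (ι k .g * ι k .g) 1
  | hh : Rel k (ι k .h * ι k .h) 1
  | gh : Rel k (ι k .g * ι k .h) (ι k .h * ι k .g)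
  | gx : Rel k (ι k .g * ι k .x) (-(ι k .x * ι k .g))
  | hx : Rel k (ι k .h * ι k .x) (-(ι k .x * ι k .h))
  | gy : Rel k (ι k .g * ι k .y) (ι k .y * ι k .g)
  | hy : Rel k (ι k .h * ι k .y) (-(ι k .y * ι k .h))
  | xx : Rel k (ι k .x * ι k .x) 0
  | yy : Rel k (ι k .y * ι k .y) 0
  | xy : Rel k (ι k .x * ι k .y * ι k .x * ι k .y + ι k .y * ι k .x * ι k .y * ι k .x) 0

/-- The algebra with generators `g, h, x, y` and the relations of `Relations`. -/
abbrev H (k : Type) [Field k] : Type := RingQuot (Rel k)

section H

variable (k : Type) [Field k]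

/-- the generators of `H k` -/
noncomputable def gen (a : Gen) : H k := RingQuot.mkAlgHom k (Rel k) (FreeAlgebra.ι k a)

theorem relations : Relations (gen k .g) (gen k .h) (gen k .x) (gen k .y) := by
  constructor
  · simpa [gen] using RingQuot.mkAlgHom_rel k (Rel.gg (k := k))
  · simpa [gen] using RingQuot.mkAlgHom_rel k (Rel.hh (k := k))
  · simpa [gen] using RingQuot.mkAlgHom_rel k (Rel.gh (k := k))
  · simpa [gen] using RingQuot.mkAlgHom_rel k (Rel.gx (k := k))
  · simpa [gen] using RingQuot.mkAlgHom_rel k (Rel.hx (k := k))
  · simpa [gen] using RingQuot.mkAlgHom_rel k (Rel.gy (k := k))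
  · simpa [gen] using RingQuot.mkAlgHom_rel k (Rel.hy (k := k))
  · simpa [gen] using RingQuot.mkAlgHom_rel k (Rel.xx (k := k))
  · simpa [gen] using RingQuot.mkAlgHom_rel k (Rel.yy (k := k))
  · simpa [gen] using RingQuot.mkAlgHom_rel k (Rel.xy (k := k))

/-- the values on the generators -/
def pick {B : Type*} (g h x y : B) : Gen → B
  | .g => g
  | .h => h
  | .x => x
  | .y => y

/-- The homomorphism given by elements which satisfy the relations. -/
noncomputable def lift {B : Type*} [Ring B] [Algebra k B] (g h x y : B)
    (r : Relations g h x y) : H k →ₐ[k] B :=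
  RingQuot.liftAlgHom k (s := Rel k) ⟨FreeAlgebra.lift k (pick g h x y), by
    intro a b hab
    cases hab
    · simpa [pick] using r.gg
    · simpa [pick] using r.hh
    · simpa [pick] using r.gh
    · simpa [pick] using r.gx
    · simpa [pick] using r.hx
    · simpa [pick] using r.gy
    · simpa [pick] using r.hy
    · simpa [pick] using r.xx
    · simpa [pick] using r.yy
    · simpa [pick] using r.xy⟩

theorem lift_gen {B : Type*} [Ring B] [Algebra k B] (g h x y : B)
    (r : Relations g h x y) (a : Gen) : lift k g h x y r (gen k a) = pick g h x y a := by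
  unfold lift gen
  rw [RingQuot.liftAlgHom_mkAlgHom_apply, FreeAlgebra.lift_ι_apply]

theorem hom_ext {B : Type*} [Semiring B] [Algebra k B] {f f' : H k →ₐ[k] B}
    (h : ∀ a : Gen, f (gen k a) = f' (gen k a)) : f = f' := by
  apply RingQuot.ringQuot_ext'
  apply FreeAlgebra.hom_ext
  funext a
  exact h a

end H

/-! ### normal forms of representations -/

/-- The shape of a normal form with `m` blocks of size `n`: the degrees of the blocks (in the group
`Z/2 × Z/2`), the blocks to which `x` and `y` map a given block (`none`: the block is killed), and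
the block on which `x` (`(false, b)`) or `y` (`(true, b)`) acts by a Jordan block instead of the identity
(`none`: there is no such block). -/
abbrev Shape (m : ℕ) : Type := (Fin m → ZMod 2 × ZMod 2) × (Fin m → Option (Fin m)) ×
  (Fin m → Option (Fin m)) × Option (Bool × Fin m)

/-- The sign of an element of `Z/2`. -/
def sgn {R : Type*} [Ring R] (a : ZMod 2) : R := if a = 0 then 1 else -1

/-- The Jordan block `e_j ↦ t e_j + e_{j+1}`. -/
def jordan {R : Type*} [CommRing R] (n : ℕ) (t : R) : Matrix (Fin n) (Fin n) R :=
  fun i j => if i = j then t else if (i : ℕ) = j + 1 then 1 else 0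

/-- The block matrix which maps the block `b` to the block `nx b`. -/
def opMat {R : Type*} [CommRing R] {m : ℕ} (n : ℕ) (nx : Fin m → Option (Fin m))
    (sp : Fin m → Prop) [DecidablePred sp] (t : R) : Matrix (Fin m × Fin n) (Fin m × Fin n) R :=
  fun p q => if nx q.1 = some p.1 then
    (if sp q.1 then jordan n t p.2 q.2 else if p.2 = q.2 then 1 else 0) else 0

/-- The matrices of `g, h, x, y` for a shape. -/
def shapeMat {R : Type*} [CommRing R] {m : ℕ} (n : ℕ) (s : Shape m) (t : R) :
    Gen → Matrix (Fin m × Fin n) (Fin m × Fin n) R
  | .g => Matrix.diagonal fun p => sgn (s.1 p.1).1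
  | .h => Matrix.diagonal fun p => sgn (s.1 p.1).2
  | .x => opMat n s.2.1 (fun b => s.2.2.2 = some (false, b)) t
  | .y => opMat n s.2.2.1 (fun b => s.2.2.2 = some (true, b)) t

/-- `M` has a normal form. -/
def HasNormalForm {k : Type} [Field k] (M : Rep k (H k)) : Prop :=
  ∃ (m n : ℕ) (s : Shape m) (c : k) (e : M.V ≃ₗ[k] (Fin m × Fin n → k)),
    ∀ (a : Gen) (v : M.V), e (M.ρ (gen k a) v) = (shapeMat n s c a).mulVec (e v)

end Pool.Agent.K6.H47.TS

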