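import Pool.Agent.K6.H47.TS.Defs

/-!
# Block decompositions (auxiliary definitions for the proof of tameness)
-/

set_option autoImplicit false

namespace Pool.Agent.K6.H47.TS

variable {k V B : Type} [Field k] [AddCommGroup V] [Module k V]

/-- `V` is the direct sum of the nonzero subspaces `N b`. -/
structure IsBlocks (N : B → Submodule k V) : Prop where
  indep : iSupIndep N
  top : ⨆ b, N b = ⊤
  ne : ∀ b, N b ≠ ⊥

/-- `x` kills the block `b` if `X b = none`, and maps it isomorphically to the block `c` if
`X b = some c`; different blocks are mapped to different blocks. -/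
structure IsOp (N : B → Submodule k V) (x : V →ₗ[k] V) (X : B → Option B) : Prop where
  zero : ∀ b, X b = none → ∀ v ∈ N b, x v = 0
  map : ∀ b c, X b = some c → (N b).map x = N c
  inj : ∀ b c, X b = some c → ∀ v ∈ N b, x v = 0 → v = 0
  inj' : ∀ b b' c, X b = some c → X b' = some c → b = b'

end Pool.Agent.K6.H47.TS
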