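import Pool.Agent.K6.H47.TS.Hopf

/-!
# Two modules without a common prime ideal
-/

set_option autoImplicit false

namespace Pool.Agent.K6.H47.TS

open scoped TensorProduct
open Polynomial

namespace GenP

/-- A linear map which commutes with the generators is a homomorphism. -/
theorem isHom_of_gen {k : Type} [Field k] {M N : Rep k (H k)} (f : M.V →ₗ[k] N.V)
    (h : ∀ (a : Gen) (v : M.V), f (M.ρ (gen k a) v) = N.ρ (gen k a) (f v)) : IsHom M N f := by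
  intro a
  obtain ⟨b, rfl⟩ := RingQuot.mkAlgHom_surjective k (Rel k) a
  induction b using FreeAlgebra.induction with
  | grade0 r =>
    intro v
    rw [AlgHom.commutes, AlgHom.commutes, AlgHom.commutes, Module.algebraMap_end_apply,
      Module.algebraMap_end_apply, map_smul]
  | grade1 b => exact h b
  | mul a b ha hb =>
    intro v
    rw [map_mul, map_mul, map_mul, Module.End.mul_apply, Module.End.mul_apply, ha, hb]
  | add a b ha hb =>
    intro v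
    rw [map_add, map_add, map_add, LinearMap.add_apply, LinearMap.add_apply, map_add, ha, hb]

section act

variable {k : Type} [Field k] (M N : Rep k (H k))

theorem tensor_apply (a : H k) (w : M.V ⊗[k] N.V) : (tensor M N).ρ a w =
    Module.endTensorEndAlgHom (R := k) (S := k) (A := k) (M := M.V) (N := N.V)
      (Algebra.TensorProduct.map M.ρ N.ρ (Coalgebra.comul (R := k) a)) w := rfl

theorem tensor_g (m : M.V) (n : N.V) : (tensor M N).ρ (gen k .g) (m ⊗ₜ[k] n : M.V ⊗[k] N.V) =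
    (M.ρ (gen k .g) m ⊗ₜ[k] N.ρ (gen k .g) n : M.V ⊗[k] N.V) := by
  rw [tensor_apply, comul_g]
  rfl

theorem tensor_h (m : M.V) (n : N.V) : (tensor M N).ρ (gen k .h) (m ⊗ₜ[k] n : M.V ⊗[k] N.V) =
    (M.ρ (gen k .h) m ⊗ₜ[k] N.ρ (gen k .h) n : M.V ⊗[k] N.V) := by
  rw [tensor_apply, comul_h]
  rfl

theorem tensor_x (m : M.V) (n : N.V) : (tensor M N).ρ (gen k .x) (m ⊗ₜ[k] n : M.V ⊗[k] N.V) =
    (M.ρ (gen k .x) m ⊗ₜ[k] n + M.ρ (gen k .g) m ⊗ₜ[k] N.ρ (gen k .x) n : M.V ⊗[k] N.V) := by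
  rw [tensor_apply, comul_x, map_add, map_add, LinearMap.add_apply]
  congr 1
  rw [Algebra.TensorProduct.map_tmul, map_one]
  rfl

theorem tensor_y (m : M.V) (n : N.V) : (tensor M N).ρ (gen k .y) (m ⊗ₜ[k] n : M.V ⊗[k] N.V) =
    (M.ρ (gen k .y) m ⊗ₜ[k] n + M.ρ (gen k .h) m ⊗ₜ[k] N.ρ (gen k .y) n : M.V ⊗[k] N.V) := by
  rw [tensor_apply, comul_y, map_add, map_add, LinearMap.add_apply]
  congr 1
  rw [Algebra.TensorProduct.map_tmul, map_one]
  rfl

end act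

section modules

variable (k : Type) [Field k]

/-- `v` in degree `(0, 0)`, `x v` in degree `(1, 1)`, `y = 0` -/
theorem relM : Relations (!![1, 0; 0, -1] : Matrix (Fin 2) (Fin 2) k) !![1, 0; 0, -1]
    !![0, 0; 1, 0] 0 := by
  constructor <;> ext i j <;> fin_cases i <;> fin_cases j <;> simp

/-- `u` in degree `(1, 1)`, `y u` in degree `(1, 0)`, `x = 0` -/
theorem relN : Relations (!![-1, 0; 0, -1] : Matrix (Fin 2) (Fin 2) k) !![-1, 0; 0, 1]
    0 !![0, 0; 1, 0] := by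
  constructor <;> ext i j <;> fin_cases i <;> fin_cases j <;> simp

/-- one dimensional in degree `(1, 1)` -/
theorem relS : Relations (-1 : Matrix (Fin 1) (Fin 1) k) (-1) 0 0 := by
  constructor <;> simp

/-- `v` in degree `(0, 0)`, `x v` in degree `(1, 1)`, `y x v` in degree `(1, 0)` -/
theorem relL : Relations (!![1, 0, 0; 0, -1, 0; 0, 0, -1] : Matrix (Fin 3) (Fin 3) k)
    !![1, 0, 0; 0, -1, 0; 0, 0, 1] !![0, 0, 0; 1, 0, 0; 0, 0, 0] !![0, 0, 0; 0, 0, 0; 0, 1, 0] := by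
  constructor <;> ext i j <;> fin_cases i <;> fin_cases j <;> simp

noncomputable def M : Rep k (H k) := ofMatrix (lift k _ _ _ _ (relM k))
noncomputable def N : Rep k (H k) := ofMatrix (lift k _ _ _ _ (relN k))
noncomputable def S : Rep k (H k) := ofMatrix (lift k _ _ _ _ (relS k))
noncomputable def L : Rep k (H k) := ofMatrix (lift k _ _ _ _ (relL k))

theorem act {d : ℕ} {G Hh X Y : Matrix (Fin d) (Fin d) k} (r : Relations G Hh X Y) (a : Gen)
    (v : Fin d → k) : (ofMatrix (lift k _ _ _ _ r)).ρ (gen k a) v =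
      (pick G Hh X Y a).mulVec v := by
  change Matrix.toLinAlgEquiv' (lift k _ _ _ _ r (gen k a)) v = _
  rw [lift_gen]
  rfl

theorem rho_eq {d : ℕ} {G Hh X Y : Matrix (Fin d) (Fin d) k} (r : Relations G Hh X Y) (a : Gen) :
    ((ofMatrix (lift k _ _ _ _ r)).ρ (gen k a) : (Fin d → k) →ₗ[k] (Fin d → k)) =
      Matrix.mulVecLin (pick G Hh X Y a) := by
  refine LinearMap.ext fun v => ?_
  exact act k r a v

theorem shift_exact : LinearMap.range (Matrix.mulVecLin (!![0, 0; 1, 0] : Matrix (Fin 2) (Fin 2) k)) =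
    LinearMap.ker (Matrix.mulVecLin (!![0, 0; 1, 0] : Matrix (Fin 2) (Fin 2) k)) := by
  ext v
  rw [LinearMap.mem_range, LinearMap.mem_ker]
  constructor
  · rintro ⟨w, rfl⟩
    ext i
    fin_cases i <;> simp [Matrix.mulVec, dotProduct, Fin.sum_univ_succ]
  · intro h
    have h0 : v 0 = 0 := by
      have := congrFun h 1
      simpa [Matrix.mulVec, dotProduct, Fin.sum_univ_succ] using this
    refine ⟨![v 1, 0], ?_⟩
    ext i
    fin_cases i <;> simp [Matrix.mulVec, dotProduct, Fin.sum_univ_succ, h0]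

theorem M_x : LinearMap.range ((M k).ρ (gen k .x)) = LinearMap.ker ((M k).ρ (gen k .x)) :=
  (congrArg LinearMap.range (rho_eq k (relM k) .x)).trans ((shift_exact k).trans
    (congrArg LinearMap.ker (rho_eq k (relM k) .x)).symm)

theorem N_y : LinearMap.range ((N k).ρ (gen k .y)) = LinearMap.ker ((N k).ρ (gen k .y)) :=
  (congrArg LinearMap.range (rho_eq k (relN k) .y)).trans ((shift_exact k).trans
    (congrArg LinearMap.ker (rho_eq k (relN k) .y)).symm)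

/-- `u ↦ (x v, 1)`, `y u ↦ (y x v, 0)` -/
noncomputable def f : (Fin 2 → k) →ₗ[k] (Fin 3 → k) × (Fin 1 → k) where
  toFun w := (![0, w 0, w 1], ![w 0])
  map_add' a b := by
    ext i
    · fin_cases i <;> simp
    · fin_cases i
      simp
  map_smul' c a := by
    ext i
    · fin_cases i <;> simp
    · fin_cases i
      simp

/-- `(v, 0) ↦ v`, `(x v, 0) ↦ x v`, `(y x v, 0) ↦ 0`, `(0, 1) ↦ - x v` -/
noncomputable def g : (Fin 3 → k) × (Fin 1 → k) →ₗ[k] (Fin 2 → k) where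
  toFun w := ![w.1 0, w.1 1 - w.2 0]
  map_add' a b := by
    ext i
    fin_cases i
    · simp
    · simp
      ring
  map_smul' c a := by
    ext i
    fin_cases i
    · simp
    · simp
      ring

theorem f_act (a : Gen) (v : Fin 2 → k) :
    ((pick !![1, 0, 0; 0, -1, 0; 0, 0, -1] !![1, 0, 0; 0, -1, 0; 0, 0, 1]
        !![0, 0, 0; 1, 0, 0; 0, 0, 0] !![0, 0, 0; 0, 0, 0; 0, 1, 0] a :
        Matrix (Fin 3) (Fin 3) k).mulVec (f k v).1,
      (pick (-1) (-1) 0 0 a : Matrix (Fin 1) (Fin 1) k).mulVec (f k v).2) =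
    f k ((pick !![-1, 0; 0, -1] !![-1, 0; 0, 1] 0 !![0, 0; 1, 0] a :
      Matrix (Fin 2) (Fin 2) k).mulVec v) := by
  refine Prod.ext (funext fun i => ?_) (funext fun i => ?_)
  · cases a <;> fin_cases i <;>
      simp [pick, f, Matrix.mulVec, dotProduct, Fin.sum_univ_succ]
  · cases a <;> fin_cases i <;>
      simp [pick, f, Matrix.mulVec, dotProduct, Fin.sum_univ_succ]

theorem g_act (a : Gen) (v : Fin 3 → k) (w : Fin 1 → k) :
    (pick !![1, 0; 0, -1] !![1, 0; 0, -1] !![0, 0; 1, 0] 0 a :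
      Matrix (Fin 2) (Fin 2) k).mulVec (g k (v, w)) =
    g k ((pick !![1, 0, 0; 0, -1, 0; 0, 0, -1] !![1, 0, 0; 0, -1, 0; 0, 0, 1]
        !![0, 0, 0; 1, 0, 0; 0, 0, 0] !![0, 0, 0; 0, 0, 0; 0, 1, 0] a :
        Matrix (Fin 3) (Fin 3) k).mulVec v,
      (pick (-1) (-1) 0 0 a : Matrix (Fin 1) (Fin 1) k).mulVec w) := by
  refine funext fun i => ?_
  cases a <;> fin_cases i <;>
    simp [pick, g, Matrix.mulVec, dotProduct, Fin.sum_univ_succ]
  all_goals ring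

theorem f_inj : Function.Injective (f k) := by
  intro v w hvw
  refine funext fun i => ?_
  fin_cases i
  · exact congrFun (congrArg Prod.fst hvw) 1
  · exact congrFun (congrArg Prod.fst hvw) 2

theorem g_surj : Function.Surjective (g k) := by
  intro v
  refine ⟨(![v 0, v 1, 0], 0), ?_⟩
  refine funext fun i => ?_
  fin_cases i <;> simp [g]

theorem range_f : LinearMap.range (f k) = LinearMap.ker (g k) := by
  refine Submodule.ext fun v => ?_
  obtain ⟨v, w⟩ := v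
  rw [LinearMap.mem_range, LinearMap.mem_ker]
  constructor
  · rintro ⟨u, hu⟩
    rw [← hu]
    refine funext fun i => ?_
    fin_cases i <;> simp [f, g]
  · intro h
    have h0 : v 0 = 0 := congrFun h 0
    have h1 : v 1 - w 0 = 0 := congrFun h 1
    refine ⟨![v 1, v 2], Prod.ext (funext fun i => ?_) (funext fun i => ?_)⟩
    · fin_cases i <;> simp [f, h0]
    · fin_cases i
      simp [f, sub_eq_zero.1 h1]

theorem exact : ShortExact (N k) (sum (L k) (S k)) (M k) (f k) (g k) := by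
  refine ⟨isHom_of_gen _ fun a v => ?_, isHom_of_gen _ fun a v => ?_, f_inj k, g_surj k, range_f k⟩
  · have e1 := act k (relN k) a v
    have e2 := act k (relL k) a (f k v).1
    have e3 := act k (relS k) a (f k v).2
    exact (congrArg (f k) e1).trans ((congrArg₂ Prod.mk e2 e3).trans (f_act k a v)).symm
  · obtain ⟨v, w⟩ := v
    have e1 := act k (relL k) a v
    have e2 := act k (relS k) a w
    have e3 := act k (relM k) a (g k (v, w))
    exact (congrArg (g k) (congrArg₂ Prod.mk e1 e2)).trans (e3.trans (g_act k a v w)).symm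

end modules

section trivial

variable {k : Type} [Field k]

theorem S_g (s : Fin 1 → k) : (S k).ρ (gen k .g) s = (-s : Fin 1 → k) := by
  have e : (-1 : Matrix (Fin 1) (Fin 1) k).mulVec s = -s := by
    simp [Matrix.neg_mulVec]
  exact (act k (relS k) .g s).trans e

theorem S_h (s : Fin 1 → k) : (S k).ρ (gen k .h) s = (-s : Fin 1 → k) := by
  have e : (-1 : Matrix (Fin 1) (Fin 1) k).mulVec s = -s := by
    simp [Matrix.neg_mulVec]
  exact (act k (relS k) .h s).trans e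

theorem S_x (s : Fin 1 → k) : (S k).ρ (gen k .x) s = (0 : Fin 1 → k) := by
  have e : (0 : Matrix (Fin 1) (Fin 1) k).mulVec s = 0 := by
    simp
  exact (act k (relS k) .x s).trans e

theorem S_y (s : Fin 1 → k) : (S k).ρ (gen k .y) s = (0 : Fin 1 → k) := by
  have e : (0 : Matrix (Fin 1) (Fin 1) k).mulVec s = 0 := by
    simp
  exact (act k (relS k) .y s).trans e

theorem SS_g (s t : Fin 1 → k) : (tensor (S k) (S k)).ρ (gen k .g)
    (s ⊗ₜ[k] t : (Fin 1 → k) ⊗[k] (Fin 1 → k)) = (s ⊗ₜ[k] t : (Fin 1 → k) ⊗[k] (Fin 1 → k)) := by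
  refine (tensor_g (S k) (S k) s t).trans ((congrArg₂ (fun a b : Fin 1 → k =>
    (a ⊗ₜ[k] b : (Fin 1 → k) ⊗[k] (Fin 1 → k))) (S_g s) (S_g t)).trans ?_)
  simp [TensorProduct.neg_tmul, TensorProduct.tmul_neg]

theorem SS_h (s t : Fin 1 → k) : (tensor (S k) (S k)).ρ (gen k .h)
    (s ⊗ₜ[k] t : (Fin 1 → k) ⊗[k] (Fin 1 → k)) = (s ⊗ₜ[k] t : (Fin 1 → k) ⊗[k] (Fin 1 → k)) := by
  refine (tensor_h (S k) (S k) s t).trans ((congrArg₂ (fun a b : Fin 1 → k =>
    (a ⊗ₜ[k] b : (Fin 1 → k) ⊗[k] (Fin 1 → k))) (S_h s) (S_h t)).trans ?_)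
  simp [TensorProduct.neg_tmul, TensorProduct.tmul_neg]

theorem SS_x (s t : Fin 1 → k) : (tensor (S k) (S k)).ρ (gen k .x)
    (s ⊗ₜ[k] t : (Fin 1 → k) ⊗[k] (Fin 1 → k)) = (0 : (Fin 1 → k) ⊗[k] (Fin 1 → k)) := by
  have e : ∀ a b c : Fin 1 → k, a = 0 → c = 0 →
      (a ⊗ₜ[k] t + b ⊗ₜ[k] c : (Fin 1 → k) ⊗[k] (Fin 1 → k)) = 0 := by
    rintro _ b _ rfl rfl
    simp
  exact (tensor_x (S k) (S k) s t).trans (e _ _ _ (S_x s) (S_x t))

theorem SS_y (s t : Fin 1 → k) : (tensor (S k) (S k)).ρ (gen k .y)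
    (s ⊗ₜ[k] t : (Fin 1 → k) ⊗[k] (Fin 1 → k)) = (0 : (Fin 1 → k) ⊗[k] (Fin 1 → k)) := by
  have e : ∀ a b c : Fin 1 → k, a = 0 → c = 0 →
      (a ⊗ₜ[k] t + b ⊗ₜ[k] c : (Fin 1 → k) ⊗[k] (Fin 1 → k)) = 0 := by
    rintro _ b _ rfl rfl
    simp
  exact (tensor_y (S k) (S k) s t).trans (e _ _ _ (S_y s) (S_y t))

/-- `S ⊗ S ⊗ Z` is isomorphic to `Z`. -/
theorem iso_SSZ (Z : Rep k (H k)) : Iso (tensor (tensor (S k) (S k)) Z) Z := by
  let e0 : (Fin 1 → k) ≃ₗ[k] k := LinearEquiv.funUnique (Fin 1) k k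
  let e1 : ((Fin 1 → k) ⊗[k] (Fin 1 → k)) ⊗[k] Z.V ≃ₗ[k] Z.V :=
    (TensorProduct.congr ((TensorProduct.congr e0 e0).trans (TensorProduct.lid k k))
      (LinearEquiv.refl k Z.V)).trans (TensorProduct.lid k Z.V)
  have he : ∀ (s t : Fin 1 → k) (z : Z.V), e1 ((s ⊗ₜ[k] t) ⊗ₜ[k] z) = (s 0 * t 0) • z := by
    intro s t z
    simp [e1, e0, LinearEquiv.funUnique]
  have key : ∀ a : Gen, e1.toLinearMap ∘ₗ ((tensor (tensor (S k) (S k)) Z).ρ (gen k a) :
      ((Fin 1 → k) ⊗[k] (Fin 1 → k)) ⊗[k] Z.V →ₗ[k] ((Fin 1 → k) ⊗[k] (Fin 1 → k)) ⊗[k] Z.V) =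
      (Z.ρ (gen k a)) ∘ₗ e1.toLinearMap := by
    intro a
    apply TensorProduct.ext_threefold
    intro (s : Fin 1 → k) (t : Fin 1 → k) z
    have h1 : ∀ w : ((Fin 1 → k) ⊗[k] (Fin 1 → k)) ⊗[k] Z.V,
        (tensor (tensor (S k) (S k)) Z).ρ (gen k a) ((s ⊗ₜ[k] t) ⊗ₜ[k] z :
          ((Fin 1 → k) ⊗[k] (Fin 1 → k)) ⊗[k] Z.V) = w →
        w = ((s ⊗ₜ[k] t) ⊗ₜ[k] Z.ρ (gen k a) z : ((Fin 1 → k) ⊗[k] (Fin 1 → k)) ⊗[k] Z.V) →
        e1 ((tensor (tensor (S k) (S k)) Z).ρ (gen k a) ((s ⊗ₜ[k] t) ⊗ₜ[k] z :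
          ((Fin 1 → k) ⊗[k] (Fin 1 → k)) ⊗[k] Z.V)) =
          Z.ρ (gen k a) (e1 ((s ⊗ₜ[k] t) ⊗ₜ[k] z)) := by
      intro w h1 h2
      exact (congrArg e1 (h1.trans h2)).trans ((he s t (Z.ρ (gen k a) z)).trans
        ((map_smul (Z.ρ (gen k a)) (s 0 * t 0) z).symm.trans
          (congrArg (Z.ρ (gen k a)) (he s t z).symm)))
    cases a
    · exact h1 _ (tensor_g (tensor (S k) (S k)) Z (s ⊗ₜ[k] t : (Fin 1 → k) ⊗[k] (Fin 1 → k)) z)
        (congrArg (fun u : (Fin 1 → k) ⊗[k] (Fin 1 → k) => u ⊗ₜ[k] Z.ρ (gen k .g) z) (SS_g s t))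
    · exact h1 _ (tensor_h (tensor (S k) (S k)) Z (s ⊗ₜ[k] t : (Fin 1 → k) ⊗[k] (Fin 1 → k)) z)
        (congrArg (fun u : (Fin 1 → k) ⊗[k] (Fin 1 → k) => u ⊗ₜ[k] Z.ρ (gen k .h) z) (SS_h s t))
    · refine h1 _ (tensor_x (tensor (S k) (S k)) Z (s ⊗ₜ[k] t : (Fin 1 → k) ⊗[k] (Fin 1 → k)) z)
        ((congrArg₂ (fun u w : (Fin 1 → k) ⊗[k] (Fin 1 → k) =>
          u ⊗ₜ[k] z + w ⊗ₜ[k] Z.ρ (gen k .x) z) (SS_x s t) (SS_g s t)).trans ?_)
      simp
    · refine h1 _ (tensor_y (tensor (S k) (S k)) Z (s ⊗ₜ[k] t : (Fin 1 → k) ⊗[k] (Fin 1 → k)) z)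
        ((congrArg₂ (fun u w : (Fin 1 → k) ⊗[k] (Fin 1 → k) =>
          u ⊗ₜ[k] z + w ⊗ₜ[k] Z.ρ (gen k .y) z) (SS_y s t) (SS_h s t)).trans ?_)
      simp
  exact ⟨e1, isHom_of_gen _ fun a v => LinearMap.congr_fun (key a) v⟩

/-- `L ⊕ S` is isomorphic to `S ⊕ L`. -/
theorem iso_swap (X Y : Rep k (H k)) : Iso (sum X Y) (sum Y X) :=
  ⟨LinearEquiv.prodComm k X.V Y.V, fun _ _ => rfl⟩

end trivial

end GenP

open GenP in
/-- Two modules, one exact for `x`, the other for `y`, which are not both in a prime ideal. -/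
theorem exists_modules (k : Type) [Field k] : ∃ M N : Rep k (H k),
    LinearMap.range (M.ρ (gen k .x)) = LinearMap.ker (M.ρ (gen k .x)) ∧
    LinearMap.range (N.ρ (gen k .y)) = LinearMap.ker (N.ρ (gen k .y)) ∧
    ∀ P : Rep k (H k) → Prop, IsPrimeIdeal P → ¬ (P M ∧ P N) := by
  refine ⟨GenP.M k, GenP.N k, M_x k, N_y k, fun P hP h => ?_⟩
  obtain ⟨hP1, ⟨Z, hZ⟩, -⟩ := hP
  have h1 : P (sum (GenP.L k) (GenP.S k)) := hP1.middle _ _ _ _ _ (exact k) h.2 h.1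
  have h2 : P (GenP.S k) := hP1.summand _ _ (hP1.iso _ _ (iso_swap _ _) h1)
  exact hZ (hP1.iso _ _ (iso_SSZ Z) (hP1.tensor_right _ _ (hP1.tensor_right _ _ h2)))

end Pool.Agent.K6.H47.TS
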