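import Pool.Agent.K6.H47.TS.Defs2

/-!
# The grading of a representation of `H k` (piece GRADE)
-/

set_option autoImplicit false

namespace Pool.Agent.K6.H47.TS

open scoped TensorProduct
open Polynomial

namespace Grade

theorem sgn_mul_self {R : Type*} [Ring R] (a : ZMod 2) : (sgn a : R) * sgn a = 1 := by
  unfold sgn
  split_ifs <;> simp

theorem zmod_cases : ∀ a : ZMod 2, a = 0 ∨ a = 1 := by decide

theorem sgn_zero {R : Type*} [Ring R] : (sgn (0 : ZMod 2) : R) = 1 := by simp [sgn]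

theorem sgn_one {R : Type*} [Ring R] : (sgn (1 : ZMod 2) : R) = -1 := by
  unfold sgn
  rw [if_neg (by decide)]

theorem sgn_add {R : Type*} [Ring R] (a b : ZMod 2) : (sgn (a + b) : R) = sgn a * sgn b := by
  have h : (1 : ZMod 2) + 1 = 0 := by decide
  rcases zmod_cases a with rfl | rfl <;> rcases zmod_cases b with rfl | rfl <;>
    simp [sgn_zero, sgn_one, h]

theorem sgn_ne {R : Type*} [Ring R] {a b : ZMod 2} (h : a ≠ b) : (sgn a : R) * sgn b = -1 := by
  rcases zmod_cases a with rfl | rfl <;> rcases zmod_cases b with rfl | rfl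
  · exact absurd rfl h
  · simp [sgn_zero, sgn_one]
  · simp [sgn_zero, sgn_one]
  · exact absurd rfl h

end Grade

open Grade in
theorem grading {k : Type} [Field k] (h2 : (2 : k) ≠ 0) (M : Rep k (H k)) :
    ∃ 𝒜 : ZMod 2 × ZMod 2 → Submodule k M.V, iSupIndep 𝒜 ∧ ⨆ γ, 𝒜 γ = ⊤ ∧
      (∀ γ, ∀ v ∈ 𝒜 γ, M.ρ (gen k .g) v = (sgn γ.1 : k) • v ∧ M.ρ (gen k .h) v = (sgn γ.2 : k) • v) ∧
      (∀ γ, ∀ v ∈ 𝒜 γ, M.ρ (gen k .x) v ∈ 𝒜 (γ + (1, 1))) ∧
      (∀ γ, ∀ v ∈ 𝒜 γ, M.ρ (gen k .y) v ∈ 𝒜 (γ + (0, 1))) := by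
  have h4 : (4 : k) ≠ 0 := by
    have : (4 : k) = 2 * 2 := by norm_num
    rw [this]
    exact mul_ne_zero h2 h2
  set G : Module.End k M.V := M.ρ (gen k .g) with hG
  set K : Module.End k M.V := M.ρ (gen k .h) with hK
  set X : Module.End k M.V := M.ρ (gen k .x) with hX
  set Y : Module.End k M.V := M.ρ (gen k .y) with hY
  have rel := relations k
  have gg : ∀ v, G (G v) = v := fun v => by
    have := congrArg M.ρ rel.gg
    rw [map_mul, map_one] at this
    exact congrArg (fun f : Module.End k M.V => f v) this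
  have hh : ∀ v, K (K v) = v := fun v => by
    have := congrArg M.ρ rel.hh
    rw [map_mul, map_one] at this
    exact congrArg (fun f : Module.End k M.V => f v) this
  have gh : ∀ v, G (K v) = K (G v) := fun v => by
    have := congrArg M.ρ rel.gh
    rw [map_mul, map_mul] at this
    exact congrArg (fun f : Module.End k M.V => f v) this
  have gx : ∀ v, G (X v) = - X (G v) := fun v => by
    have := congrArg M.ρ rel.gx
    rw [map_mul, map_neg, map_mul] at this
    exact congrArg (fun f : Module.End k M.V => f v) this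
  have hx : ∀ v, K (X v) = - X (K v) := fun v => by
    have := congrArg M.ρ rel.hx
    rw [map_mul, map_neg, map_mul] at this
    exact congrArg (fun f : Module.End k M.V => f v) this
  have gy : ∀ v, G (Y v) = Y (G v) := fun v => by
    have := congrArg M.ρ rel.gy
    rw [map_mul, map_mul] at this
    exact congrArg (fun f : Module.End k M.V => f v) this
  have hy : ∀ v, K (Y v) = - Y (K v) := fun v => by
    have := congrArg M.ρ rel.hy
    rw [map_mul, map_neg, map_mul] at this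
    exact congrArg (fun f : Module.End k M.V => f v) this
  let 𝒜 : ZMod 2 × ZMod 2 → Submodule k M.V := fun γ =>
    LinearMap.ker (G - (sgn γ.1 : k) • LinearMap.id) ⊓ LinearMap.ker (K - (sgn γ.2 : k) • LinearMap.id)
  have mem : ∀ γ v, v ∈ 𝒜 γ ↔ G v = (sgn γ.1 : k) • v ∧ K v = (sgn γ.2 : k) • v := by
    intro γ v
    simp only [𝒜, Submodule.mem_inf, LinearMap.mem_ker, LinearMap.sub_apply, LinearMap.smul_apply,
      LinearMap.id_apply, sub_eq_zero]
  let P : ZMod 2 × ZMod 2 → (M.V →ₗ[k] M.V) := fun γ =>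
    (4 : k)⁻¹ • ((LinearMap.id + (sgn γ.1 : k) • G) ∘ₗ (LinearMap.id + (sgn γ.2 : k) • K))
  have hP : ∀ γ v, P γ v = (4 : k)⁻¹ • (v + (sgn γ.2 : k) • K v + (sgn γ.1 : k) • (G v + (sgn γ.2 : k) • G (K v))) := by
    intro γ v
    simp only [P, LinearMap.smul_apply, LinearMap.comp_apply, LinearMap.add_apply, LinearMap.id_apply,
      map_add, map_smul]
    module
  have Pmem : ∀ γ v, P γ v ∈ 𝒜 γ := by
    intro γ v
    rw [mem, hP]
    have e1 := sgn_mul_self (R := k) γ.1
    have e2 := sgn_mul_self (R := k) γ.2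
    constructor
    · simp only [map_smul, map_add, gg]
      linear_combination (norm := module) (-(4 : k)⁻¹) • (e1 • (G v + (sgn γ.2 : k) • G (K v)))
    · simp only [map_smul, map_add, gh, hh]
      linear_combination (norm := module) (-(4 : k)⁻¹) • (e2 • (K v + (sgn γ.1 : k) • K (G v)))
  have Pev : ∀ γ j v, v ∈ 𝒜 j → P γ v = ((4 : k)⁻¹ * (1 + sgn γ.1 * sgn j.1) * (1 + sgn γ.2 * sgn j.2)) • v := by
    intro γ j v hv
    obtain ⟨a, b⟩ := (mem j v).1 hv
    rw [hP, b, map_smul, a]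
    module
  have Pid : ∀ γ v, v ∈ 𝒜 γ → P γ v = v := by
    intro γ v hv
    rw [Pev γ γ v hv, sgn_mul_self, sgn_mul_self]
    have : (4 : k)⁻¹ * (1 + 1) * (1 + 1) = 1 := by
      rw [mul_assoc]
      have h5 : ((1 : k) + 1) * (1 + 1) = 4 := by norm_num
      rw [h5, inv_mul_cancel₀ h4]
    rw [this, one_smul]
  have Pzero : ∀ γ j v, j ≠ γ → v ∈ 𝒜 j → P γ v = 0 := by
    intro γ j v hj hv
    rw [Pev γ j v hv]
    have : γ.1 ≠ j.1 ∨ γ.2 ≠ j.2 := by
      by_contra h
      push Not at h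
      exact hj (Prod.ext h.1.symm h.2.symm)
    rcases this with h | h
    · rw [sgn_ne h]
      simp
    · rw [sgn_ne h]
      simp
  have Psum : ∀ v, ∑ γ, P γ v = v := by
    intro v
    have h01 : ∀ f : ZMod 2 → M.V, ∑ i, f i = f 0 + f 1 := fun f => Fin.sum_univ_two f
    rw [Fintype.sum_prod_type, h01, h01, h01]
    simp only [hP, sgn_zero, sgn_one]
    have h5 : (4 : k)⁻¹ * 4 = 1 := inv_mul_cancel₀ h4
    linear_combination (norm := module) h5 • v
  refine ⟨𝒜, ?_, ?_, fun γ v hv => (mem γ v).1 hv, ?_, ?_⟩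
  · intro γ
    rw [Submodule.disjoint_def]
    intro v hv hv'
    have : (⨆ j, ⨆ (_ : j ≠ γ), 𝒜 j) ≤ LinearMap.ker (P γ) := by
      refine iSup_le fun j => iSup_le fun hj => ?_
      intro w hw
      rw [LinearMap.mem_ker]
      exact Pzero γ j w hj hw
    have h5 := this hv'
    rw [LinearMap.mem_ker, Pid γ v hv] at h5
    exact h5
  · rw [eq_top_iff]
    intro v _
    rw [← Psum v]
    exact Submodule.sum_mem _ fun γ _ => Submodule.mem_iSup_of_mem γ (Pmem γ v)
  · intro γ v hv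
    obtain ⟨a, b⟩ := (mem γ v).1 hv
    rw [mem]
    constructor
    · rw [gx, a, map_smul, Prod.fst_add, sgn_add]
      simp [sgn]
    · rw [hx, b, map_smul, Prod.snd_add, sgn_add]
      simp [sgn]
  · intro γ v hv
    obtain ⟨a, b⟩ := (mem γ v).1 hv
    rw [mem]
    constructor
    · rw [gy, a, map_smul, Prod.fst_add, sgn_add]
      simp [sgn]
    · rw [hy, b, map_smul, Prod.snd_add, sgn_add]
      simp [sgn]

end Pool.Agent.K6.H47.TS
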