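import Pool.Agent.K6.H47.TS.Hopf

/-!
# `H k` is finite dimensional, and freeness over `k[x]` and `k[y]`
-/

set_option autoImplicit false
set_option linter.unusedSimpArgs false
set_option linter.constructorNameAsVariable false

namespace Pool.Agent.K6.H47.TS

open scoped TensorProduct
open Polynomial

section words

variable {A : Type} [Ring A]

/-- the eight words in `x`, `y` -/
def words (x y : A) : Set A := {1, x, y, x * y, y * x, x * y * x, y * x * y, x * y * x * y}

/-- the group elements -/
def grp (g h : A) : Set A := {1, g, h, g * h}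

theorem words_finite (x y : A) : (words x y).Finite := by
  unfold words; exact Set.toFinite _

theorem grp_finite (g h : A) : (grp g h).Finite := by
  unfold grp; exact Set.toFinite _

variable {g h x y : A}

theorem words_x (r : Relations g h x y) (w : A) (hw : w ∈ words x y) :
    x * w = 0 ∨ x * w ∈ words x y := by
  have hxx' : ∀ a : A, x * (x * a) = 0 := fun a => by rw [← mul_assoc, r.xx, zero_mul]
  simp only [words, Set.mem_insert_iff, Set.mem_singleton_iff] at hw ⊢
  rcases hw with rfl | rfl | rfl | rfl | rfl | rfl | rfl | rfl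
  · right; right; left; rw [mul_one]
  · left; exact r.xx
  · right; right; right; right; left; rfl
  · left; exact hxx' _
  · right; right; right; right; right; right; left; rw [mul_assoc]
  · left; rw [mul_assoc]; exact hxx' _
  · right; right; right; right; right; right; right; right; simp only [mul_assoc]
  · left; simp only [mul_assoc]; exact hxx' _

theorem words_y (r : Relations g h x y) (w : A) (hw : w ∈ words x y) :
    y * w = 0 ∨ y * w ∈ words x y ∨ -(y * w) ∈ words x y := by
  have hyy' : ∀ a : A, y * (y * a) = 0 := fun a => by rw [← mul_assoc, r.yy, zero_mul]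
  have hxy : x * (y * (x * y)) = -(y * (x * (y * x))) := by
    have := r.xy
    simp only [mul_assoc] at this
    exact eq_neg_of_add_eq_zero_left this
  simp only [words, Set.mem_insert_iff, Set.mem_singleton_iff] at hw ⊢
  rcases hw with rfl | rfl | rfl | rfl | rfl | rfl | rfl | rfl
  · right; left; right; right; left; rw [mul_one]
  · right; left; right; right; right; right; left; rfl
  · left; exact r.yy
  · right; left; right; right; right; right; right; right; left; rw [mul_assoc]
  · left; exact hyy' _
  · right; right; right; right; right; right; right; right; right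
    simp only [mul_assoc]; rw [hxy]
  · left; rw [mul_assoc]; exact hyy' _
  · left; simp only [mul_assoc]; rw [hxy, mul_neg, hyy', neg_zero]

theorem words_g (r : Relations g h x y) (w : A) (hw : w ∈ words x y) :
    g * w = w * g ∨ g * w = -(w * g) := by
  have hgx' : ∀ a : A, g * (x * a) = -(x * (g * a)) := fun a => by
    rw [← mul_assoc, r.gx, neg_mul, mul_assoc]
  have hgy' : ∀ a : A, g * (y * a) = y * (g * a) := fun a => by
    rw [← mul_assoc, r.gy, mul_assoc]
  simp only [words, Set.mem_insert_iff, Set.mem_singleton_iff] at hw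
  rcases hw with rfl | rfl | rfl | rfl | rfl | rfl | rfl | rfl
  · left; rw [mul_one, one_mul]
  · right; exact r.gx
  · left; exact r.gy
  · right; rw [mul_assoc, hgx', r.gy]
  · right; rw [mul_assoc, hgy', r.gx, mul_neg]
  · left; simp only [mul_assoc]; rw [hgx', hgy', r.gx, mul_neg, mul_neg, neg_neg]
  · right; simp only [mul_assoc]; rw [hgy', hgx', r.gy, mul_neg]
  · left; simp only [mul_assoc]; rw [hgx', hgy', hgx', r.gy, mul_neg, mul_neg, neg_neg]

theorem words_h (r : Relations g h x y) (w : A) (hw : w ∈ words x y) :
    h * w = w * h ∨ h * w = -(w * h) := by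
  have hgx' : ∀ a : A, h * (x * a) = -(x * (h * a)) := fun a => by
    rw [← mul_assoc, r.hx, neg_mul, mul_assoc]
  have hgy' : ∀ a : A, h * (y * a) = -(y * (h * a)) := fun a => by
    rw [← mul_assoc, r.hy, neg_mul, mul_assoc]
  simp only [words, Set.mem_insert_iff, Set.mem_singleton_iff] at hw
  rcases hw with rfl | rfl | rfl | rfl | rfl | rfl | rfl | rfl
  · left; rw [mul_one, one_mul]
  · right; exact r.hx
  · right; exact r.hy
  · left; rw [mul_assoc, hgx', r.hy, mul_neg, neg_neg]
  · left; rw [mul_assoc, hgy', r.hx, mul_neg, neg_neg]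
  · right; simp only [mul_assoc]; rw [hgx', hgy', r.hx]; simp only [mul_neg, neg_neg]
  · right; simp only [mul_assoc]; rw [hgy', hgx', r.hy]; simp only [mul_neg, neg_neg]
  · left; simp only [mul_assoc]; rw [hgx', hgy', hgx', r.hy]; simp only [mul_neg, neg_neg]

theorem grp_g (r : Relations g h x y) (w : A) (hw : w ∈ grp g h) : g * w ∈ grp g h := by
  simp only [grp, Set.mem_insert_iff, Set.mem_singleton_iff] at hw ⊢
  rcases hw with rfl | rfl | rfl | rfl
  · right; left; rw [mul_one]
  · left; exact r.gg
  · right; right; right; rfl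
  · right; right; left; rw [← mul_assoc, r.gg, one_mul]

theorem grp_h (r : Relations g h x y) (w : A) (hw : w ∈ grp g h) : h * w ∈ grp g h := by
  simp only [grp, Set.mem_insert_iff, Set.mem_singleton_iff] at hw ⊢
  rcases hw with rfl | rfl | rfl | rfl
  · right; right; left; rw [mul_one]
  · right; right; right; rw [r.gh]
  · left; exact r.hh
  · right; left; rw [r.gh, ← mul_assoc, r.hh, one_mul]

open scoped Pointwise

variable {k : Type} [Field k] [Algebra k A]

theorem span_closed (r : Relations g h x y) (a : A) (ha : a = g ∨ a = h ∨ a = x ∨ a = y)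
    (s : A) (hs : s ∈ Submodule.span k (words x y * grp g h)) :
    a * s ∈ Submodule.span k (words x y * grp g h) := by
  induction hs using Submodule.span_induction with
  | zero => rw [mul_zero]; exact zero_mem _
  | add p q _ _ hp hq => rw [mul_add]; exact add_mem hp hq
  | smul c p _ hp => rw [mul_smul_comm]; exact Submodule.smul_mem _ _ hp
  | mem p hp =>
    obtain ⟨w, hw, u, hu, rfl⟩ := Set.mem_mul.mp hp
    rcases ha with ha | ha | ha | ha
    · subst ha
      rcases words_g r w hw with h1 | h1
      · rw [← mul_assoc, h1, mul_assoc]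
        exact Submodule.subset_span (Set.mul_mem_mul hw (grp_g r u hu))
      · rw [← mul_assoc, h1, neg_mul, mul_assoc]
        exact neg_mem (Submodule.subset_span (Set.mul_mem_mul hw (grp_g r u hu)))
    · subst ha
      rcases words_h r w hw with h1 | h1
      · rw [← mul_assoc, h1, mul_assoc]
        exact Submodule.subset_span (Set.mul_mem_mul hw (grp_h r u hu))
      · rw [← mul_assoc, h1, neg_mul, mul_assoc]
        exact neg_mem (Submodule.subset_span (Set.mul_mem_mul hw (grp_h r u hu)))
    · subst ha
      rcases words_x r w hw with h1 | h1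
      · rw [← mul_assoc, h1, zero_mul]; exact zero_mem _
      · rw [← mul_assoc]
        exact Submodule.subset_span (Set.mul_mem_mul h1 hu)
    · subst ha
      rcases words_y r w hw with h1 | h1 | h1
      · rw [← mul_assoc, h1, zero_mul]; exact zero_mem _
      · rw [← mul_assoc]
        exact Submodule.subset_span (Set.mul_mem_mul h1 hu)
      · rw [← mul_assoc, ← neg_neg (a * w), neg_mul]
        exact neg_mem (Submodule.subset_span (Set.mul_mem_mul h1 hu))

end words

/-- `H k` is finite dimensional. -/
theorem finite_H (k : Type) [Field k] : Module.Finite k (H k) := by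
  set g := gen k .g with hg
  set h := gen k .h with hh
  set x := gen k .x with hx
  set y := gen k .y with hy
  have r : Relations g h x y := relations k
  open scoped Pointwise in
  have key : ∀ a : H k, ∀ s ∈ Submodule.span k (words x y * grp g h),
      a * s ∈ Submodule.span k (words x y * grp g h) := by
    intro a
    induction a using H_induction with
    | hr c =>
      intro s hs
      rw [← Algebra.smul_def]
      exact Submodule.smul_mem _ _ hs
    | hg a =>
      intro s hs
      apply span_closed r _ _ s hs
      cases a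
      · left; rfl
      · right; left; rfl
      · right; right; left; rfl
      · right; right; right; rfl
    | hm a b ha hb =>
      intro s hs
      rw [mul_assoc]
      exact ha _ (hb _ hs)
    | ha a b ha hb =>
      intro s hs
      rw [add_mul]
      exact add_mem (ha _ hs) (hb _ hs)
  open scoped Pointwise in
  have h1 : (1 : H k) ∈ Submodule.span k (words x y * grp g h) := by
    apply Submodule.subset_span
    refine ⟨1, ?_, 1, ?_, mul_one 1⟩
    · simp [words]
    · simp [grp]
  refine ⟨⟨((words_finite x y).mul (grp_finite g h)).toFinset, ?_⟩⟩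
  rw [Set.Finite.coe_toFinset, eq_top_iff]
  intro a _
  have := key a 1 h1
  rwa [mul_one] at this

/-! ### freeness over `k[x]` and `k[y]` -/

section free

variable {A : Type} [Ring A]

theorem mat_ext {B : Type*} {a b : Matrix (Fin 2) (Fin 2) B} (h00 : a 0 0 = b 0 0)
    (h01 : a 0 1 = b 0 1) (h10 : a 1 0 = b 1 0) (h11 : a 1 1 = b 1 1) : a = b := by
  ext i j
  fin_cases i <;> fin_cases j
  · exact h00
  · exact h01
  · exact h10
  · exact h11

/-- upper triangular matrices -/
def ut (a b c : A) : Matrix (Fin 2) (Fin 2) A := !![a, b; 0, c]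

theorem ut_mul (a b c a' b' c' : A) :
    ut a b c * ut a' b' c' = ut (a * a') (a * b' + b * c') (c * c') := by
  apply mat_ext <;> simp [ut, Matrix.mul_apply, Fin.sum_univ_two]

theorem ut_add (a b c a' b' c' : A) :
    ut a b c + ut a' b' c' = ut (a + a') (b + b') (c + c') := by
  apply mat_ext <;> simp [ut]

theorem ut_neg (a b c : A) :
    -ut a b c = ut (-a) (-b) (-c) := by
  apply mat_ext <;> simp [ut]

theorem ut_one : (1 : Matrix (Fin 2) (Fin 2) A) = ut 1 0 1 := by
  apply mat_ext <;> simp [ut]

theorem ut_zero : (0 : Matrix (Fin 2) (Fin 2) A) = ut 0 0 0 := by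
  apply mat_ext <;> simp [ut]

theorem Relations.utx {g h x y : A} (r : Relations g h x y) :
    Relations (ut (-g) 0 g) (ut (-h) 0 h) (ut (-x) 1 x) (ut y 0 y) := by
  have hxy : x * (y * (x * y)) = -(y * (x * (y * x))) := by
    have := r.xy
    simp only [mul_assoc] at this
    exact eq_neg_of_add_eq_zero_left this
  have hyy' : ∀ a : A, y * (y * a) = 0 := fun a => by rw [← mul_assoc, r.yy, zero_mul]
  constructor <;>
  simp only [ut_mul, ut_add, ut_neg, ut_one, ut_zero, r.gg, r.hh, r.gh, r.gx, r.hx, r.gy, r.hy,
    r.xx, r.yy, hxy, hyy', mul_assoc, mul_neg, neg_mul, neg_neg, mul_zero, zero_mul, mul_one,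
    one_mul, add_zero, zero_add, neg_zero, add_neg_cancel, neg_add_cancel, add_mul, mul_add]

theorem Relations.uty {g h x y : A} (r : Relations g h x y) :
    Relations (ut g 0 g) (ut (-h) 0 h) (ut x 0 x) (ut (-y) 1 y) := by
  have hxy : x * (y * (x * y)) = -(y * (x * (y * x))) := by
    have := r.xy
    simp only [mul_assoc] at this
    exact eq_neg_of_add_eq_zero_left this
  have hxx' : ∀ a : A, x * (x * a) = 0 := fun a => by rw [← mul_assoc, r.xx, zero_mul]
  constructor <;>
  simp only [ut_mul, ut_add, ut_neg, ut_one, ut_zero, r.gg, r.hh, r.gh, r.gx, r.hx, r.gy, r.hy,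
    r.xx, r.yy, hxy, hxx', mul_assoc, mul_neg, neg_mul, neg_neg, mul_zero, zero_mul, mul_one,
    one_mul, add_zero, zero_add, neg_zero, add_neg_cancel, neg_add_cancel, add_mul, mul_add]

end free

theorem aux2 {B : Type*} [Ring B] (z a s : B) : -z * s + 1 * a + z * s = a := by
  rw [neg_mul, one_mul]; abel

theorem exists_s_aux (k : Type) [Field k] (F : H k →ₐ[k] Matrix (Fin 2) (Fin 2) (H k))
    (z : Gen) (hF : ∀ a : Gen, F (gen k a) 1 0 = 0 ∧ F (gen k a) 1 1 = gen k a)
    (hz : F (gen k z) 0 0 = -(gen k z)) (hz' : F (gen k z) 0 1 = 1) :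
    ∃ s : H k →ₗ[k] H k, ∀ a, s (gen k z * a) + gen k z * s a = a := by
  have key : ∀ a : H k, F a 1 0 = 0 ∧ F a 1 1 = a := by
    intro a
    induction a using H_induction with
    | hr c =>
      rw [AlgHom.commutes, Matrix.algebraMap_eq_diagonal]
      constructor <;> simp
    | hg a => exact hF a
    | hm a b ha hb =>
      rw [map_mul, Matrix.mul_apply, Matrix.mul_apply, Fin.sum_univ_two, Fin.sum_univ_two,
        ha.1, ha.2, hb.1, hb.2]
      constructor
      · rw [mul_zero, zero_mul, add_zero]
      · rw [zero_mul, zero_add]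
    | ha a b ha hb =>
      rw [map_add, Matrix.add_apply, Matrix.add_apply, ha.1, ha.2, hb.1, hb.2]
      exact ⟨add_zero 0, rfl⟩
  refine ⟨{ toFun := fun a => F a 0 1
            map_add' := fun a b => by rw [map_add, Matrix.add_apply]
            map_smul' := fun c a => by rw [map_smul, Matrix.smul_apply, RingHom.id_apply] }, ?_⟩
  intro a
  change F (gen k z * a) 0 1 + gen k z * F a 0 1 = a
  rw [map_mul, Matrix.mul_apply, Fin.sum_univ_two, hz, hz', (key a).2]
  exact aux2 _ _ _

theorem exists_sx (k : Type) [Field k] :
    ∃ s : H k →ₗ[k] H k, ∀ a, s (gen k .x * a) + gen k .x * s a = a := by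
  apply exists_s_aux k (lift k _ _ _ _ (relations k).utx) .x
  · intro a
    rw [lift_gen]
    cases a <;> exact ⟨rfl, rfl⟩
  · rw [lift_gen]; rfl
  · rw [lift_gen]; rfl

theorem exists_sy (k : Type) [Field k] :
    ∃ s : H k →ₗ[k] H k, ∀ a, s (gen k .y * a) + gen k .y * s a = a := by
  apply exists_s_aux k (lift k _ _ _ _ (relations k).uty) .y
  · intro a
    rw [lift_gen]
    cases a <;> exact ⟨rfl, rfl⟩
  · rw [lift_gen]; rfl
  · rw [lift_gen]; rfl

end Pool.Agent.K6.H47.TS
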