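import Pool.Agent.K6.H47.TS.Defs2

/-!
# Infinitely many indecomposable representations of `H k` of dimension four (piece INF)
-/

set_option autoImplicit false

namespace Pool.Agent.K6.H47.TS

open scoped TensorProduct
open Polynomial

namespace Inf

variable {k : Type} [Field k]

/-- the matrices of the four generators on `E_c`, basis `v0, v1, w0, w1` -/
def mg : Matrix (Fin 4) (Fin 4) k := !![1, 0, 0, 0; 0, -1, 0, 0; 0, 0, -1, 0; 0, 0, 0, 1]
def mh : Matrix (Fin 4) (Fin 4) k := !![1, 0, 0, 0; 0, 1, 0, 0; 0, 0, -1, 0; 0, 0, 0, -1]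
def mx : Matrix (Fin 4) (Fin 4) k := !![0, 0, 0, 0; 0, 0, 0, 0; 1, 0, 0, 0; 0, 1, 0, 0]
def my (c : k) : Matrix (Fin 4) (Fin 4) k := !![0, 0, 0, 0; 0, 0, 0, 0; 0, c, 0, 0; 1, 0, 0, 0]

theorem rel (c : k) : Relations (mg : Matrix (Fin 4) (Fin 4) k) mh mx (my c) := by
  constructor <;>
  · ext i j
    fin_cases i <;> fin_cases j <;>
      simp [mg, mh, mx, my, Matrix.mul_apply, Fin.sum_univ_four]

/-- the representation `E_c` -/
noncomputable def E (c : k) : Rep k (H k) := ofMatrix (lift k mg mh mx (my c) (rel c))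

theorem E_gen (c : k) (a : Gen) (v : Fin 4 → k) :
    (E c).ρ (gen k a) v = (pick mg mh mx (my c) a).mulVec v := by
  show (Matrix.toLinAlgEquiv' (lift k mg mh mx (my c) (rel c) (gen k a))) v = _
  rw [lift_gen]
  rfl

/-- every homomorphism between `E c` and `E d` is a scalar `a` with `a c = a d` -/
theorem hom_scalar (h2 : (2 : k) ≠ 0) (c d : k) (f : (Fin 4 → k) →ₗ[k] (Fin 4 → k))
    (hf : ∀ (a : Gen) (v : Fin 4 → k), f ((pick mg mh mx (my c) a).mulVec v) =
      (pick mg mh mx (my d) a).mulVec (f v)) :
    ∃ a : k, (∀ v : Fin 4 → k, f v = a • v) ∧ a * c = a * d := by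
  set A := LinearMap.toMatrix' f with hA
  have hfA : ∀ v, f v = A.mulVec v := fun v => by
    rw [hA, ← Matrix.toLin'_apply, Matrix.toLin'_toMatrix']
  have com : ∀ a : Gen, A * pick mg mh mx (my c) a = pick mg mh mx (my d) a * A := by
    intro a
    apply Matrix.toLin'.injective
    apply LinearMap.ext
    intro v
    rw [Matrix.toLin'_apply, Matrix.toLin'_apply, ← Matrix.mulVec_mulVec, ← Matrix.mulVec_mulVec,
      ← hfA, ← hfA, hf]
  have hg := com .g
  have hh := com .h
  have hx := com .x
  have hy := com .y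
  simp only [pick] at hg hh hx hy
  have z : ∀ t : k, 2 * t = 0 → t = 0 := fun t ht => (mul_eq_zero.1 ht).resolve_left h2
  have off : ∀ i j : Fin 4, i ≠ j → A i j = 0 := by
    intro i j hij
    have h1 := congrFun (congrFun hg i) j
    have h3 := congrFun (congrFun hh i) j
    fin_cases i <;> fin_cases j <;>
      first
      | exact absurd rfl hij
      | (simp [Matrix.mul_apply, Fin.sum_univ_four, mg, mh] at h1 h3 ⊢
         first
         | (apply z; linear_combination h1)
         | (apply z; linear_combination -h1)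
         | (apply z; linear_combination h3)
         | (apply z; linear_combination -h3))
  have e1 : A 2 2 = A 0 0 := by
    have := congrFun (congrFun hx 2) 0
    simpa [Matrix.mul_apply, Fin.sum_univ_four, mx] using this
  have e2 : A 3 3 = A 1 1 := by
    have := congrFun (congrFun hx 3) 1
    simpa [Matrix.mul_apply, Fin.sum_univ_four, mx] using this
  have e3 : A 3 3 = A 0 0 := by
    have := congrFun (congrFun hy 3) 0
    simpa [Matrix.mul_apply, Fin.sum_univ_four, my] using this
  have e4 : A 2 2 * c = d * A 1 1 := by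
    have := congrFun (congrFun hy 2) 1
    simpa [Matrix.mul_apply, Fin.sum_univ_four, my] using this
  refine ⟨A 0 0, fun v => ?_, ?_⟩
  · rw [hfA]
    funext i
    simp only [Matrix.mulVec, dotProduct, Pi.smul_apply, smul_eq_mul]
    rw [Finset.sum_eq_single i (fun j _ hj => by rw [off i j (Ne.symm hj), zero_mul])
      (fun h => absurd (Finset.mem_univ i) h)]
    congr 1
    fin_cases i
    · rfl
    · exact e2.symm.trans e3
    · exact e1
    · exact e3
  · rw [← e1, e4, ← e2, e3, e1]
    ring

theorem iso_symm {M N : Rep k (H k)} (h : Iso M N) : Iso N M := by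
  obtain ⟨e, he⟩ := h
  refine ⟨e.symm, fun a v => ?_⟩
  apply e.injective
  have := he a (e.symm v)
  simp only [LinearEquiv.coe_coe, LinearEquiv.apply_symm_apply] at this ⊢
  exact this.symm

theorem iso_trans {M N L : Rep k (H k)} (h : Iso M N) (h' : Iso N L) : Iso M L := by
  obtain ⟨e, he⟩ := h
  obtain ⟨e', he'⟩ := h'
  refine ⟨e.trans e', fun a v => ?_⟩
  have h1 := he a v
  have h3 := he' a (e v)
  simp only [LinearEquiv.coe_coe, LinearEquiv.trans_apply] at h1 h3 ⊢
  rw [h1, h3]

theorem eq_of_iso (h2 : (2 : k) ≠ 0) (c d : k) (h : Iso (E c) (E d)) : c = d := by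
  obtain ⟨e, he⟩ := h
  obtain ⟨a, h1, h3⟩ := hom_scalar h2 c d e.toLinearMap (fun b v => by
    have h5 := he (gen k b) v
    have h6 : e ((pick mg mh mx (my c) b).mulVec v) = e ((E c).ρ (gen k b) v) :=
      congrArg e (E_gen c b v).symm
    exact h6.trans (h5.trans (E_gen d b (e v))))
  have ha : a ≠ 0 := by
    rintro rfl
    have h5 : e (Pi.single 0 1 : Fin 4 → k) = e (0 : Fin 4 → k) := by
      have h6 := h1 (Pi.single 0 1)
      have h7 := h1 0
      rw [zero_smul] at h6 h7
      exact h6.trans h7.symm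
    have h8 := congrFun (e.injective h5) 0
    simp at h8
  exact mul_left_cancel₀ ha h3

theorem indecomposable (h2 : (2 : k) ≠ 0) (c : k) : Indecomposable (E c) := by
  refine ⟨?_, ?_⟩
  · show Nontrivial (Fin 4 → k)
    infer_instance
  · rintro N N' ⟨e, he⟩
    let p : (sum N N').V →ₗ[k] (sum N N').V := LinearMap.prodMap LinearMap.id 0
    have hp : IsHom (sum N N') (sum N N') p := by
      intro a v
      exact Prod.ext rfl (map_zero (N'.ρ a)).symm
    let f : (Fin 4 → k) →ₗ[k] (Fin 4 → k) := e.symm.toLinearMap ∘ₗ p ∘ₗ e.toLinearMap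
    obtain ⟨a, h1, -⟩ := hom_scalar h2 c c f (fun b v => by
      have h6 : e ((pick mg mh mx (my c) b).mulVec v) = e ((E c).ρ (gen k b) v) :=
        congrArg e (E_gen c b v).symm
      have h7 : p (e ((E c).ρ (gen k b) v)) = (sum N N').ρ (gen k b) (p (e v)) :=
        (congrArg p (he _ v)).trans (hp _ _)
      have h8 : e ((E c).ρ (gen k b) (e.symm (p (e v)))) = (sum N N').ρ (gen k b) (p (e v)) := by
        have h9 := he (gen k b) (e.symm (p (e v)))
        simp only [LinearEquiv.coe_coe, LinearEquiv.apply_symm_apply] at h9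
        exact h9
      have h10 : e.symm (p (e ((pick mg mh mx (my c) b).mulVec v))) =
          (E c).ρ (gen k b) (e.symm (p (e v))) := by
        apply e.injective
        exact (LinearEquiv.apply_symm_apply e _).trans (((congrArg p h6).trans h7).trans h8.symm)
      exact h10.trans (E_gen c b _))
    have h5 : ∀ w : (sum N N').V, p w = a • w := by
      intro w
      have h6 := h1 (e.symm w)
      have h7 : e.symm (p (e (e.symm w))) = a • e.symm w := h6
      rw [LinearEquiv.apply_symm_apply, ← map_smul] at h7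
      exact e.symm.injective h7
    by_cases ha : a = 0
    · left
      refine ⟨fun n m => ?_⟩
      have h8 : ∀ n : N.V, n = 0 := fun n => by
        have h10 : n = a • n := congrArg Prod.fst (h5 (n, 0))
        rw [h10, ha, zero_smul]
      rw [h8 n, h8 m]
    · right
      refine ⟨fun n m => ?_⟩
      have h8 : ∀ n : N'.V, n = 0 := fun n => by
        have h10 : (0 : N'.V) = a • n := congrArg Prod.snd (h5 (0, n))
        exact (smul_eq_zero.1 h10.symm).resolve_left ha
      rw [h8 n, h8 m]

end Inf

open Inf in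
theorem not_repFinite (k : Type) [Field k] [Infinite k] (h2 : (2 : k) ≠ 0) : ¬ RepFinite k (H k) := by
  rintro ⟨n, S, hS⟩
  choose i hi using fun c : k => hS (E c) (indecomposable h2 c)
  obtain ⟨c, d, hcd, h⟩ := Finite.exists_ne_map_eq_of_infinite i
  apply hcd
  apply eq_of_iso h2 c d
  refine iso_trans (hi c) ?_
  rw [h]
  exact iso_symm (hi d)

end Pool.Agent.K6.H47.TS
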