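import Pool.Agent.K6.H47.TS.Defs2

/-!
# The representations on which a primitive square-zero element acts exactly form a prime ideal

Piece PRIME (helper25).
-/

set_option autoImplicit false
namespace Pool.Agent.K6.H47.TS
open scoped TensorProduct
open Polynomial

namespace PrimeAux

variable {k A : Type} [Field k] [Ring A]

lemma sq_zero [Algebra k A] {x : A} (xx : x * x = 0) (M : Rep k A) (v : M.V) :
    M.ρ x (M.ρ x v) = 0 := by
  have : (M.ρ x * M.ρ x) v = 0 := by rw [← map_mul, xx, map_zero]; rfl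
  exact this

/-- exactness of an operator, in terms of elements -/
lemma exact_iff [Algebra k A] {x : A} (xx : x * x = 0) (M : Rep k A) :
    LinearMap.range (M.ρ x) = LinearMap.ker (M.ρ x) ↔ ∀ v, M.ρ x v = 0 → ∃ u, M.ρ x u = v := by
  constructor
  · intro h v hv
    have : v ∈ LinearMap.range (M.ρ x) := by rw [h]; exact hv
    exact this
  · intro h
    apply le_antisymm
    · rintro _ ⟨u, rfl⟩
      exact sq_zero xx M u
    · intro v hv
      exact h v hv

/-- an exact operator of square zero on a vector space has a contraction -/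
lemma contraction {V : Type} [AddCommGroup V] [Module k V] (X : V →ₗ[k] V)
    (h0 : ∀ v, X (X v) = 0) (h : ∀ v, X v = 0 → ∃ u, X u = v) :
    ∃ S : V →ₗ[k] V, ∀ v, X (S v) + S (X v) = v := by
  obtain ⟨S0, hS0⟩ := X.rangeRestrict.exists_rightInverse_of_surjective
    (LinearMap.range_rangeRestrict X)
  have e1 : ∀ w : LinearMap.range X, X (S0 w) = w := by
    intro w
    have := LinearMap.congr_fun hS0 w
    exact congrArg Subtype.val this
  let D : V →ₗ[k] LinearMap.range X := LinearMap.codRestrict (LinearMap.range X)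
    (LinearMap.id - S0 ∘ₗ X.rangeRestrict) (by
      intro v
      apply h
      show X (v - S0 (X.rangeRestrict v)) = 0
      rw [map_sub, e1]
      exact sub_self _)
  refine ⟨S0 ∘ₗ D, ?_⟩
  intro v
  have h1 : X ((S0 ∘ₗ D) v) = v - S0 (X.rangeRestrict v) := e1 (D v)
  have h2 : D (X v) = X.rangeRestrict v := by
    apply Subtype.ext
    show X v - S0 (X.rangeRestrict (X v)) = X v
    have : X.rangeRestrict (X v) = 0 := Subtype.ext (h0 v)
    rw [this, map_zero, sub_zero]
  have h3 : (S0 ∘ₗ D) (X v) = S0 (X.rangeRestrict v) := by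
    show S0 (D (X v)) = _
    rw [h2]
  rw [h1, h3, sub_add_cancel]

end PrimeAux

open PrimeAux

section

variable {k A : Type} [Field k] [Ring A] [HopfAlgebra k A]

namespace PrimeAux

/-- the action of `x` on the tensor product -/
noncomputable def opT (M N : Rep k A) (g x : A) : M.V ⊗[k] N.V →ₗ[k] M.V ⊗[k] N.V :=
  TensorProduct.map (M.ρ x) LinearMap.id + TensorProduct.map (M.ρ g) (N.ρ x)

lemma opT_tmul (M N : Rep k A) (g x : A) (a : M.V) (b : N.V) :
    opT M N g x (a ⊗ₜ[k] b) = (M.ρ x a) ⊗ₜ[k] b + (M.ρ g a) ⊗ₜ[k] (N.ρ x b) := rfl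

lemma tensor_rho {g x : A}
    (cx : Coalgebra.comul (R := k) x = x ⊗ₜ[k] 1 + g ⊗ₜ[k] x) (M N : Rep k A) :
    (tensor M N).ρ x = opT M N g x := by
  unfold tensor opT
  simp only [AlgHom.comp_apply, Bialgebra.comulAlgHom_apply, cx, map_add,
    Algebra.TensorProduct.map_tmul, Module.endTensorEndAlgHom_apply, map_one]
  rfl

/-- witnesses of non-exactness multiply -/
lemma data_tensor {g x : A}
    (cx : Coalgebra.comul (R := k) x = x ⊗ₜ[k] 1 + g ⊗ₜ[k] x) (M N : Rep k A)
    (hM : ∃ (u : M.V) (f : M.V →ₗ[k] k), M.ρ x u = 0 ∧ (∀ w, f (M.ρ x w) = 0) ∧ f u ≠ 0)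
    (hN : ∃ (u : N.V) (f : N.V →ₗ[k] k), N.ρ x u = 0 ∧ (∀ w, f (N.ρ x w) = 0) ∧ f u ≠ 0) :
    ∃ (u : (tensor M N).V) (f : (tensor M N).V →ₗ[k] k), (tensor M N).ρ x u = 0 ∧
      (∀ w, f ((tensor M N).ρ x w) = 0) ∧ f u ≠ 0 := by
  obtain ⟨u, f, h1, h2, h3⟩ := hM
  obtain ⟨v, f', h4, h5, h6⟩ := hN
  rw [tensor_rho cx]
  refine ⟨(u ⊗ₜ[k] v : M.V ⊗[k] N.V),
    (LinearMap.mul' k k ∘ₗ TensorProduct.map f f' : M.V ⊗[k] N.V →ₗ[k] k), ?_, ?_, ?_⟩
  · show opT M N g x (u ⊗ₜ[k] v) = 0
    rw [opT_tmul, h1, h4]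
    simp
  · show ∀ w : M.V ⊗[k] N.V, (LinearMap.mul' k k ∘ₗ TensorProduct.map f f') (opT M N g x w) = 0
    intro w
    induction w using TensorProduct.induction_on with
    | zero => simp
    | tmul a b =>
      rw [opT_tmul, map_add, LinearMap.comp_apply, LinearMap.comp_apply, TensorProduct.map_tmul,
        TensorProduct.map_tmul, LinearMap.mul'_apply, LinearMap.mul'_apply, h2, h5, zero_mul,
        mul_zero, add_zero]
    | add a b ha hb => rw [map_add, map_add, ha, hb, add_zero]
  · show (LinearMap.mul' k k ∘ₗ TensorProduct.map f f') (u ⊗ₜ[k] v) ≠ 0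
    rw [LinearMap.comp_apply, TensorProduct.map_tmul, LinearMap.mul'_apply]
    exact mul_ne_zero h3 h6

/-- the trivial representation -/
noncomputable def triv (k A : Type) [Field k] [Ring A] [HopfAlgebra k A] : Rep k A where
  V := k
  ρ := (Algebra.ofId k (Module.End k k)).comp (Bialgebra.counitAlgHom k A)

lemma triv_rho {x : A} (ex : Coalgebra.counit (R := k) x = 0) (v : (triv k A).V) :
    (triv k A).ρ x v = 0 := by
  have : (triv k A).ρ x = 0 := by
    show Algebra.ofId k (Module.End k k) (Coalgebra.counit (R := k) x) = 0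
    rw [ex, map_zero]
  rw [this]; rfl

end PrimeAux

theorem isPrime_exact {k A : Type} [Field k] [Ring A] [HopfAlgebra k A] (h2 : (2 : k) ≠ 0)
    (g x : A) (gg : g * g = 1) (gx : g * x = -(x * g)) (xx : x * x = 0)
    (cx : Coalgebra.comul (R := k) x = x ⊗ₜ[k] 1 + g ⊗ₜ[k] x) (ex : Coalgebra.counit (R := k) x = 0)
    (s : A →ₗ[k] A) (hs : ∀ a, s (x * a) + x * s a = a) :
    IsPrimeIdeal (fun M : Rep k A => LinearMap.range (M.ρ x) = LinearMap.ker (M.ρ x)) := by
  have GG : ∀ (M : Rep k A) (v : M.V), M.ρ g (M.ρ g v) = v := by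
    intro M v
    have : (M.ρ g * M.ρ g) v = v := by rw [← map_mul, gg, map_one]; rfl
    exact this
  have GX : ∀ (M : Rep k A) (v : M.V), M.ρ g (M.ρ x v) = - M.ρ x (M.ρ g v) := by
    intro M v
    have : (M.ρ g * M.ρ x) v = - (M.ρ x * M.ρ g) v := by
      rw [← map_mul, gx, map_neg, map_mul]; rfl
    exact this
  refine ⟨?_, ?_, ?_⟩
  · constructor
    · -- iso
      rintro M N ⟨e, he⟩ hM
      rw [exact_iff xx] at hM ⊢
      intro v hv
      have h1 : M.ρ x (e.symm v) = 0 := by
        apply e.injective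
        have := he x (e.symm v)
        simp only [LinearEquiv.coe_coe, LinearEquiv.apply_symm_apply] at this
        rw [this, hv, map_zero]
      obtain ⟨u, hu⟩ := hM _ h1
      refine ⟨e u, ?_⟩
      have := he x u
      simp only [LinearEquiv.coe_coe] at this
      rw [← this, hu, LinearEquiv.apply_symm_apply]
    · -- projective
      rintro M ⟨n, i, r, hi, hr, hri⟩
      rw [exact_iff xx]
      intro v hv
      have h1 : x • i v = 0 := by rw [← hi, hv, map_zero]
      have h3 : ∀ j, x * (i v j) = 0 := fun j => congrFun h1 j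
      have h4 : x • (fun j => s (i v j)) = i v := by
        funext j
        show x * s (i v j) = i v j
        have := hs (i v j)
        rw [h3 j, map_zero, zero_add] at this
        exact this
      refine ⟨r (fun j => s (i v j)), ?_⟩
      rw [← hr, h4, hri]
    · -- summand
      intro M N hMN
      rw [exact_iff xx] at hMN ⊢
      intro v hv
      obtain ⟨u, hu⟩ := hMN ((v, 0) : M.V × N.V) (by
        show ((M.ρ x v, N.ρ x 0) : M.V × N.V) = 0
        rw [hv, map_zero]; rfl)
      exact ⟨u.1, congrArg Prod.fst hu⟩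
    · -- right
      rintro L M N f q ⟨hf, hq, fi, qs, fq⟩ hL hM
      rw [exact_iff xx] at hL hM ⊢
      intro n hn
      obtain ⟨m, rfl⟩ := qs n
      have h1 : M.ρ x m ∈ LinearMap.ker q := by
        show q (M.ρ x m) = 0
        rw [hq x m, hn]
      rw [← fq] at h1
      obtain ⟨l, hl⟩ := h1
      have h3 : L.ρ x l = 0 := by
        apply fi
        rw [hf x l, hl, sq_zero xx, map_zero]
      obtain ⟨l', hl'⟩ := hL l h3
      have h4 : M.ρ x (m - f l') = 0 := by
        rw [map_sub, ← hf x l', hl', hl, sub_self]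
      obtain ⟨m', hm'⟩ := hM _ h4
      refine ⟨q m', ?_⟩
      have h5 : q (f l') = 0 := by
        have : f l' ∈ LinearMap.ker q := by rw [← fq]; exact ⟨l', rfl⟩
        exact this
      rw [← hq x m', hm', map_sub, h5, sub_zero]
    · -- middle
      rintro L M N f q ⟨hf, hq, fi, qs, fq⟩ hL hN
      rw [exact_iff xx] at hL hN ⊢
      intro m hm
      obtain ⟨n', hn'⟩ := hN (q m) (by rw [← hq x m, hm, map_zero])
      obtain ⟨m', rfl⟩ := qs n'
      have h1 : m - M.ρ x m' ∈ LinearMap.ker q := by
        show q (m - M.ρ x m') = 0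
        rw [map_sub, hq x m', hn', sub_self]
      rw [← fq] at h1
      obtain ⟨l, hl⟩ := h1
      have h3 : L.ρ x l = 0 := by
        apply fi
        rw [hf x l, hl, map_sub, hm, sq_zero xx, sub_zero, map_zero]
      obtain ⟨l', hl'⟩ := hL l h3
      refine ⟨f l' + m', ?_⟩
      rw [map_add, ← hf x l', hl', hl, sub_add_cancel]
    · -- left
      rintro L M N f q ⟨hf, hq, fi, qs, fq⟩ hM hN
      rw [exact_iff xx] at hM hN ⊢
      intro l hl
      obtain ⟨m, hm⟩ := hM (f l) (by rw [← hf x l, hl, map_zero])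
      have h5 : q (f l) = 0 := by
        have : f l ∈ LinearMap.ker q := by rw [← fq]; exact ⟨l, rfl⟩
        exact this
      obtain ⟨n', hn'⟩ := hN (q m) (by rw [← hq x m, hm, h5])
      obtain ⟨m', rfl⟩ := qs n'
      have h1 : m - M.ρ x m' ∈ LinearMap.ker q := by
        show q (m - M.ρ x m') = 0
        rw [map_sub, hq x m', hn', sub_self]
      rw [← fq] at h1
      obtain ⟨l', hl'⟩ := h1
      refine ⟨l', ?_⟩
      apply fi
      rw [hf x l', hl', map_sub, sq_zero xx, sub_zero, hm]
    · -- tensor_left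
      intro M N hM
      have hM' := (exact_iff xx M).mp hM
      obtain ⟨S, hS⟩ := contraction (M.ρ x) (sq_zero xx M) hM'
      rw [exact_iff xx]
      have key : ∀ t : N.V ⊗[k] M.V, opT N M g x (TensorProduct.map (N.ρ g) S t) +
          TensorProduct.map (N.ρ g) S (opT N M g x t) = t := by
        intro t
        induction t using TensorProduct.induction_on with
        | zero => simp
        | tmul a b =>
          simp only [opT_tmul, TensorProduct.map_tmul, map_add, LinearMap.id_apply,
            GG, GX]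
          rw [TensorProduct.neg_tmul]
          have := hS b
          calc _ = a ⊗ₜ[k] (M.ρ x (S b)) + a ⊗ₜ[k] (S (M.ρ x b)) := by abel
            _ = a ⊗ₜ[k] b := by rw [← TensorProduct.tmul_add, this]
        | add a b ha hb =>
          simp only [map_add]
          rw [add_add_add_comm, ha, hb]
      rw [tensor_rho cx]
      intro t ht
      refine ⟨TensorProduct.map (N.ρ g) S t, ?_⟩
      have h7 := key t
      have h8 : opT N M g x t = 0 := ht
      rw [h8, map_zero, add_zero] at h7
      exact h7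
    · -- tensor_right
      intro M N hM
      have hM' := (exact_iff xx M).mp hM
      obtain ⟨S, hS⟩ := contraction (M.ρ x) (sq_zero xx M) hM'
      rw [exact_iff xx]
      let S' : M.V →ₗ[k] M.V := (2 : k)⁻¹ • (S - (M.ρ g) ∘ₗ S ∘ₗ (M.ρ g))
      have hS' : ∀ v, M.ρ x (S' v) + S' (M.ρ x v) = v := by
        intro v
        have e1 := hS v
        have e2 := hS (M.ρ g v)
        have e3 : M.ρ g (M.ρ x (S (M.ρ g v)) + S (M.ρ x (M.ρ g v))) = v := by rw [e2, GG]
        rw [map_add, GX] at e3
        have e4 : M.ρ x (S' v) + S' (M.ρ x v) = (2 : k)⁻¹ • ((M.ρ x (S v) + S (M.ρ x v)) +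
            (- M.ρ x (M.ρ g (S (M.ρ g v))) + M.ρ g (S (M.ρ x (M.ρ g v))))) := by
          simp only [S', LinearMap.smul_apply, LinearMap.sub_apply, LinearMap.comp_apply,
            map_smul, map_sub, GX, map_neg]
          rw [← smul_add]
          congr 1
          abel
        rw [e4, e1, e3, ← two_smul k, smul_smul, inv_mul_cancel₀ h2, one_smul]
      have hG' : ∀ v, M.ρ g (S' v) + S' (M.ρ g v) = 0 := by
        intro v
        simp only [S', LinearMap.smul_apply, LinearMap.sub_apply, LinearMap.comp_apply,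
            map_smul, map_sub, GG]
        rw [← smul_add]
        have : M.ρ g (S v) - S (M.ρ g v) + (S (M.ρ g v) - M.ρ g (S v)) = 0 := by abel
        rw [this, smul_zero]
      have key : ∀ t : M.V ⊗[k] N.V, opT M N g x (TensorProduct.map S' LinearMap.id t) +
          TensorProduct.map S' LinearMap.id (opT M N g x t) = t := by
        intro t
        induction t using TensorProduct.induction_on with
        | zero => simp
        | tmul a b =>
          simp only [opT_tmul, TensorProduct.map_tmul, map_add, LinearMap.id_apply]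
          calc _ = (M.ρ x (S' a) + S' (M.ρ x a)) ⊗ₜ[k] b +
                (M.ρ g (S' a) + S' (M.ρ g a)) ⊗ₜ[k] (N.ρ x b) := by
                rw [TensorProduct.add_tmul, TensorProduct.add_tmul]; abel
            _ = a ⊗ₜ[k] b := by rw [hS', hG', TensorProduct.zero_tmul, add_zero]
        | add a b ha hb =>
          simp only [map_add]
          rw [add_add_add_comm, ha, hb]
      rw [tensor_rho cx]
      intro t ht
      refine ⟨TensorProduct.map S' LinearMap.id t, ?_⟩
      have h7 := key t
      have h8 : opT M N g x t = 0 := ht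
      rw [h8, map_zero, add_zero] at h7
      exact h7
  · -- proper
    refine ⟨triv k A, ?_⟩
    beta_reduce
    rw [exact_iff xx]
    intro h
    obtain ⟨u, hu⟩ := h (show (triv k A).V from (1 : k)) (triv_rho ex _)
    rw [triv_rho ex] at hu
    exact zero_ne_one (α := k) hu
  · -- prime
    intro M N h
    by_contra hcon
    beta_reduce at hcon h
    rw [not_or, exact_iff xx, exact_iff xx] at hcon
    obtain ⟨hM, hN⟩ := hcon
    push Not at hM hN
    obtain ⟨u, hu, hu'⟩ := hM
    obtain ⟨v, hv, hv'⟩ := hN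
    have hu2 : u ∉ LinearMap.range (M.ρ x) := by rintro ⟨w, hw⟩; exact hu' w hw
    have hv2 : v ∉ LinearMap.range (N.ρ x) := by rintro ⟨w, hw⟩; exact hv' w hw
    obtain ⟨f, hf, hf'⟩ := Submodule.exists_dual_map_eq_bot_of_notMem hu2 inferInstance
    obtain ⟨f', hf2, hf2'⟩ := Submodule.exists_dual_map_eq_bot_of_notMem hv2 inferInstance
    have f0 : ∀ w, f (M.ρ x w) = 0 := by
      intro w
      have : f (M.ρ x w) ∈ (LinearMap.range (M.ρ x)).map f := ⟨_, ⟨w, rfl⟩, rfl⟩
      rw [hf'] at this
      exact this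
    have f0' : ∀ w, f' (N.ρ x w) = 0 := by
      intro w
      have : f' (N.ρ x w) ∈ (LinearMap.range (N.ρ x)).map f' := ⟨_, ⟨w, rfl⟩, rfl⟩
      rw [hf2'] at this
      exact this
    have d1 := data_tensor cx M (triv k A) ⟨u, f, hu, f0, hf⟩
      ⟨(show (triv k A).V from (1 : k)), (LinearMap.id : k →ₗ[k] k), triv_rho ex _, by
        intro w; rw [triv_rho ex]; exact map_zero _, one_ne_zero (α := k)⟩
    obtain ⟨w, F, e1, e2, e3⟩ := data_tensor cx (tensor M (triv k A)) N d1 ⟨v, f', hv, f0', hf2⟩
    have hL := h (triv k A)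
    rw [exact_iff xx] at hL
    obtain ⟨z, hz⟩ := hL w e1
    exact e3 (by rw [← hz]; exact e2 z)

end

end Pool.Agent.K6.H47.TS
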