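import Pool.Agent.K6.H47.TS.Defs2

/-! Piece RED for MP_868e2f_al: a reducible spectrum is not homeomorphic to the projective line. -/

set_option autoImplicit false
namespace Pool.Agent.K6.H47.TS
open scoped TensorProduct
open Polynomial

namespace RedP

attribute [local instance] MvPolynomial.gradedAlgebra

variable (k : Type) [Field k]

/-- The generic point of the projective line. -/
noncomputable def eta : ProjectiveLine k where
  asHomogeneousIdeal := ⊥
  isPrime := by
    rw [HomogeneousIdeal.toIdeal_bot]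
    exact Ideal.isPrime_bot
  not_irrelevant_le := by
    intro hle
    have h1 : (MvPolynomial.X 0 : MvPolynomial (Fin 2) k) ∈
        HomogeneousIdeal.irrelevant (MvPolynomial.homogeneousSubmodule (Fin 2) k) := by
      rw [HomogeneousIdeal.mem_irrelevant_iff, GradedRing.proj_apply,
        DirectSum.decompose_of_mem_ne (i := 1) (j := 0) _
          ((MvPolynomial.mem_homogeneousSubmodule 1 _).mpr (MvPolynomial.isHomogeneous_X k 0))
          one_ne_zero]
    have h2 := hle h1
    have h3 : (MvPolynomial.X 0 : MvPolynomial (Fin 2) k) ∈ (⊥ : Ideal (MvPolynomial (Fin 2) k)) := by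
      rw [← HomogeneousIdeal.toIdeal_bot (𝒜 := MvPolynomial.homogeneousSubmodule (Fin 2) k)]
      exact h2
    exact MvPolynomial.X_ne_zero (R := k) (0 : Fin 2) (Ideal.mem_bot.mp h3)

lemma eta_mem (O : Set (ProjectiveLine k)) (hO : IsOpen O) (hne : O.Nonempty) : eta k ∈ O := by
  by_contra hcon
  obtain ⟨s, hs⟩ := (ProjectiveSpectrum.isOpen_iff _ O).mp hO
  have h1 : eta k ∈ Oᶜ := hcon
  rw [hs, ProjectiveSpectrum.mem_zeroLocus] at h1
  obtain ⟨z, hz⟩ := hne
  have h2 : z ∈ Oᶜ := by
    rw [hs, ProjectiveSpectrum.mem_zeroLocus]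
    intro f hf
    have h3 : f ∈ (⊥ : Ideal (MvPolynomial (Fin 2) k)) := by
      rw [← HomogeneousIdeal.toIdeal_bot (𝒜 := MvPolynomial.homogeneousSubmodule (Fin 2) k)]
      exact h1 hf
    rw [Ideal.mem_bot.mp h3]
    exact zero_mem z.asHomogeneousIdeal.toIdeal
  exact h2 hz

end RedP

open RedP in
theorem not_homeomorphic {k A : Type} [Field k] [Ring A] [HopfAlgebra k A] (P Q : Spc k A)
    (M N : Rep k A) (hM : P.1 M) (hN : Q.1 N) (h : ∀ R : Spc k A, ¬ (R.1 M ∧ R.1 N)) :
    IsEmpty (Spc k A ≃ₜ ProjectiveLine k) := by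
  refine ⟨fun e => ?_⟩
  have hop : ∀ (L : Rep k A), IsOpen ((supp L)ᶜ : Set (Spc k A)) := fun L =>
    TopologicalSpace.isOpen_generateFrom_of_mem ⟨L, rfl⟩
  have hmem : ∀ (L : Rep k A) (R : Spc k A), R ∈ ((supp L)ᶜ : Set (Spc k A)) ↔ R.1 L := by
    intro L R
    simp [supp]
  have key : ∀ (L : Rep k A) (R : Spc k A), R.1 L → (e.symm (eta k)).1 L := by
    intro L R hR
    have h1 : IsOpen (e '' ((supp L)ᶜ : Set (Spc k A))) := e.isOpenMap _ (hop L)
    have h2 := eta_mem k _ h1 ⟨e R, R, (hmem L R).mpr hR, rfl⟩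
    obtain ⟨R', hR', hR''⟩ := h2
    have h3 : R' = e.symm (eta k) := by rw [← hR'', Homeomorph.symm_apply_apply]
    rw [← h3]
    exact (hmem L R').mp hR'
  exact h _ ⟨key M P hM, key N Q hN⟩

end Pool.Agent.K6.H47.TS
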