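import Pool.Agent.K6.H47.TS.Defs2

/-!
# Normal forms of bounded dimension lie in finitely many one-parameter families
-/

set_option autoImplicit false
namespace Pool.Agent.K6.H47.TS
open scoped TensorProduct
open Polynomial

/-- Relations are preserved by ring homomorphisms. -/
theorem Relations.map {B C : Type*} [Ring B] [Ring C] (f : B →+* C) {g h x y : B}
    (r : Relations g h x y) : Relations (f g) (f h) (f x) (f y) := by
  constructor
  · rw [← map_mul, r.gg, map_one]
  · rw [← map_mul, r.hh, map_one]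
  · rw [← map_mul, r.gh, map_mul]
  · rw [← map_mul, r.gx, map_neg, map_mul]
  · rw [← map_mul, r.hx, map_neg, map_mul]
  · rw [← map_mul, r.gy, map_mul]
  · rw [← map_mul, r.hy, map_neg, map_mul]
  · rw [← map_mul, r.xx, map_zero]
  · rw [← map_mul, r.yy, map_zero]
  · simp only [← map_mul, ← map_add]
    rw [r.xy, map_zero]

/-- The matrices of a shape satisfy the relations. -/
abbrev Good {R : Type*} [CommRing R] {m : ℕ} (n : ℕ) (s : Shape m) (t : R) : Prop :=
  Relations (shapeMat n s t .g) (shapeMat n s t .h) (shapeMat n s t .x) (shapeMat n s t .y)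

theorem map_sgn {R S : Type*} [Ring R] [Ring S] (f : R →+* S) (a : ZMod 2) :
    f (sgn a) = sgn a := by
  unfold sgn
  split_ifs <;> simp

theorem map_jordan {R S : Type*} [CommRing R] [CommRing S] (f : R →+* S) (n : ℕ) (t : R)
    (i j : Fin n) : f (jordan n t i j) = jordan n (f t) i j := by
  unfold jordan
  split_ifs <;> simp

theorem map_shapeMat {R S : Type*} [CommRing R] [CommRing S] (f : R →+* S) {m : ℕ} (n : ℕ)
    (s : Shape m) (t : R) (a : Gen) :
    f.mapMatrix (shapeMat n s t a) = shapeMat n s (f t) a := by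
  ext p q
  cases a
  · simp only [shapeMat, RingHom.mapMatrix_apply, Matrix.map_apply, Matrix.diagonal_apply]
    split_ifs
    · rw [map_sgn]
    · simp
  · simp only [shapeMat, RingHom.mapMatrix_apply, Matrix.map_apply, Matrix.diagonal_apply]
    split_ifs
    · rw [map_sgn]
    · simp
  · simp only [shapeMat, RingHom.mapMatrix_apply, Matrix.map_apply, opMat]
    split_ifs <;> simp [map_jordan]
  · simp only [shapeMat, RingHom.mapMatrix_apply, Matrix.map_apply, opMat]
    split_ifs <;> simp [map_jordan]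

theorem mat_eq_of_infinite {k ι : Type*} [Field k] (A B : Matrix ι ι k[X])
    (h : {c : k | ∀ i j, eval c (A i j) = eval c (B i j)}.Infinite) : A = B := by
  ext1 i j
  apply Polynomial.eq_of_infinite_eval_eq
  exact h.mono fun c (hc : ∀ i j, eval c (A i j) = eval c (B i j)) => hc i j

theorem good_of_infinite {k : Type*} [Field k] {m : ℕ} (n : ℕ) (s : Shape m)
    (h : {c : k | Good n s c}.Infinite) : Good n s (X : k[X]) := by
  have key : ∀ (A B : Matrix (Fin m × Fin n) (Fin m × Fin n) k[X]),
      (∀ c : k, Good n s c → (evalRingHom c).mapMatrix A = (evalRingHom c).mapMatrix B) →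
      A = B := by
    intro A B hAB
    apply mat_eq_of_infinite
    refine h.mono fun c hc i j => ?_
    have := congrFun (congrFun (hAB c hc) i) j
    simpa using this
  have hX : ∀ (c : k) (a : Gen), (evalRingHom c).mapMatrix (shapeMat n s (X : k[X]) a) =
      shapeMat n s c a := by
    intro c a
    rw [map_shapeMat]
    simp
  constructor
  · exact key _ _ fun c hc => by rw [map_mul, map_one, hX]; exact hc.gg
  · exact key _ _ fun c hc => by rw [map_mul, map_one, hX]; exact hc.hh
  · exact key _ _ fun c hc => by rw [map_mul, map_mul, hX, hX]; exact hc.gh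
  · exact key _ _ fun c hc => by rw [map_mul, map_neg, map_mul, hX, hX]; exact hc.gx
  · exact key _ _ fun c hc => by rw [map_mul, map_neg, map_mul, hX, hX]; exact hc.hx
  · exact key _ _ fun c hc => by rw [map_mul, map_mul, hX, hX]; exact hc.gy
  · exact key _ _ fun c hc => by rw [map_mul, map_neg, map_mul, hX, hX]; exact hc.hy
  · exact key _ _ fun c hc => by rw [map_mul, map_zero, hX]; exact hc.xx
  · exact key _ _ fun c hc => by rw [map_mul, map_zero, hX]; exact hc.yy
  · exact key _ _ fun c hc => by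
      simp only [map_mul, map_add, map_zero, hX]; exact hc.xy

section

variable {k : Type} [Field k]

/-- The homomorphism to the matrices of size `m * n` given by a good shape. -/
noncomputable def shapeHom {R : Type} [CommRing R] [Algebra k R] {m : ℕ} (n : ℕ) (s : Shape m)
    (t : R) (hg : Good n s t) {d : ℕ} (hd : m * n = d) : H k →ₐ[k] Matrix (Fin d) (Fin d) R :=
  ((Matrix.reindexAlgEquiv k R (finProdFinEquiv.trans (finCongr hd))).toAlgHom).comp
    (lift k _ _ _ _ hg)

theorem shapeHom_gen {R : Type} [CommRing R] [Algebra k R] {m : ℕ} (n : ℕ) (s : Shape m)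
    (t : R) (hg : Good n s t) {d : ℕ} (hd : m * n = d) (a : Gen) :
    shapeHom (k := k) n s t hg hd (gen k a) =
      Matrix.reindex (finProdFinEquiv.trans (finCongr hd)) (finProdFinEquiv.trans (finCongr hd))
        (shapeMat n s t a) := by
  unfold shapeHom
  simp only [AlgHom.comp_apply]
  rw [lift_gen]
  cases a <;> rfl

theorem member_shapeHom {m : ℕ} (n : ℕ) (s : Shape m) (hg : Good n s (X : k[X])) {d : ℕ}
    (hd : m * n = d) (c : k) (a : Gen) :
    member (shapeHom (k := k) n s X hg hd) c (gen k a) =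
      Matrix.reindex (finProdFinEquiv.trans (finCongr hd)) (finProdFinEquiv.trans (finCongr hd))
        (shapeMat n s c a) := by
  unfold member
  rw [AlgHom.comp_apply, shapeHom_gen]
  ext i j
  simp only [AlgHom.mapMatrix_apply, Matrix.map_apply, Matrix.reindex_apply,
    Matrix.submatrix_apply]
  have := congrFun (congrFun (map_shapeMat (evalRingHom c) n s (X : k[X]) a)
    ((finProdFinEquiv.trans (finCongr hd)).symm i)) ((finProdFinEquiv.trans (finCongr hd)).symm j)
  simpa [Polynomial.coe_aeval_eq_eval] using this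

theorem good_of_normalForm (M : Rep k (H k)) {m n : ℕ} (s : Shape m) (c : k)
    (e : M.V ≃ₗ[k] (Fin m × Fin n → k))
    (he : ∀ (a : Gen) (v : M.V), e (M.ρ (gen k a) v) = (shapeMat n s c a).mulVec (e v)) :
    Good n s c := by
  let Φ : Module.End k M.V ≃ₐ[k] Matrix (Fin m × Fin n) (Fin m × Fin n) k :=
    (LinearEquiv.conjAlgEquiv k e).trans LinearMap.toMatrixAlgEquiv'
  have h : ∀ a : Gen, Φ (M.ρ (gen k a)) = shapeMat n s c a := by
    intro a
    change LinearMap.toMatrixAlgEquiv' (LinearEquiv.conjAlgEquiv k e (M.ρ (gen k a))) = _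
    rw [← LinearMap.toMatrixAlgEquiv'_toLinAlgEquiv' (shapeMat n s c a)]
    congr 1
    apply LinearMap.ext
    intro w
    obtain ⟨v, rfl⟩ := e.surjective w
    simp [LinearEquiv.conjAlgEquiv_apply, he]
  have := (relations k).map (Φ.toAlgHom.comp M.ρ).toRingHom
  have h' : ∀ a : Gen, (Φ.toAlgHom.comp M.ρ).toRingHom (gen k a) =
      shapeMat n s c a := fun a => h a
  rw [h', h', h', h'] at this
  exact this

theorem iso_of_normalForm (M : Rep k (H k)) {m n d : ℕ} (hd : m * n = d) (s : Shape m) (c : k)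
    (e : M.V ≃ₗ[k] (Fin m × Fin n → k))
    (he : ∀ (a : Gen) (v : M.V), e (M.ρ (gen k a) v) = (shapeMat n s c a).mulVec (e v))
    (G : H k →ₐ[k] Matrix (Fin d) (Fin d) k)
    (hG : ∀ a, G (gen k a) = Matrix.reindex (finProdFinEquiv.trans (finCongr hd))
      (finProdFinEquiv.trans (finCongr hd)) (shapeMat n s c a)) : Iso M (ofMatrix G) := by
  let ε : Fin m × Fin n ≃ Fin d := finProdFinEquiv.trans (finCongr hd)
  let f : M.V ≃ₗ[k] (Fin d → k) := e.trans (LinearEquiv.funCongrLeft k k ε.symm)
  have hf : ∀ v i, f v i = e v (ε.symm i) := fun v i => rfl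
  have hext : ((LinearEquiv.conjAlgEquiv k f).toAlgHom.comp M.ρ) = (ofMatrix G).ρ := by
    apply hom_ext
    intro a
    apply LinearMap.ext
    intro w
    obtain ⟨v, rfl⟩ := f.surjective w
    have h1 : ((LinearEquiv.conjAlgEquiv k f).toAlgHom.comp M.ρ) (gen k a) (f v) =
        f (M.ρ (gen k a) v) := by
      simp [LinearEquiv.conjAlgEquiv_apply]
    rw [h1]
    change _ = (G (gen k a)).mulVec (f v)
    rw [hG]
    funext i
    rw [hf, he]
    simp only [Matrix.mulVec, dotProduct, Matrix.reindex_apply, Matrix.submatrix_apply]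
    refine Fintype.sum_equiv ε _ _ fun j => ?_
    rw [hf]
    simp [ε]
  refine ⟨f, ?_⟩
  intro a v
  have h1 : ((LinearEquiv.conjAlgEquiv k f).toAlgHom.comp M.ρ) a (f v) = f (M.ρ a v) := by
    simp [LinearEquiv.conjAlgEquiv_apply]
  exact h1.symm.trans (congrArg (fun F : H k →ₐ[k] Module.End k (Fin d → k) => F a (f v)) hext)

theorem tame_of_normalForm (k : Type) [Field k]
    (hN : ∀ M : Rep k (H k), Indecomposable M → HasNormalForm M) (d : ℕ) :
    ∃ (n : ℕ) (S : Fin n → (H k →ₐ[k] Matrix (Fin d) (Fin d) k))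
      (m : ℕ) (F : Fin m → (H k →ₐ[k] Matrix (Fin d) (Fin d) k[X])),
      ∀ M : Rep k (H k), Indecomposable M → Module.finrank k M.V = d →
        (∃ i, Iso M (ofMatrix (S i))) ∨ ∃ (i : Fin m) (c : k), Iso M (ofMatrix (member (F i) c)) := by
  classical
  let I : Type := Σ p : {p : Fin (d + 1) × Fin (d + 1) // (p.1 : ℕ) * (p.2 : ℕ) = d},
    Shape (p.1.1 : ℕ)
  have hI : Finite I := by
    unfold I Shape
    infer_instance
  let GX : I → Prop := fun i => Good (i.1.1.2 : ℕ) i.2 (X : k[X])
  let J : Type := Σ i : {i : I // ¬ GX i}, {c : k // Good (i.1.1.1.2 : ℕ) i.1.2 c}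
  have hJ : Finite J := by
    have : ∀ i : {i : I // ¬ GX i}, Finite {c : k // Good (i.1.1.1.2 : ℕ) i.1.2 c} := by
      intro i
      by_contra hinf
      apply i.2
      apply good_of_infinite
      rw [Set.Infinite, Set.Finite]
      exact hinf
    infer_instance
  obtain ⟨n, ⟨eJ⟩⟩ := Finite.exists_equiv_fin J
  obtain ⟨m, ⟨eI⟩⟩ := Finite.exists_equiv_fin {i : I // GX i}
  refine ⟨n, fun j => shapeHom _ (eJ.symm j).1.1.2 (eJ.symm j).2.1 (eJ.symm j).2.2
    (eJ.symm j).1.1.1.2, m, fun i => shapeHom _ (eI.symm i).1.2 X (eI.symm i).2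
    (eI.symm i).1.1.2, ?_⟩
  intro M hM hdM
  obtain ⟨m', n', s, c, e, he⟩ := hN M hM
  have hd : m' * n' = d := by
    rw [← hdM, LinearEquiv.finrank_eq e]
    simp
  have hdpos : 0 < d := by
    rw [← hdM]
    have := hM.1
    exact Module.finrank_pos
  have hm' : 0 < m' := by
    rcases Nat.eq_zero_or_pos m' with h | h
    · subst h; simp at hd; omega
    · exact h
  have hn' : 0 < n' := by
    rcases Nat.eq_zero_or_pos n' with h | h
    · subst h; simp at hd; omega
    · exact h
  have hm'' : m' < d + 1 := by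
    have : m' ≤ m' * n' := Nat.le_mul_of_pos_right _ hn'
    omega
  have hn'' : n' < d + 1 := by
    have : n' ≤ m' * n' := Nat.le_mul_of_pos_left _ hm'
    omega
  let i : I := ⟨⟨(⟨m', hm''⟩, ⟨n', hn''⟩), hd⟩, s⟩
  have hgood : Good n' s c := good_of_normalForm M s c e he
  by_cases hGX : GX i
  · right
    refine ⟨eI ⟨i, hGX⟩, c, ?_⟩
    apply iso_of_normalForm M hd s c e he
    intro a
    have : ∀ q : {i : I // GX i}, q = ⟨i, hGX⟩ →
        HEq (member (shapeHom (k := k) _ q.1.2 X q.2 q.1.1.2) c (gen k a))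
          (Matrix.reindex (finProdFinEquiv.trans (finCongr hd)) (finProdFinEquiv.trans (finCongr hd))
        (shapeMat n' s c a)) := by
      rintro q rfl
      exact heq_of_eq (member_shapeHom n' s hGX hd c a)
    exact eq_of_heq (this _ (eI.symm_apply_apply _))
  · left
    refine ⟨eJ ⟨⟨i, hGX⟩, ⟨c, hgood⟩⟩, ?_⟩
    apply iso_of_normalForm M hd s c e he
    intro a
    have : ∀ q : J, q = ⟨⟨i, hGX⟩, ⟨c, hgood⟩⟩ →
        (shapeHom (k := k) _ q.1.1.2 q.2.1 q.2.2 q.1.1.1.2) (gen k a) =
          (Matrix.reindex (finProdFinEquiv.trans (finCongr hd)) (finProdFinEquiv.trans (finCongr hd))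
        (shapeMat n' s c a)) := by
      rintro q rfl
      exact shapeHom_gen n' s c hgood hd a
    exact this _ (eJ.symm_apply_apply _)

end

end Pool.Agent.K6.H47.TS
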