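import Pool.Agent.K6.H47.TS.Blocks
import Pool.Agent.K6.H47.TS.Asm
import Pool.Agent.K6.H47.TS.Gen
import Pool.Agent.K6.H47.TS.Grade
import Pool.Agent.K6.H47.TS.Hopf2
import Pool.Agent.K6.H47.TS.Inf
import Pool.Agent.K6.H47.TS.Prime
import Pool.Agent.K6.H47.TS.Red
import Pool.Agent.K6.H47.TS.TameNF

/-!
# The Hopf algebra `H k` is tame and its Balmer spectrum is reducible

The pieces are by helper31 (the Hopf algebra), helper91 (the two modules), helper25 (the prime ideals),
helper84 (the projective line; splitting an indecomposable module), helper61 (the infinitely many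
indecomposable modules; the grading), helper75 (tameness from normal forms), helper66 (Jordan blocks and
the gauge), helper39 (normal forms from blocks) and helper47 (the blocks).
-/

set_option autoImplicit false

namespace Pool.Agent.K6.H47.TS

theorem hasNormalForm {k : Type} [Field k] [IsAlgClosed k] (h2 : (2 : k) ≠ 0) (M : Rep k (H k))
    (hM : Indecomposable M) : HasNormalForm M := by
  obtain ⟨𝒜, ind, top, hgh, hx, hy⟩ := grading h2 M
  have rel := relations k
  have xx : ∀ v, M.ρ (gen k .x) (M.ρ (gen k .x) v) = 0 := by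
    intro v
    have h := congrArg (fun a => M.ρ a v) rel.xx
    simpa only [map_mul, Module.End.mul_apply, map_zero, LinearMap.zero_apply] using h
  have yy : ∀ v, M.ρ (gen k .y) (M.ρ (gen k .y) v) = 0 := by
    intro v
    have h := congrArg (fun a => M.ρ a v) rel.yy
    simpa only [map_mul, Module.End.mul_apply, map_zero, LinearMap.zero_apply] using h
  obtain ⟨B, _, N, deg, X, Y, hN, hdeg, hX, hY⟩ := blocks 𝒜 ind top (Equiv.addRight (1, 1))
    (Equiv.addRight (0, 1)) (M.ρ (gen k .x)) (M.ρ (gen k .y)) xx yy hx hy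
  exact normalForm_of_blocks M hM N deg X Y hN (fun b v hv => hgh _ v (hdeg b hv)) hX hY

theorem tame_H {k : Type} [Field k] [IsAlgClosed k] (h2 : (2 : k) ≠ 0) : Tame k (H k) :=
  haveI : Infinite k := IsAlgClosed.instInfinite
  ⟨not_repFinite k h2, tame_of_normalForm k (hasNormalForm h2)⟩

theorem prime_x {k : Type} [Field k] (h2 : (2 : k) ≠ 0) :
    IsPrimeIdeal (fun M : Rep k (H k) =>
      LinearMap.range (M.ρ (gen k .x)) = LinearMap.ker (M.ρ (gen k .x))) :=
  have ⟨s, hs⟩ := exists_sx k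
  isPrime_exact h2 (gen k .g) (gen k .x) (relations k).gg (relations k).gx (relations k).xx
    (comul_x k) (counit_x k) s hs

theorem prime_y {k : Type} [Field k] (h2 : (2 : k) ≠ 0) :
    IsPrimeIdeal (fun M : Rep k (H k) =>
      LinearMap.range (M.ρ (gen k .y)) = LinearMap.ker (M.ρ (gen k .y))) :=
  have ⟨s, hs⟩ := exists_sy k
  isPrime_exact h2 (gen k .h) (gen k .y) (relations k).hh (relations k).hy (relations k).yy
    (comul_y k) (counit_y k) s hs

theorem not_preirreducible {k A : Type} [Field k] [Ring A] [HopfAlgebra k A] (P Q : Spc k A)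
    (M N : Rep k A) (hM : P.1 M) (hN : Q.1 N) (h : ∀ R : Spc k A, ¬ (R.1 M ∧ R.1 N)) :
    ¬ PreirreducibleSpace (Spc k A) := by
  intro hirr
  have hop : ∀ (L : Rep k A), IsOpen ((supp L)ᶜ : Set (Spc k A)) := fun L =>
    TopologicalSpace.isOpen_generateFrom_of_mem ⟨L, rfl⟩
  have hmem : ∀ (L : Rep k A) (R : Spc k A), R ∈ ((supp L)ᶜ : Set (Spc k A)) ↔ R.1 L := by
    intro L R
    simp [supp]
  obtain ⟨R, _, hR⟩ := hirr.isPreirreducible_univ (supp M)ᶜ (supp N)ᶜ (hop M) (hop N)
    ⟨P, trivial, (hmem M P).2 hM⟩ ⟨Q, trivial, (hmem N Q).2 hN⟩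
  exact h R ⟨(hmem M R).1 hR.1, (hmem N R).1 hR.2⟩

theorem main (k : Type) [Field k] [IsAlgClosed k] (h2 : (2 : k) ≠ 0) :
    Module.Finite k (H k) ∧ Tame k (H k) ∧ ¬ PreirreducibleSpace (Spc k (H k)) ∧
      IsEmpty (Spc k (H k) ≃ₜ ProjectiveLine k) := by
  obtain ⟨M, N, hM, hN, hMN⟩ := exists_modules k
  let P : Spc k (H k) := ⟨_, prime_x h2⟩
  let Q : Spc k (H k) := ⟨_, prime_y h2⟩
  have h : ∀ R : Spc k (H k), ¬ (R.1 M ∧ R.1 N) := fun R => hMN R.1 R.2
  exact ⟨finite_H k, tame_H h2, not_preirreducible P Q M N hM hN h,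
    not_homeomorphic P Q M N hM hN h⟩

end Pool.Agent.K6.H47.TS
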