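import Pool.Agent.K6.H47.TS.Defs2

/-!
# The Hopf algebra structure of `H k`
-/

set_option autoImplicit false
set_option linter.unusedSimpArgs false
set_option linter.constructorNameAsVariable false

namespace Pool.Agent.K6.H47.TS

open scoped TensorProduct
open Polynomial

/-- Induction on the elements of `H k`. -/
theorem H_induction (k : Type) [Field k] {P : H k → Prop}
    (hr : ∀ r : k, P (algebraMap k (H k) r)) (hg : ∀ a, P (gen k a))
    (hm : ∀ a b, P a → P b → P (a * b)) (ha : ∀ a b, P a → P b → P (a + b)) (a : H k) : P a := by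
  obtain ⟨b, rfl⟩ := RingQuot.mkAlgHom_surjective k (Rel k) a
  induction b using FreeAlgebra.induction with
  | grade0 r => rw [AlgHom.commutes]; exact hr r
  | grade1 x => exact hg x
  | mul a b iha ihb => rw [map_mul]; exact hm _ _ iha ihb
  | add a b iha ihb => rw [map_add]; exact ha _ _ iha ihb

section relcomul

variable {k A : Type} [Field k] [Ring A] [Algebra k A]

theorem Relations.comul {g h x y : A} (r : Relations g h x y) :
    Relations (g ⊗ₜ[k] g) (h ⊗ₜ[k] h) (x ⊗ₜ[k] (1 : A) + g ⊗ₜ[k] x)
      (y ⊗ₜ[k] (1 : A) + h ⊗ₜ[k] y) := by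
  have hgg' : ∀ a : A, g * (g * a) = a := fun a => by rw [← mul_assoc, r.gg, one_mul]
  have hhh' : ∀ a : A, h * (h * a) = a := fun a => by rw [← mul_assoc, r.hh, one_mul]
  have hhg : h * g = g * h := r.gh.symm
  have hhg' : ∀ a : A, h * (g * a) = g * (h * a) := fun a => by
    rw [← mul_assoc, ← r.gh, mul_assoc]
  have hgx' : ∀ a : A, g * (x * a) = -(x * (g * a)) := fun a => by
    rw [← mul_assoc, r.gx, neg_mul, mul_assoc]
  have hhx' : ∀ a : A, h * (x * a) = -(x * (h * a)) := fun a => by
    rw [← mul_assoc, r.hx, neg_mul, mul_assoc]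
  have hgy' : ∀ a : A, g * (y * a) = y * (g * a) := fun a => by
    rw [← mul_assoc, r.gy, mul_assoc]
  have hhy' : ∀ a : A, h * (y * a) = -(y * (h * a)) := fun a => by
    rw [← mul_assoc, r.hy, neg_mul, mul_assoc]
  have hxx' : ∀ a : A, x * (x * a) = 0 := fun a => by rw [← mul_assoc, r.xx, zero_mul]
  have hyy' : ∀ a : A, y * (y * a) = 0 := fun a => by rw [← mul_assoc, r.yy, zero_mul]
  have hxy : x * (y * (x * y)) = -(y * (x * (y * x))) := by
    have := r.xy
    simp only [mul_assoc] at this
    exact eq_neg_of_add_eq_zero_left this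
  have hxy' : ∀ a : A, x * (y * (x * (y * a))) = -(y * (x * (y * (x * a)))) := fun a => by
    have := congrArg (· * a) hxy
    simpa only [mul_assoc, neg_mul] using this
  have ggh : g * g = 1 := r.gg
  constructor
  · simp [Algebra.TensorProduct.tmul_mul_tmul, r.gg, Algebra.TensorProduct.one_def]
  · simp [Algebra.TensorProduct.tmul_mul_tmul, r.hh, Algebra.TensorProduct.one_def]
  · simp [Algebra.TensorProduct.tmul_mul_tmul, r.gh]
  · simp only [mul_add, add_mul, Algebra.TensorProduct.tmul_mul_tmul, r.gx, r.gg, mul_one, one_mul,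
      TensorProduct.neg_tmul, TensorProduct.tmul_neg, neg_add]
  · simp only [mul_add, add_mul, Algebra.TensorProduct.tmul_mul_tmul, r.hx, r.hh, hhg, mul_one,
      one_mul, TensorProduct.neg_tmul, TensorProduct.tmul_neg, neg_add]
  · simp only [mul_add, add_mul, Algebra.TensorProduct.tmul_mul_tmul, r.gy, hhg, mul_one,
      one_mul, TensorProduct.neg_tmul, TensorProduct.tmul_neg, neg_add]
  · simp only [mul_add, add_mul, Algebra.TensorProduct.tmul_mul_tmul, r.hy, r.hh, mul_one,
      one_mul, TensorProduct.neg_tmul, TensorProduct.tmul_neg, neg_add]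
  · simp only [mul_add, add_mul, Algebra.TensorProduct.tmul_mul_tmul, r.gx, r.xx, r.gg, mul_one,
      one_mul, TensorProduct.neg_tmul, TensorProduct.tmul_neg, TensorProduct.tmul_zero,
      TensorProduct.zero_tmul]
    abel
  · simp only [mul_add, add_mul, Algebra.TensorProduct.tmul_mul_tmul, r.hy, r.yy, r.hh, mul_one,
      one_mul, TensorProduct.neg_tmul, TensorProduct.tmul_neg, TensorProduct.tmul_zero,
      TensorProduct.zero_tmul]
    abel
  · simp only [mul_add, add_mul, Algebra.TensorProduct.tmul_mul_tmul, mul_one, one_mul, mul_assoc,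
      r.gg, hgg', r.hh, hhh', hhg, hhg', r.gx, hgx', r.hx, hhx', r.gy, hgy', r.hy, hhy',
      r.xx, hxx', r.yy, hyy', hxy, hxy', mul_neg, neg_mul, neg_neg, mul_zero, zero_mul,
      TensorProduct.neg_tmul, TensorProduct.tmul_neg, TensorProduct.tmul_zero,
      TensorProduct.zero_tmul, neg_zero]
    abel

theorem Relations.anti {g h x y : A} (r : Relations g h x y) :
    Relations (MulOpposite.op g) (MulOpposite.op h) (MulOpposite.op (-(g * x)))
      (MulOpposite.op (-(h * y))) := by
  have hgg' : ∀ a : A, g * (g * a) = a := fun a => by rw [← mul_assoc, r.gg, one_mul]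
  have hhh' : ∀ a : A, h * (h * a) = a := fun a => by rw [← mul_assoc, r.hh, one_mul]
  have hhg : h * g = g * h := r.gh.symm
  have hhg' : ∀ a : A, h * (g * a) = g * (h * a) := fun a => by
    rw [← mul_assoc, ← r.gh, mul_assoc]
  have hgx' : ∀ a : A, g * (x * a) = -(x * (g * a)) := fun a => by
    rw [← mul_assoc, r.gx, neg_mul, mul_assoc]
  have hhx' : ∀ a : A, h * (x * a) = -(x * (h * a)) := fun a => by
    rw [← mul_assoc, r.hx, neg_mul, mul_assoc]
  have hgy' : ∀ a : A, g * (y * a) = y * (g * a) := fun a => by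
    rw [← mul_assoc, r.gy, mul_assoc]
  have hhy' : ∀ a : A, h * (y * a) = -(y * (h * a)) := fun a => by
    rw [← mul_assoc, r.hy, neg_mul, mul_assoc]
  have hxx' : ∀ a : A, x * (x * a) = 0 := fun a => by rw [← mul_assoc, r.xx, zero_mul]
  have hyy' : ∀ a : A, y * (y * a) = 0 := fun a => by rw [← mul_assoc, r.yy, zero_mul]
  have hxy : x * (y * (x * y)) = -(y * (x * (y * x))) := by
    have := r.xy
    simp only [mul_assoc] at this
    exact eq_neg_of_add_eq_zero_left this
  have hxy' : ∀ a : A, x * (y * (x * (y * a))) = -(y * (x * (y * (x * a)))) := fun a => by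
    have := congrArg (· * a) hxy
    simpa only [mul_assoc, neg_mul] using this
  have ggh : g * g = 1 := r.gg
  constructor <;>
  · apply MulOpposite.unop_injective
    simp only [MulOpposite.unop_mul, MulOpposite.unop_op, MulOpposite.unop_neg,
      MulOpposite.unop_add, MulOpposite.unop_one, MulOpposite.unop_zero, mul_one, one_mul,
      mul_assoc, r.gg, hgg', r.hh, hhh', hhg, hhg', r.gx, hgx', r.hx, hhx', r.gy, hgy', r.hy, hhy',
      r.xx, hxx', r.yy, hyy', hxy, hxy', mul_neg, neg_mul, neg_neg, mul_zero, zero_mul,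
      neg_zero, neg_add_cancel, add_neg_cancel]

end relcomul

section antip

variable {k A : Type} [Field k] [Ring A] [Algebra k A]

/-- `c ⊗ d ↦ S c * m * d` -/
noncomputable def phiL (S : A →ₗ[k] A) (m : A) : A ⊗[k] A →ₗ[k] A :=
  LinearMap.mul' k A ∘ₗ TensorProduct.map (LinearMap.mulRight k m ∘ₗ S) LinearMap.id

theorem phiL_tmul (S : A →ₗ[k] A) (m c d : A) : phiL S m (c ⊗ₜ[k] d) = S c * m * d := by
  simp [phiL]

theorem phiL_add (S : A →ₗ[k] A) (m m' : A) (t : A ⊗[k] A) :
    phiL S (m + m') t = phiL S m t + phiL S m' t := by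
  induction t using TensorProduct.induction_on with
  | zero => simp
  | tmul c d => simp only [phiL_tmul, mul_add, add_mul]
  | add a b ha hb => rw [map_add, map_add, map_add, ha, hb]; abel

theorem phiL_zero (S : A →ₗ[k] A) (t : A ⊗[k] A) :
    phiL S (0 : A) t = 0 := by
  have := phiL_add S 0 0 t
  rw [add_zero] at this
  exact left_eq_add.mp this

theorem phiL_smul (S : A →ₗ[k] A) (r : k) (m : A) (t : A ⊗[k] A) :
    phiL S (r • m) t = r • phiL S m t := by
  induction t using TensorProduct.induction_on with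
  | zero => simp
  | tmul c d => simp only [phiL_tmul, mul_smul_comm, smul_mul_assoc]
  | add a b ha hb => rw [map_add, map_add, ha, hb, smul_add]

theorem phiL_mul (S : A →ₗ[k] A) (hS : ∀ a b, S (a * b) = S b * S a) (m : A) (t t' : A ⊗[k] A) :
    phiL S m (t * t') = phiL S (phiL S m t) t' := by
  induction t using TensorProduct.induction_on with
  | zero => rw [zero_mul, map_zero, phiL_zero]
  | add a b ha hb => rw [add_mul, map_add, map_add, ha, hb, phiL_add]
  | tmul c d =>
    induction t' using TensorProduct.induction_on with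
    | zero => simp
    | add a b ha hb => rw [mul_add, map_add, map_add, ha, hb]
    | tmul c' d' =>
      rw [Algebra.TensorProduct.tmul_mul_tmul, phiL_tmul, phiL_tmul, phiL_tmul, hS]
      simp only [mul_assoc]

/-- `c ⊗ d ↦ c * m * S d` -/
noncomputable def phiR (S : A →ₗ[k] A) (m : A) : A ⊗[k] A →ₗ[k] A :=
  LinearMap.mul' k A ∘ₗ TensorProduct.map (LinearMap.mulRight k m) S

theorem phiR_tmul (S : A →ₗ[k] A) (m c d : A) : phiR S m (c ⊗ₜ[k] d) = c * m * S d := by
  simp [phiR]

theorem phiR_add (S : A →ₗ[k] A) (m m' : A) (t : A ⊗[k] A) :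
    phiR S (m + m') t = phiR S m t + phiR S m' t := by
  induction t using TensorProduct.induction_on with
  | zero => simp
  | tmul c d => simp only [phiR_tmul, mul_add, add_mul]
  | add a b ha hb => rw [map_add, map_add, map_add, ha, hb]; abel

theorem phiR_zero (S : A →ₗ[k] A) (t : A ⊗[k] A) :
    phiR S (0 : A) t = 0 := by
  have := phiR_add S 0 0 t
  rw [add_zero] at this
  exact left_eq_add.mp this

theorem phiR_smul (S : A →ₗ[k] A) (r : k) (m : A) (t : A ⊗[k] A) :
    phiR S (r • m) t = r • phiR S m t := by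
  induction t using TensorProduct.induction_on with
  | zero => simp
  | tmul c d => simp only [phiR_tmul, mul_smul_comm, smul_mul_assoc]
  | add a b ha hb => rw [map_add, map_add, ha, hb, smul_add]

theorem phiR_mul (S : A →ₗ[k] A) (hS : ∀ a b, S (a * b) = S b * S a) (m : A) (t t' : A ⊗[k] A) :
    phiR S m (t * t') = phiR S (phiR S m t') t := by
  induction t using TensorProduct.induction_on with
  | zero => rw [zero_mul, map_zero, map_zero]
  | add a b ha hb => rw [add_mul, map_add, map_add, ha, hb]
  | tmul c d =>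
    induction t' using TensorProduct.induction_on with
    | zero => simp only [mul_zero, map_zero, phiR_zero]
    | add a b ha hb => rw [mul_add, map_add, map_add, ha, hb, phiR_add]
    | tmul c' d' =>
      rw [Algebra.TensorProduct.tmul_mul_tmul, phiR_tmul, phiR_tmul, phiR_tmul, hS]
      simp only [mul_assoc]

theorem phiL_one (S : A →ₗ[k] A) (t : A ⊗[k] A) :
    phiL S 1 t = LinearMap.mul' k A (S.rTensor A t) := by
  induction t using TensorProduct.induction_on with
  | zero => simp
  | tmul c d => simp [phiL_tmul]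
  | add a b ha hb => simp only [map_add, ha, hb]

theorem phiR_one (S : A →ₗ[k] A) (t : A ⊗[k] A) :
    phiR S 1 t = LinearMap.mul' k A (S.lTensor A t) := by
  induction t using TensorProduct.induction_on with
  | zero => simp
  | tmul c d => simp [phiR_tmul]
  | add a b ha hb => simp only [map_add, ha, hb]

end antip

section hopf

variable (k : Type) [Field k]

/-- The comultiplication. -/
noncomputable def comulHom : H k →ₐ[k] H k ⊗[k] H k :=
  lift k _ _ _ _ (relations k).comul

theorem one_relations (B : Type*) [Ring B] : Relations (1 : B) 1 0 0 := by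
  constructor <;> simp

/-- The counit. -/
noncomputable def counitHom : H k →ₐ[k] k := lift k 1 1 0 0 (one_relations k)

/-- The antipode, as a homomorphism to the opposite algebra. -/
noncomputable def antiHom : H k →ₐ[k] (H k)ᵐᵒᵖ := lift k _ _ _ _ (relations k).anti

/-- The antipode. -/
noncomputable def anti : H k →ₗ[k] H k :=
  (MulOpposite.opLinearEquiv k).symm.toLinearMap ∘ₗ (antiHom k).toLinearMap

theorem anti_apply (a : H k) : anti k a = MulOpposite.unop (antiHom k a) := rfl

theorem anti_mul (a b : H k) : anti k (a * b) = anti k b * anti k a := by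
  simp [anti_apply]

theorem comulHom_g : comulHom k (gen k .g) = gen k .g ⊗ₜ[k] gen k .g := lift_gen k _ _ _ _ _ _
theorem comulHom_h : comulHom k (gen k .h) = gen k .h ⊗ₜ[k] gen k .h := lift_gen k _ _ _ _ _ _
theorem comulHom_x : comulHom k (gen k .x) = gen k .x ⊗ₜ[k] 1 + gen k .g ⊗ₜ[k] gen k .x :=
  lift_gen k _ _ _ _ _ _
theorem comulHom_y : comulHom k (gen k .y) = gen k .y ⊗ₜ[k] 1 + gen k .h ⊗ₜ[k] gen k .y :=
  lift_gen k _ _ _ _ _ _
theorem counitHom_g : counitHom k (gen k .g) = 1 := lift_gen k _ _ _ _ _ _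
theorem counitHom_h : counitHom k (gen k .h) = 1 := lift_gen k _ _ _ _ _ _
theorem counitHom_x : counitHom k (gen k .x) = 0 := lift_gen k _ _ _ _ _ _
theorem counitHom_y : counitHom k (gen k .y) = 0 := lift_gen k _ _ _ _ _ _
theorem anti_g : anti k (gen k .g) = gen k .g := by
  rw [anti_apply, antiHom, lift_gen]; rfl
theorem anti_h : anti k (gen k .h) = gen k .h := by
  rw [anti_apply, antiHom, lift_gen]; rfl
theorem anti_x : anti k (gen k .x) = -(gen k .g * gen k .x) := by
  rw [anti_apply, antiHom, lift_gen]; rfl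
theorem anti_y : anti k (gen k .y) = -(gen k .h * gen k .y) := by
  rw [anti_apply, antiHom, lift_gen]; rfl
theorem anti_algebraMap (r : k) : anti k (algebraMap k _ r) = algebraMap k _ r := by
  rw [anti_apply, AlgHom.commutes]; rfl

noncomputable instance bialg : Bialgebra k (H k) :=
  Bialgebra.ofAlgHom (comulHom k) (counitHom k)
    (by
      apply hom_ext
      intro a
      cases a
      · simp [comulHom_g]
      · simp [comulHom_h]
      · simp [comulHom_x, comulHom_g, TensorProduct.add_tmul, TensorProduct.tmul_add,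
          Algebra.TensorProduct.one_def, add_assoc]
      · simp [comulHom_y, comulHom_h, TensorProduct.add_tmul, TensorProduct.tmul_add,
          Algebra.TensorProduct.one_def, add_assoc])
    (by
      apply hom_ext
      intro a
      cases a
      · simp [comulHom_g, counitHom_g]
      · simp [comulHom_h, counitHom_h]
      · simp [comulHom_x, counitHom_g, counitHom_x]
      · simp [comulHom_y, counitHom_h, counitHom_y])
    (by
      apply hom_ext
      intro a
      cases a
      · simp [comulHom_g, counitHom_g]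
      · simp [comulHom_h, counitHom_h]
      · simp [comulHom_x, counitHom_g, counitHom_x]
      · simp [comulHom_y, counitHom_h, counitHom_y])

theorem comul_eq (a : H k) : Coalgebra.comul (R := k) a = comulHom k a := rfl
theorem counit_eq (a : H k) : Coalgebra.counit (R := k) a = counitHom k a := rfl

theorem antipL (a : H k) : phiL (anti k) 1 (comulHom k a) = algebraMap k (H k) (counitHom k a) := by
  have hr := relations k
  induction a using H_induction with
  | hr r =>
    rw [AlgHom.commutes, AlgHom.commutes, Algebra.TensorProduct.algebraMap_apply, phiL_tmul,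
      anti_algebraMap]
    simp
  | hg a =>
    cases a
    · rw [comulHom_g, counitHom_g, phiL_tmul, anti_g, mul_one, hr.gg, map_one]
    · rw [comulHom_h, counitHom_h, phiL_tmul, anti_h, mul_one, hr.hh, map_one]
    · rw [comulHom_x, counitHom_x, map_add, phiL_tmul, phiL_tmul, anti_x, anti_g]
      simp
    · rw [comulHom_y, counitHom_y, map_add, phiL_tmul, phiL_tmul, anti_y, anti_h]
      simp
  | hm a b ha hb =>
    rw [map_mul (comulHom k), map_mul (counitHom k), phiL_mul _ (anti_mul k), ha,
      Algebra.algebraMap_eq_smul_one, phiL_smul, hb, Algebra.algebraMap_eq_smul_one,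
      Algebra.algebraMap_eq_smul_one, smul_smul]
  | ha a b ha hb => rw [map_add, map_add, map_add, map_add, ha, hb]

theorem ring_aux {B : Type*} [Ring B] (g x : B) (h : g * g = 1) :
    x * 1 * 1 + g * 1 * -(g * x) = 0 := by
  rw [mul_neg, mul_one, mul_one, mul_one, ← mul_assoc, h, one_mul, add_neg_cancel]

theorem antipR (a : H k) : phiR (anti k) 1 (comulHom k a) = algebraMap k (H k) (counitHom k a) := by
  have hr := relations k
  induction a using H_induction with
  | hr r =>
    rw [AlgHom.commutes, AlgHom.commutes, Algebra.TensorProduct.algebraMap_apply, phiR_tmul]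
    have : anti k 1 = 1 := by simpa using anti_algebraMap k 1
    rw [this]
    simp
  | hg a =>
    cases a
    · rw [comulHom_g, counitHom_g, phiR_tmul, anti_g, mul_one, hr.gg, map_one]
    · rw [comulHom_h, counitHom_h, phiR_tmul, anti_h, mul_one, hr.hh, map_one]
    · have : anti k 1 = 1 := by simpa using anti_algebraMap k 1
      rw [comulHom_x, counitHom_x, map_add, phiR_tmul, phiR_tmul, anti_x, this, map_zero]
      exact ring_aux _ _ hr.gg
    · have : anti k 1 = 1 := by simpa using anti_algebraMap k 1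
      rw [comulHom_y, counitHom_y, map_add, phiR_tmul, phiR_tmul, anti_y, this, map_zero]
      exact ring_aux _ _ hr.hh
  | hm a b ha hb =>
    rw [map_mul (comulHom k), map_mul (counitHom k), phiR_mul _ (anti_mul k), hb,
      Algebra.algebraMap_eq_smul_one, phiR_smul, ha, Algebra.algebraMap_eq_smul_one,
      Algebra.algebraMap_eq_smul_one, smul_smul, mul_comm]
  | ha a b ha hb => rw [map_add, map_add, map_add, map_add, ha, hb]

noncomputable instance hopf : HopfAlgebra k (H k) where
  antipode := anti k
  mul_antipode_rTensor_comul := by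
    ext a
    change LinearMap.mul' k (H k) ((anti k).rTensor (H k) (comulHom k a)) =
      algebraMap k (H k) (counitHom k a)
    rw [← phiL_one, antipL]
  mul_antipode_lTensor_comul := by
    ext a
    change LinearMap.mul' k (H k) ((anti k).lTensor (H k) (comulHom k a)) =
      algebraMap k (H k) (counitHom k a)
    rw [← phiR_one, antipR]

theorem comul_g : Coalgebra.comul (R := k) (gen k .g) = gen k .g ⊗ₜ[k] gen k .g := comulHom_g k
theorem comul_h : Coalgebra.comul (R := k) (gen k .h) = gen k .h ⊗ₜ[k] gen k .h := comulHom_h k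
theorem comul_x : Coalgebra.comul (R := k) (gen k .x) =
    gen k .x ⊗ₜ[k] 1 + gen k .g ⊗ₜ[k] gen k .x := comulHom_x k
theorem comul_y : Coalgebra.comul (R := k) (gen k .y) =
    gen k .y ⊗ₜ[k] 1 + gen k .h ⊗ₜ[k] gen k .y := comulHom_y k
theorem counit_g : Coalgebra.counit (R := k) (gen k .g) = 1 := counitHom_g k
theorem counit_h : Coalgebra.counit (R := k) (gen k .h) = 1 := counitHom_h k
theorem counit_x : Coalgebra.counit (R := k) (gen k .x) = 0 := counitHom_x k
theorem counit_y : Coalgebra.counit (R := k) (gen k .y) = 0 := counitHom_y k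

end hopf

section
variable {k A : Type} [Field k] [Ring A] [HopfAlgebra k A]
theorem tensor_rho_grouplike (M N : Rep k A) (a b c : A)
    (h : Coalgebra.comul (R := k) a = b ⊗ₜ[k] c) (v : M.V) (w : N.V) :
    (tensor M N).ρ a (v ⊗ₜ[k] w) = (M.ρ b v) ⊗ₜ[k] (N.ρ c w) := by
  change (Module.endTensorEndAlgHom (R := k) (S := k) (A := k) (M := M.V) (N := N.V)
    (Algebra.TensorProduct.map M.ρ N.ρ (Coalgebra.comul (R := k) a))) (v ⊗ₜ[k] w) = _
  rw [h, Algebra.TensorProduct.map_tmul]
  rfl
theorem tensor_rho_skew (M N : Rep k A) (a b c b' c' : A)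
    (h : Coalgebra.comul (R := k) a = b ⊗ₜ[k] c + b' ⊗ₜ[k] c') (v : M.V) (w : N.V) :
    (tensor M N).ρ a (v ⊗ₜ[k] w) = (M.ρ b v) ⊗ₜ[k] (N.ρ c w) + (M.ρ b' v) ⊗ₜ[k] (N.ρ c' w) := by
  change (Module.endTensorEndAlgHom (R := k) (S := k) (A := k) (M := M.V) (N := N.V)
    (Algebra.TensorProduct.map M.ρ N.ρ (Coalgebra.comul (R := k) a))) (v ⊗ₜ[k] w) = _
  rw [h, map_add, map_add, Algebra.TensorProduct.map_tmul, Algebra.TensorProduct.map_tmul]
  rfl
end
section
variable {k : Type} [Field k]
theorem tensor_g (M N : Rep k (H k)) (v : M.V) (w : N.V) :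
    (tensor M N).ρ (gen k .g) (v ⊗ₜ[k] w) = (M.ρ (gen k .g) v) ⊗ₜ[k] (N.ρ (gen k .g) w) :=
  tensor_rho_grouplike M N _ _ _ (comul_g k) v w
theorem tensor_h (M N : Rep k (H k)) (v : M.V) (w : N.V) :
    (tensor M N).ρ (gen k .h) (v ⊗ₜ[k] w) = (M.ρ (gen k .h) v) ⊗ₜ[k] (N.ρ (gen k .h) w) :=
  tensor_rho_grouplike M N _ _ _ (comul_h k) v w
theorem tensor_x (M N : Rep k (H k)) (v : M.V) (w : N.V) :
    (tensor M N).ρ (gen k .x) (v ⊗ₜ[k] w) =
      (M.ρ (gen k .x) v) ⊗ₜ[k] w + (M.ρ (gen k .g) v) ⊗ₜ[k] (N.ρ (gen k .x) w) := by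
  have := tensor_rho_skew M N _ _ _ _ _ (comul_x k) v w
  rwa [map_one, Module.End.one_apply] at this
theorem tensor_y (M N : Rep k (H k)) (v : M.V) (w : N.V) :
    (tensor M N).ρ (gen k .y) (v ⊗ₜ[k] w) =
      (M.ρ (gen k .y) v) ⊗ₜ[k] w + (M.ρ (gen k .h) v) ⊗ₜ[k] (N.ρ (gen k .y) w) := by
  have := tensor_rho_skew M N _ _ _ _ _ (comul_y k) v w
  rwa [map_one, Module.End.one_apply] at this
end

end Pool.Agent.K6.H47.TS
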