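import Pool.Agent.K6.H47.TS.Defs2

/-! Piece SPLIT for MP_868e2f_al: complementary subspaces invariant under the generators. -/

set_option autoImplicit false
namespace Pool.Agent.K6.H47.TS
open scoped TensorProduct
open Polynomial

namespace SplitP

variable {k : Type} [Field k]

/-- A subspace invariant under the generators is invariant under the algebra. -/
lemma inv (M : Rep k (H k)) (U : Submodule k M.V)
    (hU : ∀ (a : Gen), ∀ v ∈ U, M.ρ (gen k a) v ∈ U) (a : H k) : ∀ v ∈ U, M.ρ a v ∈ U := by
  obtain ⟨b, rfl⟩ := RingQuot.mkAlgHom_surjective k (Rel k) a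
  induction b using FreeAlgebra.induction with
  | grade0 r =>
    intro v hv
    rw [AlgHom.commutes, AlgHom.commutes]
    exact U.smul_mem r hv
  | grade1 x => exact hU x
  | mul a b ha hb =>
    intro v hv
    rw [map_mul, map_mul]
    exact ha _ (hb _ hv)
  | add a b ha hb =>
    intro v hv
    rw [map_add, map_add]
    exact U.add_mem (ha _ hv) (hb _ hv)

/-- The action on an invariant subspace. -/
noncomputable def res (M : Rep k (H k)) (U : Submodule k M.V)
    (hU : ∀ (a : H k), ∀ v ∈ U, M.ρ a v ∈ U) : H k →ₐ[k] Module.End k U :=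
  AlgHom.ofLinearMap
    { toFun := fun a => (M.ρ a).restrict (hU a)
      map_add' := fun a b => by
        ext v
        simp
      map_smul' := fun r a => by
        ext v
        simp }
    (by ext v; simp)
    (fun a b => by ext v; simp)

lemma res_apply (M : Rep k (H k)) (U : Submodule k M.V)
    (hU : ∀ (a : H k), ∀ v ∈ U, M.ρ a v ∈ U) (a : H k) (v : U) :
    ((res M U hU a v : U) : M.V) = M.ρ a v := rfl

/-- The subrepresentation. -/
noncomputable def sub (M : Rep k (H k)) (U : Submodule k M.V)
    (hU : ∀ (a : H k), ∀ v ∈ U, M.ρ a v ∈ U) : Rep k (H k) where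
  V := U
  ρ := res M U hU

end SplitP

open SplitP in
theorem split {k : Type} [Field k] (M : Rep k (H k)) (hM : Indecomposable M)
    (U W : Submodule k M.V) (hUW : IsCompl U W)
    (hU : ∀ (a : Gen), ∀ v ∈ U, M.ρ (gen k a) v ∈ U)
    (hW : ∀ (a : Gen), ∀ v ∈ W, M.ρ (gen k a) v ∈ W) : U = ⊥ ∨ W = ⊥ := by
  have hU' := inv M U hU
  have hW' := inv M W hW
  have key : ∀ (a : H k) (v : M.V), (Submodule.prodEquivOfIsCompl U W hUW).symm (M.ρ a v) =
      (res M U hU' a ((Submodule.prodEquivOfIsCompl U W hUW).symm v).1,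
        res M W hW' a ((Submodule.prodEquivOfIsCompl U W hUW).symm v).2) := by
    intro a v
    obtain ⟨⟨u, w⟩, rfl⟩ := (Submodule.prodEquivOfIsCompl U W hUW).surjective v
    rw [LinearEquiv.symm_apply_apply, LinearEquiv.symm_apply_eq]
    have h3 : ∀ (p : U) (q : W), (Submodule.prodEquivOfIsCompl U W hUW) (p, q) =
        (p : M.V) + (q : M.V) := by
      intro p q
      simp [Submodule.coe_prodEquivOfIsCompl']
    rw [h3, h3, res_apply, res_apply, map_add]
  have h := hM.2 (sub M U hU') (sub M W hW')
    ⟨(Submodule.prodEquivOfIsCompl U W hUW).symm, fun a v => key a v⟩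
  rcases h with h | h
  · left
    have h' : Subsingleton U := h
    exact (Submodule.subsingleton_iff_eq_bot).mp h'
  · right
    have h' : Subsingleton W := h
    exact (Submodule.subsingleton_iff_eq_bot).mp h'

end Pool.Agent.K6.H47.TS
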